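import Pool.Agent.TPF.UR
import Pool.Agent.JNT.ExTall

/-!
# TPF (two-point function of the plane): the constant upper bound at one scale, no hypothesis (helper29)
-/

set_option autoImplicit false

namespace HexObs

namespace TPF

open Finset TS SDN NTW NTA SIM JNT EN

/-- the labelled norm of the tall leaves -/
theorem exT : ExT := by
  have hw : ∀ k : ℕ, (0 : ℝ) < (fun k => (4 : ℝ) ^ k) k := fun k => by positivity
  have hup : MUp (fun k => (4 : ℝ) ^ k) := ⟨4, by norm_num, fun k => le_of_eq (pow_succ' 4 k)⟩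
  obtain ⟨C, s0, hC, hs, h⟩ := ex_tall labU_E hw hup (gbl_of labM_E hw hup joG_E)
  exact ⟨C, s0, hC, hs, fun kc n hn => h s0 le_rfl kc n hn⟩

/-- **(UR)** -/
theorem ur : TPC.UR := ur_of exT

end TPF

end HexObs
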