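import Pool.Agent.TPF.NaMass

/-!
# TPF (two-point function of the plane): the glueing (helper29)

A word `rev s ++ (z ++ v)`: `s ++ [x]` and `v` are half plane words without a cut, `z` is a bridge.
* **`low_sum`**: `gf A * gf B * δ ≤ 2 xc * ∑ g ∈ Rot3, gf (SE (g q))`, where `δ` is a lower bound for the weight of the
  bridges with the displacement `q + up - ev s - ev v`.
-/

set_option autoImplicit false

namespace HexObs

namespace TPF

open Complex Finset ENNReal BAR SDN

/-- the end vertex -/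
def ev (t : List Bool) : Pt := vx oo up t t.length

/-- the rotations by multiples of 120 degrees -/
def Rot3 : Finset Pt := {(1, 0), (-1, 1), (0, -1)}

/-- self-avoiding words with the end vertex q -/
def SE (q : Pt) : Set (List Bool) := {t | t ∈ SA ∧ ev t = q}

/-- bridges with the end vertex p -/
def ZB (p : Pt) : Set (List Bool) := {z | (∃ h, z ∈ Brd h) ∧ ev z = p}

lemma NA_cuts {m : ℕ} {t : List Bool} (h : t ∈ NA m) : cuts t = ∅ := by
  by_contra hne
  obtain ⟨j, hj⟩ := Finset.nonempty_of_ne_empty hne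
  rw [mem_cuts] at hj
  obtain ⟨r, r1, r2, r3, r4⟩ := CutP_take h.1 hj
  exact h.2 r r1 ⟨t.take j, t.drop j, r4, pos_SSt (CutP_drop h.1 hj), (List.take_append_drop j t).symm⟩

lemma SSt_HpN {m : ℕ} {t : List Bool} (h : t ∈ SSt m) : t ∈ HpN t.length :=
  HpN_iff.2 ⟨rfl, pos_SSt h, (mem_SSt.1 h).2⟩

/-- the rotation of the joint -/
def jr (s : List Bool) : Pt := rotTo up (jd s)

lemma jr_up (s : List Bool) : mulE (jr s) up = jd s := rotTo_apply (jd s) BAR.up_dirs

lemma jr_nrm (s : List Bool) : nrm (jr s) = 1 := nrm_rotTo BAR.up_dirs (jd_dirs s)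

lemma jr_uniq {s : List Bool} {R : Pt} (h : mulE R up = jd s) : R = jr s := by
  rw [← jr_up s, mulE_comm R, mulE_comm (jr s)] at h
  exact mulE_inj (mem_dirs.1 BAR.up_dirs) h

lemma rot3_check : ∀ R ∈ dirs, cl R = 1 → R ∈ Rot3 := by decide

lemma rot3_nrm {R : Pt} (h : R ∈ Rot3) : nrm R = 1 := by
  revert R
  decide

lemma jr_rot3 {s : List Bool} (h : Even s.length) : jr s ∈ Rot3 := by
  apply rot3_check _ (mem_dirs.2 (jr_nrm s))
  have h1 : cl (jd s) = cl up := by
    unfold jd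
    rw [cl_dx, if_pos h]
  rw [← jr_up s, cl_mulE] at h1
  have h2 : cl up = 2 := by decide
  rw [h2] at h1
  revert h1
  generalize cl (jr s) = c
  revert c
  decide

/-- displacement of the glued word -/
lemma disp (s w : List Bool) : ev (rev s ++ w) = mulE (jr s) (tip oo up s - up + ev w) := by
  obtain ⟨R1, hR1, h1, h2, _⟩ := frame_rev s
  obtain ⟨R2, hR2, h3, h4⟩ := jvx_snd s w
  have e2 : R2 = jr s := jr_uniq h3
  subst e2
  have e3 : mulE R1 (jr s) = (-1, 0) := by
    have h5 : mulE (mulE R1 (jr s)) up = -up := by rw [← mulE_assoc, jr_up, h1]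
    rw [mulE_comm] at h5
    apply mulE_inj (mem_dirs.1 BAR.up_dirs)
    rw [h5]
    decide
  have e4 : vx oo up (rev s) s.length = mulE (jr s) (tip oo up s - up) := by
    apply mulE_inj hR1
    rw [mulE_assoc, e3, h2 _ (by omega), show s.length + 1 - s.length = 1 by omega]
    have h6 : vx oo up s 1 = up := zero_add up
    rw [h6]
    ext <;> simp [mulE]
  have e5 := h4 w.length
  unfold ev
  rw [List.length_append, rev_length, e5, mulE_add, ← e4, vx_append (by rw [rev_length]; omega)]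

lemma ev_cat {z v : List Bool} {h : ℕ} (hz : z ∈ Brd h) : ev (z ++ v) = ev z + ev v := by
  unfold ev
  rw [List.length_append, vx_cat (mem_Brd.1 hz).2.2.1]

lemma ev_snoc (s : List Bool) (x : Bool) : ev (s ++ [x]) = tip oo up s := by
  unfold ev tip
  rw [List.length_append, List.length_singleton, vx_append le_rfl]

/-- the last cut is unique -/
lemma na_uniq {m m' h h' : ℕ} {z z' v v' : List Bool} (hz : z ∈ Brd h) (hz' : z' ∈ Brd h') (hv : v ∈ NA m)
    (hv' : v' ∈ NA m') (e : z ++ v = z' ++ v') : z = z' ∧ v = v' := by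
  have key : ∀ {m m' h h' : ℕ} {z z' v v' : List Bool} (hz : z ∈ Brd h) (hz' : z' ∈ Brd h') (hv : v ∈ NA m)
      (hv' : v' ∈ NA m') (e : z ++ v = z' ++ v') (hh : h ≤ h'), z = z' ∧ v = v' := by
    intro m m' h h' z z' v v' hz hz' hv hv' e hh
    obtain ⟨y, hy, e1, e2⟩ := nested hz hz' (pos_SSt hv.1) (pos_SSt hv'.1) hh e
    rcases Nat.eq_zero_or_pos (h' - h) with h0 | h0
    · rw [h0, Brd_zero] at hy
      have : y = [] := hy
      subst this
      exact ⟨by rw [e1, List.append_nil], by rw [e2, List.nil_append]⟩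
    · exact absurd ⟨y, v', hy, pos_SSt hv'.1, e2⟩ (hv.2 _ h0)
  rcases le_total h h' with hh | hh
  · exact key hz hz' hv hv' e hh
  · obtain ⟨e1, e2⟩ := key hz' hz hv' hv e.symm hh
    exact ⟨e1.symm, e2.symm⟩

/-- **the glueing** -/
theorem low_sum {m : ℕ} (q : Pt) {A B : Set (List Bool)} (hA : ∀ s ∈ A, s ∈ NAb true m) (hB : ∀ v ∈ B, v ∈ NA m)
    {δ : ℝ≥0∞} (hδ : ∀ s ∈ A, ∀ v ∈ B, δ ≤ gf (ZB (q + up - ev s - ev v))) :
    gf A * gf B * δ ≤ ENNReal.ofReal (2 * xc) * ∑ g ∈ Rot3, gf (SE (mulE g q)) := by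
  classical
  have hform : ∀ a : A, ∃ (s : List Bool) (x : Bool), a.1 = s ++ [x] ∧ Even s.length := by
    intro a
    have h1 := (hA a.1 a.2).2
    have hne : a.1 ≠ [] := by
      intro h
      rw [h] at h1
      simp at h1
    obtain ⟨x, hx⟩ := last_split hne
    refine ⟨_, x, hx, ?_⟩
    have hl : a.1.length = a.1.dropLast.length + 1 := by
      conv_lhs => rw [hx, List.length_append, List.length_singleton]
    rw [hl, Nat.bodd_succ] at h1
    rw [Nat.even_iff, Nat.mod_two_of_bodd]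
    have h2 : a.1.dropLast.length.bodd = false := by simpa using h1
    rw [h2]
    rfl
  choose f g hfg hev using hform
  let I := Σ (a : A) (v : B), (ZB (q + up - ev a.1 - ev v.1) : Set (List Bool))
  let F : I → Bool × Pt × List Bool := fun i => (g i.1, jr (f i.1), rev (f i.1) ++ (i.2.2.1 ++ i.2.1.1))
  let G : Bool × Pt × List Bool → ℝ≥0∞ := fun y =>
    if y.2.1 ∈ Rot3 ∧ y.2.2 ∈ SE (mulE y.2.1 q) then ENNReal.ofReal xc * wE y.2.2 else 0
  have hs : ∀ a : A, f a ++ [g a] ∈ HpN ((f a).length + 1) := by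
    intro a
    have h1 := SSt_HpN (hA a.1 a.2).1.1
    rw [hfg a, List.length_append, List.length_singleton] at h1
    exact h1
  have hw : ∀ i : I, ∃ d, i.2.2.1 ++ i.2.1.1 ∈ SSt d := by
    rintro ⟨a, v, z, ⟨h, hz⟩, _⟩
    exact ⟨_, SSt_cat hz (hB v.1 v.2).1⟩
  have hFinj : Function.Injective F := by
    intro i j hij
    have e1 : g i.1 = g j.1 := congrArg (fun y => y.1) hij
    have e2 : jr (f i.1) = jr (f j.1) := congrArg (fun y => y.2.1) hij
    have e3 : rev (f i.1) ++ (i.2.2.1 ++ i.2.1.1) = rev (f j.1) ++ (j.2.2.1 ++ j.2.1.1) := congrArg (fun y => y.2.2) hij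
    have e4 : jd (f i.1) = jd (f j.1) := by rw [← jr_up, ← jr_up, e2]
    have key : ∀ i j : I, rev (f i.1) ++ (i.2.2.1 ++ i.2.1.1) = rev (f j.1) ++ (j.2.2.1 ++ j.2.1.1) →
        jd (f i.1) = jd (f j.1) → ¬ (f i.1).length < (f j.1).length := by
      intro i j e3 e4 hlt
      obtain ⟨d, hd⟩ := hw i
      obtain ⟨d', hd'⟩ := hw j
      have h1 := glue_cut (hs i.1) (SSt_HpN hd) (hs j.1) (SSt_HpN hd') e3 e4 hlt
      rw [← hfg j.1, NA_cuts (hA j.1.1 j.1.2).1] at h1
      exact Finset.not_nonempty_empty h1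
    have h1 := key i j e3 e4
    have h2 := key j i e3.symm e4.symm
    have e5 := List.append_inj e3 (by rw [rev_length, rev_length]; omega)
    have e6 : f i.1 = f j.1 := by
      have := congrArg rev e5.1
      rwa [rev_rev, rev_rev] at this
    have e7 : i.1 = j.1 := Subtype.ext (by rw [hfg i.1, hfg j.1, e6, e1])
    obtain ⟨⟨h, hz⟩, _⟩ := i.2.2.2
    obtain ⟨⟨h', hz'⟩, _⟩ := j.2.2.2
    have e8 := na_uniq hz hz' (hB _ i.2.1.2) (hB _ j.2.1.2) e5.2
    obtain ⟨a, v, z⟩ := i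
    obtain ⟨a', v', z'⟩ := j
    simp only at e7 e8
    subst e7
    have e9 : v = v' := Subtype.ext e8.2
    subst e9
    have e10 : z = z' := Subtype.ext e8.1
    subst e10
    rfl
  have hGF : ∀ i : I, wE i.1.1 * (wE i.2.1.1 * wE i.2.2.1) = G (F i) := by
    rintro ⟨a, v, z, ⟨h, hz⟩, hzq⟩
    have hmem : (rev (f a) ++ (z ++ v.1)) ∈ SE (mulE (jr (f a)) q) := by
      have hd : z ++ v.1 ∈ SSt (h + m) := SSt_cat hz (hB v.1 v.2).1
      refine ⟨(glue_mem (hs a) (SSt_HpN hd)).2, ?_⟩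
      rw [disp, ev_cat hz, hzq, hfg a, ev_snoc]
      congr 1
      abel
    show wE a.1 * (wE v.1 * wE z) = if jr (f a) ∈ Rot3 ∧ (rev (f a) ++ (z ++ v.1)) ∈ SE (mulE (jr (f a)) q) then
      ENNReal.ofReal xc * wE (rev (f a) ++ (z ++ v.1)) else 0
    rw [if_pos ⟨jr_rot3 (hev a), hmem⟩, ← wE_join _ _ (g a), ← hfg a, wE_append]
    ring
  have h1 : gf A * gf B * δ ≤ ∑' i : I, wE i.1.1 * (wE i.2.1.1 * wE i.2.2.1) := by
    rw [ENNReal.tsum_sigma']
    unfold gf
    rw [mul_assoc, ← ENNReal.tsum_mul_right]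
    refine ENNReal.tsum_le_tsum fun a => ?_
    rw [ENNReal.tsum_sigma', ← ENNReal.tsum_mul_right, ← ENNReal.tsum_mul_left]
    refine ENNReal.tsum_le_tsum fun v => ?_
    have h2 := hδ a.1 a.2 v.1 v.2
    calc wE a.1 * (wE v.1 * δ) ≤ wE a.1 * (wE v.1 * gf (ZB (q + up - ev a.1 - ev v.1))) := by gcongr
      _ = ∑' z : (ZB (q + up - ev a.1 - ev v.1) : Set (List Bool)), wE a.1 * (wE v.1 * wE z.1) := by
        unfold gf
        rw [ENNReal.tsum_mul_left, ENNReal.tsum_mul_left]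
  have h2 : ∑' y, G y = ENNReal.ofReal (2 * xc) * ∑ g ∈ Rot3, gf (SE (mulE g q)) := by
    have h3 : ∀ (x : Bool) (r : Pt), ∑' t : List Bool, G (x, r, t) =
        if r ∈ Rot3 then ENNReal.ofReal xc * gf (SE (mulE r q)) else 0 := by
      intro x r
      by_cases hr : r ∈ Rot3
      · rw [if_pos hr]
        have h4 : ∀ t : List Bool, G (x, r, t) = ENNReal.ofReal xc * (if t ∈ SE (mulE r q) then wE t else 0) := by
          intro t
          show (if r ∈ Rot3 ∧ t ∈ SE (mulE r q) then ENNReal.ofReal xc * wE t else 0) = _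
          by_cases ht : t ∈ SE (mulE r q)
          · rw [if_pos ⟨hr, ht⟩, if_pos ht]
          · rw [if_neg (fun h => ht h.2), if_neg ht, mul_zero]
        rw [tsum_congr h4, ENNReal.tsum_mul_left, gf_ind]
      · rw [if_neg hr]
        have h4 : ∀ t : List Bool, G (x, r, t) = 0 := fun t => if_neg (fun h => hr h.1)
        rw [tsum_congr h4, tsum_zero]
    rw [ENNReal.tsum_prod', tsum_bool]
    have h5 : ∀ x : Bool, ∑' y : Pt × List Bool, G (x, y) = ENNReal.ofReal xc * ∑ g ∈ Rot3, gf (SE (mulE g q)) := by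
      intro x
      rw [ENNReal.tsum_prod', tsum_congr (h3 x), tsum_eq_sum (s := Rot3) (fun r hr => if_neg hr), Finset.mul_sum]
      exact Finset.sum_congr rfl fun r hr => if_pos hr
    rw [h5, ← two_mul, ← mul_assoc]
    congr 1
    rw [ENNReal.ofReal_mul (by norm_num)]
    simp
  calc gf A * gf B * δ ≤ ∑' i : I, wE i.1.1 * (wE i.2.1.1 * wE i.2.2.1) := h1
    _ = ∑' i : I, G (F i) := tsum_congr hGF
    _ ≤ ∑' y, G y := ENNReal.tsum_comp_le_tsum_of_injective hFinj G
    _ = _ := h2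

end TPF

end HexObs
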