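import Pool.Agent.TPF.Low
import Pool.Agent.TPC.NaC
import Pool.Agent.TPC.Defs

/-!
# TPF (two-point function of the plane): the lower bound for the words, with constants (helper85)

* **`low_gfX`**: `c D ^ (- 5 / 24) ≤ ∑ g ∈ Rot3, gf (SE (g q))` for the points `q` of the lattice of level
  `D = ip q up ≥ D0` with `|q.1| ≤ D`, from `TPC.XLow` alone;
* **`low_gfC`**: the same with the literal hypotheses.
-/

set_option autoImplicit false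

namespace HexObs

namespace TPF

open Complex Finset ENNReal BAR SDN NTA

/-- choice of the scales, with constants -/
lemma scaleC (J k0 : ℕ) {D : ℕ} (hD : 200 * 2 ^ (J + k0) ≤ D) : ∃ r : ℕ, k0 ≤ r ∧ 200 * 2 ^ (r + J) ≤ D ∧
    D ≤ 400 * 2 ^ J * 2 ^ r := by
  obtain ⟨L, hL⟩ : ∃ L, L = Nat.log 2 (D / 200) := ⟨_, rfl⟩
  have h0 : 2 ^ (J + k0) ≤ D / 200 := by
    rw [Nat.le_div_iff_mul_le (by norm_num)]
    omega
  have hne : D / 200 ≠ 0 := by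
    have : 0 < 2 ^ (J + k0) := by positivity
    omega
  have h1 : 2 ^ L ≤ D / 200 := by
    rw [hL]
    exact Nat.pow_log_le_self 2 hne
  have h2 : D / 200 < 2 ^ (L + 1) := by
    rw [hL]
    exact Nat.lt_pow_succ_log_self (by norm_num) _
  have h3 : J + k0 ≤ L := by
    rw [hL]
    exact Nat.le_log_of_pow_le (by norm_num) h0
  obtain ⟨r, rfl⟩ : ∃ r, L = r + J := ⟨L - J, by omega⟩
  refine ⟨r, by omega, by omega, ?_⟩
  have e : 2 ^ (r + J + 1) = 2 * (2 ^ J * 2 ^ r) := by ring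
  rw [e] at h2
  have e2 : 400 * 2 ^ J * 2 ^ r = 400 * (2 ^ J * 2 ^ r) := by ring
  rw [e2]
  omega

/-- **the lower bound** -/
theorem low_gfX (hL : TPC.XLow) : ∃ (c : ℝ) (D0 : ℕ), 0 < c ∧ ∀ (q : Pt) (D : ℕ) (b : Bool),
    D0 ≤ D → ip q up = D → |q.1| ≤ D → (3 : ℤ) ∣ ip q up - (if b then 2 else 0) →
    ENNReal.ofReal (c * (D : ℝ) ^ (-(5 / 24) : ℝ)) ≤ ∑ g ∈ Rot3, gf (SE (mulE g q)) := by
  obtain ⟨c1, t0, hc1, hloc⟩ := RP.localTube 4 (η := 1) one_pos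
  have hloc' : ∀ (t : ℕ) (x : ℤ), t0 ≤ t → Even (x - t) → |x| ≤ (4 : ℕ) * t →
      ENNReal.ofReal (c1 * (uu t / t)) ≤ gf (RP.EndB t x) := fun t x h1 h2 h3 =>
    (hloc t x h1 h2 h3).trans (gf_mono fun b hb => hb.1)
  obtain ⟨c2, hc2, hX⟩ := hL
  obtain ⟨c4, hc4, huu⟩ := GLow.uu_low
  obtain ⟨J, k0, hJ⟩ := TPC.na_half
  have hxc := xc_pos
  obtain ⟨M, hM⟩ : ∃ M : ℝ, M = 400 * 2 ^ J := ⟨_, rfl⟩
  have hM0 : 0 < M := by rw [hM]; positivity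
  refine ⟨(2 * xc)⁻¹ * (c2 / 256 * (M ^ (25 / 24 : ℝ))⁻¹) * (c1 * c4), 200 * 2 ^ (J + k0) + 200 + 4 * t0,
    by positivity, fun q D b hD hq1 hq2 hb => ?_⟩
  obtain ⟨r, hr, hrD, hDr⟩ := scaleC J k0 (D := D) (by omega)
  have hDone : (1 : ℝ) ≤ D := by
    have : 1 ≤ D := by omega
    exact_mod_cast this
  have hDp : (0 : ℝ) < D := by linarith
  -- the mass of the half plane words
  have hmass : ∀ b : Bool, Xb r ≤ 16 * gf {t | t ∈ NAb b (2 ^ r) ∧ t ∈ WL (r + J)} := by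
    intro b
    refine (TPC.Xb_le_NAb b le_rfl).trans ?_
    have h1 := hJ r (2 ^ r) (r + J) b hr le_rfl (Nat.pow_lt_pow_right (by norm_num) (by omega)) le_rfl
    calc 8 * gf (NAb b (2 ^ r)) ≤ 8 * (2 * gf {t | t ∈ NAb b (2 ^ r) ∧ t ∈ WL (r + J)}) := mul_le_mul' le_rfl h1
      _ = _ := by ring
  have hmain := low_sum (m := 2 ^ r) q (A := {t | t ∈ NAb true (2 ^ r) ∧ t ∈ WL (r + J)})
    (B := {t | t ∈ NAb b (2 ^ r) ∧ t ∈ WL (r + J)})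
    (fun s hs => hs.1) (fun v hv => hv.1.1) (δ := ENNReal.ofReal (c1 * (uu D / D)))
    (fun s hs v hv => delta hloc' hc1 hq1 hq2 hb hrD (by omega) hs hv)
  obtain ⟨gA, hgA⟩ : ∃ g, g = gf {t | t ∈ NAb true (2 ^ r) ∧ t ∈ WL (r + J)} := ⟨_, rfl⟩
  obtain ⟨gB, hgB⟩ : ∃ g, g = gf {t | t ∈ NAb b (2 ^ r) ∧ t ∈ WL (r + J)} := ⟨_, rfl⟩
  have hA := hmass true
  have hB := hmass b
  rw [← hgA] at hA hmain
  rw [← hgB] at hB hmain
  have hAB : ENNReal.ofReal (c2 * (2 : ℝ) ^ (25 / 24 * (r : ℝ))) ≤ ENNReal.ofReal 256 * (gA * gB) := by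
    refine (hX r).trans ?_
    rw [pow_two]
    refine (mul_le_mul' hA hB).trans (le_of_eq ?_)
    have e : ENNReal.ofReal 256 = 16 * 16 := by
      rw [show (256 : ℝ) = 16 * 16 by norm_num, ENNReal.ofReal_mul (by norm_num)]
      simp
    rw [e]
    ring
  have h2r : ((D : ℝ) / M) ^ (25 / 24 : ℝ) ≤ (2 : ℝ) ^ (25 / 24 * (r : ℝ)) := by
    rw [mul_comm (25 / 24 : ℝ), Real.rpow_mul (by norm_num), Real.rpow_natCast]
    apply Real.rpow_le_rpow (by positivity) _ (by norm_num)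
    rw [div_le_iff₀ hM0, hM]
    have : (D : ℝ) ≤ 400 * 2 ^ J * 2 ^ r := by exact_mod_cast hDr
    linarith
  have e1 : c4 * (D : ℝ) ^ (-(5 / 4) : ℝ) ≤ uu D / D := by
    rw [le_div_iff₀ hDp]
    have := huu D (by omega)
    have e2 : c4 * (D : ℝ) ^ (-(5 / 4) : ℝ) * D = c4 * (D : ℝ) ^ (-(1 / 4) : ℝ) := by
      nth_rewrite 2 [← Real.rpow_one (D : ℝ)]
      rw [mul_assoc, ← Real.rpow_add hDp]
      norm_num
    rw [e2]
    exact this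
  have h6 : ENNReal.ofReal 256 * (ENNReal.ofReal (2 * xc) *
      ENNReal.ofReal ((2 * xc)⁻¹ * (c2 / 256 * (M ^ (25 / 24 : ℝ))⁻¹) * (c1 * c4) * (D : ℝ) ^ (-(5 / 24) : ℝ))) ≤
      ENNReal.ofReal 256 * (ENNReal.ofReal (2 * xc) * ∑ g ∈ Rot3, gf (SE (mulE g q))) := by
    refine le_trans ?_ (mul_le_mul' le_rfl hmain)
    rw [← mul_assoc (ENNReal.ofReal 256) (gA * gB)]
    refine le_trans ?_ (mul_le_mul' hAB le_rfl)
    rw [← ENNReal.ofReal_mul (by positivity), ← ENNReal.ofReal_mul (by positivity),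
      ← ENNReal.ofReal_mul (by positivity)]
    apply ENNReal.ofReal_le_ofReal
    have e3 : (D : ℝ) ^ (-(5 / 24) : ℝ) = (D : ℝ) ^ (25 / 24 : ℝ) * (D : ℝ) ^ (-(5 / 4) : ℝ) := by
      rw [← Real.rpow_add hDp]
      norm_num
    have e4 : ((D : ℝ) / M) ^ (25 / 24 : ℝ) = (D : ℝ) ^ (25 / 24 : ℝ) * (M ^ (25 / 24 : ℝ))⁻¹ := by
      rw [Real.div_rpow hDp.le hM0.le, div_eq_mul_inv]
    calc 256 * (2 * xc * ((2 * xc)⁻¹ * (c2 / 256 * (M ^ (25 / 24 : ℝ))⁻¹) * (c1 * c4) * (D : ℝ) ^ (-(5 / 24) : ℝ)))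
        = c2 * ((D : ℝ) ^ (25 / 24 : ℝ) * (M ^ (25 / 24 : ℝ))⁻¹) * (c1 * (c4 * (D : ℝ) ^ (-(5 / 4) : ℝ))) := by
          rw [e3]
          field_simp
      _ = c2 * ((D : ℝ) / M) ^ (25 / 24 : ℝ) * (c1 * (c4 * (D : ℝ) ^ (-(5 / 4) : ℝ))) := by rw [e4]
      _ ≤ c2 * (2 : ℝ) ^ (25 / 24 * (r : ℝ)) * (c1 * (uu D / D)) := by gcongr
  have h7 : ENNReal.ofReal 256 ≠ 0 := by simp
  have h8 : ENNReal.ofReal (2 * xc) ≠ 0 := by
    have : 0 < 2 * xc := by positivity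
    simpa using this
  exact (ENNReal.mul_le_mul_iff_right h8 ENNReal.ofReal_ne_top).1
    ((ENNReal.mul_le_mul_iff_right h7 ENNReal.ofReal_ne_top).1 h6)

/-- the same, literal form -/
theorem low_gfC (_hU : TPC.XUp) (hL : TPC.XLow) : ∃ (c : ℝ) (D0 : ℕ), 0 < c ∧ ∀ (q : Pt) (D : ℕ) (b : Bool),
    D0 ≤ D → ip q up = D → |q.1| ≤ D → (3 : ℤ) ∣ ip q up - (if b then 2 else 0) →
    ENNReal.ofReal (c * (D : ℝ) ^ (-(5 / 24) : ℝ)) ≤ ∑ g ∈ Rot3, gf (SE (mulE g q)) :=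
  low_gfX hL

end TPF

end HexObs
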