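import Pool.Agent.TPF.UpE

/-!
# TPF (two-point function of the plane): the upper bound with constants (helper7)

* **`up_gfC`**: `gf (SE q) ≤ C D ^ (- 5 / 24)` for every point `q` with `|lvl dir q| ≥ D ≥ D0`, one `dir`, from the
  constant upper bound at a fixed end point `TPC.UR` and the growth `TPC.XUp` of `Xb`.
-/

set_option autoImplicit false

namespace HexObs

namespace TPF

open Finset TS SDN NTW NTA SIM

open scoped ENNReal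

/-- one scale, with constants -/
lemma endK_C (hR : TPC.UR) (hU : TPC.XUp) : ∃ (A : ℝ) (K1 : ℕ), 0 < A ∧ ∀ (K : ℕ) (y : Pt), K1 ≤ K →
    gf (TPC.EndK K y) ≤ ENNReal.ofReal (A * (2 : ℝ) ^ (-(5 / 24) * (K : ℝ))) := by
  obtain ⟨C, K0, hC, h⟩ := hR
  obtain ⟨C1, hC1, hX⟩ := hU
  obtain ⟨A2, hA2, hUb⟩ := Ub_up
  refine ⟨C * A2 * C1, K0, by positivity, fun K y hK => ?_⟩
  have hUK := Ub_pos K
  refine (h K y hK).trans ((mul_le_mul' le_rfl (hX K)).trans ?_)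
  rw [← ENNReal.ofReal_mul (by positivity)]
  apply ENNReal.ofReal_le_ofReal
  have e4 : (4 : ℝ) ^ K = (2 : ℝ) ^ (2 * (K : ℝ)) := by
    rw [Real.rpow_mul (by norm_num), Real.rpow_natCast]
    norm_num
  calc C * (Ub K / 4 ^ K) * (C1 * (2 : ℝ) ^ (25 / 24 * (K : ℝ)))
      ≤ C * (A2 * (2 : ℝ) ^ (3 / 4 * (K : ℝ)) / 4 ^ K) * (C1 * (2 : ℝ) ^ (25 / 24 * (K : ℝ))) := by
        have := hUb K
        gcongr
    _ = C * A2 * C1 * ((2 : ℝ) ^ (3 / 4 * (K : ℝ)) * (2 : ℝ) ^ (25 / 24 * (K : ℝ)) * (2 : ℝ) ^ (-(2 * (K : ℝ)))) := by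
        rw [e4, Real.rpow_neg (by norm_num)]
        field_simp
    _ = C * A2 * C1 * (2 : ℝ) ^ (-(5 / 24) * (K : ℝ)) := by
        rw [← Real.rpow_add (by norm_num), ← Real.rpow_add (by norm_num)]
        congr 2
        ring

/-- **the upper bound with constants** -/
theorem up_gfC (hR : TPC.UR) (hU : TPC.XUp) : ∃ (C : ℝ) (D0 : ℕ), 0 < C ∧ ∀ (q : Pt) (D : ℕ), D0 ≤ D →
    ((D : ℤ) ≤ |lvl false q| ∨ (D : ℤ) ≤ |lvl true q|) →
    gf (SE q) ≤ ENNReal.ofReal (C * (D : ℝ) ^ (-(5 / 24) : ℝ)) := by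
  obtain ⟨A, K1, hA, h⟩ := endK_C hR hU
  have hr : (2 : ℝ) ^ (-(5 / 24) : ℝ) < 1 := Real.rpow_lt_one_of_one_lt_of_neg (by norm_num) (by norm_num)
  have h9 : 0 < (1 - (2 : ℝ) ^ (-(5 / 24) : ℝ))⁻¹ := inv_pos.2 (by linarith)
  exact ⟨A * (8 : ℝ) ^ (5 / 24 : ℝ) * (1 - (2 : ℝ) ^ (-(5 / 24) : ℝ))⁻¹, 6 + 8 * 2 ^ K1, by positivity,
    fun q D hD hq => sum_scales hA (by norm_num) (fun K hK => h K q hK) (by omega) (by omega) hq⟩

end TPF

end HexObs
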