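import Pool.Agent.TPF.Pub
import Pool.Agent.TPF.URZ
import Pool.Agent.TPF.UpC
import Pool.Agent.TPF.LowC

/-!
# TPF (two-point function of the plane): the theorem with constants (helper29)

* **`two_point`**: `c |x| ^ (- 5 / 24) ≤ G(x) ≤ C |x| ^ (- 5 / 24)` for every vertex `x ≠ 0`, from `TPC.XUp` and `TPC.XLow`.
-/

set_option autoImplicit false

namespace HexObs

namespace TPF

open Finset TS SDN NTW NTA SIM

open scoped ENNReal

/-- the generating function at a vertex is finite -/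
theorem SE_finC (hR : TPC.UR) (hU : TPC.XUp) (q : Pt) : gf (SE q) ≠ ⊤ := by
  classical
  obtain ⟨A, K1, hA, h⟩ := endK_C hR hU
  obtain ⟨Ct, hCt, hWL⟩ := tot_WL
  obtain ⟨A1, hA1, hX⟩ := hU
  have hr : (2 : ℝ) ^ (-(5 / 24) : ℝ) < 1 := Real.rpow_lt_one_of_one_lt_of_neg (by norm_num) (by norm_num)
  have hsub : SE q ⊆ WL K1 ∪ ⋃ j : ℕ, TPC.EndK (K1 + j) q := by
    rintro t ⟨ht, he⟩
    have hex := SA_WL ht
    obtain ⟨K, hK⟩ : ∃ K, K = Nat.find hex := ⟨_, rfl⟩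
    have h1 : t ∈ WL K := hK ▸ Nat.find_spec hex
    rcases Nat.lt_or_ge K1 K with h2 | h2
    · right
      have h3 : t ∉ WL (K - 1) := fun hc => by
        have := Nat.find_min' hex hc
        omega
      refine Set.mem_iUnion.2 ⟨K - K1, ?_⟩
      rw [show K1 + (K - K1) = K by omega]
      exact ⟨h1, h3, he⟩
    · left
      exact ⟨ht, fun i hi dir => (h1.2 i hi dir).trans (pow_le_pow_right₀ (by norm_num) h2)⟩
  have hfin1 : gf (WL K1) ≠ ⊤ := by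
    refine ne_top_of_le_ne_top ?_ (hWL K1)
    have hX1 : Xb K1 ^ 2 ≠ ⊤ := ne_top_of_le_ne_top ENNReal.ofReal_ne_top (hX K1)
    exact ENNReal.mul_ne_top ENNReal.ofReal_ne_top (ENNReal.mul_ne_top ENNReal.ofReal_ne_top hX1)
  have h6 : ∀ j : ℕ, gf (TPC.EndK (K1 + j) q) ≤
      ENNReal.ofReal (A * (2 : ℝ) ^ (-(5 / 24) * (K1 : ℝ)) * ((2 : ℝ) ^ (-(5 / 24) : ℝ)) ^ j) := by
    intro j
    refine (h (K1 + j) q (by omega)).trans (ENNReal.ofReal_le_ofReal (le_of_eq ?_))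
    rw [mul_assoc, ← Real.rpow_natCast ((2 : ℝ) ^ (-(5 / 24) : ℝ)) j, ← Real.rpow_mul (by norm_num),
      ← Real.rpow_add (by norm_num)]
    push_cast
    congr 2
    ring
  have hfin2 : gf (⋃ j : ℕ, TPC.EndK (K1 + j) q) ≠ ⊤ := by
    refine ne_top_of_le_ne_top ?_ ((ENNReal.tsum_iUnion_le_tsum wE _).trans (ENNReal.tsum_le_tsum h6))
    rw [← ENNReal.ofReal_tsum_of_nonneg (fun j => by positivity)
      ((summable_geometric_of_lt_one (by positivity) hr).mul_left _)]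
    exact ENNReal.ofReal_ne_top
  have h7 : gf (WL K1 ∪ ⋃ j : ℕ, TPC.EndK (K1 + j) q) ≤ gf (WL K1) + gf (⋃ j : ℕ, TPC.EndK (K1 + j) q) :=
    ENNReal.tsum_union_le wE _ _
  exact ne_top_of_le_ne_top (ENNReal.add_ne_top.2 ⟨hfin1, hfin2⟩) ((gf_mono hsub).trans h7)

open Classical in
/-- **the two-point function of the plane, with constants** -/
theorem two_point (hU : TPC.XUp) (hL : TPC.XLow) {f : ℕ → Fin 3 → ℂ}
    (hf : ∀ i a, f i a = (-1 : ℂ) ^ i * Complex.exp (2 * (Real.pi : ℂ) * Complex.I * ((a : ℕ) : ℂ) / 3))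
    {μ : ℝ} (hμ : μ = ⨅ n : {n : ℕ // 1 ≤ n}, (((SawNu.saw f n.1).card : ℝ) ^ ((1 : ℝ) / (n.1 : ℝ))))
    {G : ℝ → ℂ → ℝ}
    (hG : ∀ z x, G z x = ∑' n : ℕ, (((SawNu.saw f n).filter (fun s => SawNu.pos f s n = x)).card : ℝ) * z ^ n) :
    ∃ c : ℝ, 0 < c ∧ ∀ (n : ℕ) (s : Fin n → Fin 3), SawNu.pos f s n ≠ 0 →
      c * ‖SawNu.pos f s n‖ ^ (-(5 / 24) : ℝ) ≤ G (1 / μ) (SawNu.pos f s n) ∧
        G (1 / μ) (SawNu.pos f s n) ≤ c⁻¹ * ‖SawNu.pos f s n‖ ^ (-(5 / 24) : ℝ) := by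
  obtain ⟨c, C, hc, hC, h⟩ := pub (a := 5 / 24) (b := 5 / 24) (by norm_num) (by norm_num) (low_gfC hU hL)
    (up_gfC ur hU) (SE_finC ur hU) hf hμ hG
  refine ⟨min c C⁻¹, lt_min hc (inv_pos.2 hC), fun n s hx => ?_⟩
  obtain ⟨h1, h2⟩ := h n s hx
  have hN : 0 ≤ ‖SawNu.pos f s n‖ ^ (-(5 / 24) : ℝ) := by positivity
  refine ⟨(mul_le_mul_of_nonneg_right (min_le_left _ _) hN).trans h1, h2.trans (mul_le_mul_of_nonneg_right ?_ hN)⟩
  rw [le_inv_comm₀ hC (lt_min hc (inv_pos.2 hC))]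
  exact min_le_right _ _

end TPF

end HexObs
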