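import Pool.Agent.BAR.HCut
import Pool.Agent.BAR.LatLog
import Pool.Agent.BAR.PwGlue
import Pool.Agent.PHW.TopB0

/-!
# TPF (two-point function of the plane): half plane words without a cut, in a box (helper29)

* `NAb b m`: words of the strip of `m` rows without a cut, parity `b` of the length;
* **`na_box`**: `HH m ≤ 16 * UU m * gf {t ∈ NAb b m | t ∈ WL L}` if `K (L + 1) (m + 1) ≤ 2 ^ L`.
-/

set_option autoImplicit false

namespace HexObs

namespace TPF

open Complex Finset ENNReal BAR SDN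

/-- words of the strip of m rows without a cut, parity b of the length -/
def NAb (b : Bool) (m : ℕ) : Set (List Bool) := {t | t ∈ NA m ∧ t.length.bodd = b}

/-- words of the strip of m rows, parity b of the length -/
def SSb (b : Bool) (m : ℕ) : Set (List Bool) := {t | t ∈ SSt m ∧ t.length.bodd = b}

lemma wE_one (b : Bool) : wE [b] ≤ 1 := by
  unfold wE
  rw [← ENNReal.ofReal_one]
  apply ENNReal.ofReal_le_ofReal
  have h1 := xc_pos.le
  have h2 := B2b_xc_le_one
  simpa using h2

lemma gf_let : gf {t : List Bool | t = [true] ∨ t = [false]} ≤ 2 := by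
  have h1 : {t : List Bool | t = [true] ∨ t = [false]} ⊆ {[true]} ∪ {[false]} := by
    rintro t (h | h)
    · exact Or.inl h
    · exact Or.inr h
  refine (gf_mono h1).trans ((gf_union_le _ _).trans ?_)
  have h2 : ∀ b : Bool, gf ({[b]} : Set (List Bool)) ≤ 1 := fun b => by
    have e : ({[b]} : Set (List Bool)) = (({[b]} : Finset (List Bool)) : Set (List Bool)) := by simp
    rw [e, gf_finset]
    simp only [Finset.sum_singleton, List.length_singleton, pow_one]
    rw [← ENNReal.ofReal_one]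
    exact ENNReal.ofReal_le_ofReal B2b_xc_le_one
  have := add_le_add (h2 true) (h2 false)
  rwa [one_add_one_eq_two] at this

lemma dropLast_SSt {m : ℕ} {t : List Bool} (h : t ∈ SSt m) : t.dropLast ∈ SSt m := by
  obtain ⟨h1, h2⟩ := mem_SSt.1 h
  rw [mem_SSt]
  have e : t.dropLast = t.take (t.length - 1) := List.dropLast_eq_take
  have hl : (t.take (t.length - 1)).length = t.length - 1 := by
    rw [List.length_take]; omega
  rw [e, hl]
  refine ⟨fun i hi hk => ?_, fun i k hik hk => ?_⟩
  · rw [lev_take (by omega) (by omega)]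
    exact h1 i hi (by omega)
  · rw [vx_take (by omega) (by omega), vx_take (by omega) (by omega)]
    exact h2 i k hik (by omega)

lemma last_split {t : List Bool} (h : t ≠ []) : ∃ x, t = t.dropLast ++ [x] :=
  ⟨t.getLast h, (List.dropLast_append_getLast h).symm⟩

/-- odd words are at most twice the even ones -/
lemma odd_le (m : ℕ) : gf (SSb true m) ≤ 2 * gf (SSb false m) := by
  rw [mul_comm]
  refine (gf_le_mul (Q := SSb false m) (R := {t | t = [true] ∨ t = [false]}) ?_).trans
    (mul_le_mul' le_rfl gf_let)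
  rintro t ⟨h1, h2⟩
  have hne : t ≠ [] := by
    rintro rfl
    simp at h2
  obtain ⟨x, hx⟩ := last_split hne
  have hl : t.length = t.dropLast.length + 1 := by
    conv_lhs => rw [hx, List.length_append, List.length_singleton]
  refine ⟨t.dropLast, ⟨dropLast_SSt h1, ?_⟩, [x], ?_, hx⟩
  · rw [hl, Nat.bodd_succ] at h2
    simpa using h2
  · cases x
    · exact Or.inr rfl
    · exact Or.inl rfl

lemma nil_mem (m : ℕ) : ([] : List Bool) ∈ SSb false m := ⟨nil_SSt m, rfl⟩

/-- even words are at most 1 and twice the odd ones -/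
lemma even_le (m : ℕ) : gf (SSb false m) ≤ 1 + 2 * gf (SSb true m) := by
  have h0 : SSb false m ⊆ {[]} ∪ {t | t ∈ SSb false m ∧ t ≠ []} := by
    intro t ht
    by_cases h : t = []
    · exact Or.inl h
    · exact Or.inr ⟨ht, h⟩
  refine (gf_mono h0).trans ((gf_union_le _ _).trans (add_le_add ?_ ?_))
  · have e : ({[]} : Set (List Bool)) = (({[]} : Finset (List Bool)) : Set (List Bool)) := by simp
    rw [e, gf_finset]
    simp
  · rw [mul_comm]
    refine (gf_le_mul (Q := SSb true m) (R := {t | t = [true] ∨ t = [false]}) ?_).trans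
      (mul_le_mul' le_rfl gf_let)
    rintro t ⟨⟨h1, h2⟩, hne⟩
    obtain ⟨x, hx⟩ := last_split hne
    have hl : t.length = t.dropLast.length + 1 := by
      conv_lhs => rw [hx, List.length_append, List.length_singleton]
    refine ⟨t.dropLast, ⟨dropLast_SSt h1, ?_⟩, [x], ?_, hx⟩
    · rw [hl, Nat.bodd_succ] at h2
      simpa using h2
    · cases x
      · exact Or.inr rfl
      · exact Or.inl rfl

lemma one_mem {m : ℕ} (hm : 1 ≤ m) (b : Bool) : [b] ∈ SSb true m := by
  refine ⟨?_, by simp⟩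
  rw [mem_SSt]
  refine ⟨fun i h1 h2 => ?_, fun i k hik hk => ?_⟩
  · have hi : i = 1 := by simp at h2; omega
    subst hi
    rw [lev_one]
    have : (1 : ℤ) ≤ m := by exact_mod_cast hm
    omega
  · have hk1 : k = 1 := by simp at hk; omega
    have hi0 : i = 0 := by omega
    subst hk1
    subst hi0
    intro h
    have h1 : lev [b] 0 = lev [b] 1 := by unfold lev; rw [h]
    rw [lev_zero, lev_one] at h1
    norm_num at h1

lemma one_le_odd {m : ℕ} (hm : 1 ≤ m) : 1 ≤ 2 * gf (SSb true m) := by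
  have h1 : (({[true]} : Finset (List Bool)) : Set (List Bool)) ⊆ SSb true m := by
    intro t ht
    rw [Finset.mem_coe, Finset.mem_singleton] at ht
    subst ht
    exact one_mem hm true
  have h2 := gf_mono h1
  rw [gf_finset, Finset.sum_singleton, List.length_singleton, pow_one] at h2
  refine le_trans ?_ (mul_le_mul' le_rfl h2)
  have e : (2 : ℝ≥0∞) = ENNReal.ofReal 2 := by simp
  rw [e, ← ENNReal.ofReal_mul (by norm_num), ← ENNReal.ofReal_one]
  apply ENNReal.ofReal_le_ofReal
  have h3 : xc = 1 / (2 * Real.cos (Real.pi / 8)) := rfl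
  have h4 : Real.cos (Real.pi / 8) ≤ 1 := Real.cos_le_one _
  have h5 : 0 < Real.cos (Real.pi / 8) := Real.cos_pos_of_mem_Ioo ⟨by linarith [Real.pi_pos], by linarith [Real.pi_pos]⟩
  rw [h3, mul_one_div, le_div_iff₀ (by positivity)]
  linarith

/-- both parities carry a positive part of the weight -/
theorem HH_le_SSb {m : ℕ} (hm : 1 ≤ m) (b : Bool) : HH m ≤ 8 * gf (SSb b m) := by
  have h0 : HH m ≤ gf (SSb false m) + gf (SSb true m) := by
    refine (gf_mono fun t ht => ?_).trans (gf_union_le (SSb false m) (SSb true m))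
    cases hb : t.length.bodd
    · exact Or.inl ⟨ht, hb⟩
    · exact Or.inr ⟨ht, hb⟩
  have h1 := odd_le m
  have h2 := even_le m
  have h3 := one_le_odd hm
  cases b
  · calc HH m ≤ gf (SSb false m) + 2 * gf (SSb false m) := h0.trans (add_le_add le_rfl h1)
      _ = 3 * gf (SSb false m) := by ring
      _ ≤ 8 * gf (SSb false m) := mul_le_mul' (by norm_num) le_rfl
  · calc HH m ≤ (1 + 2 * gf (SSb true m)) + gf (SSb true m) := h0.trans (add_le_add h2 le_rfl)
      _ ≤ (2 * gf (SSb true m) + 2 * gf (SSb true m)) + gf (SSb true m) := by gcongr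
      _ = 5 * gf (SSb true m) := by ring
      _ ≤ 8 * gf (SSb true m) := mul_le_mul' (by norm_num) le_rfl

/-- the length of a bridge is even -/
lemma Brd_even {r : ℕ} {c : List Bool} (h : c ∈ Brd r) : c.length.bodd = false := by
  have h1 := even_of_up upd (mem_Brd.1 h).2.2.1
  rw [Nat.even_iff] at h1
  rw [Nat.mod_two_of_bodd] at h1
  cases hb : c.length.bodd
  · rfl
  · rw [hb] at h1
    simp at h1

/-- the last cut -/
lemma SSb_le (b : Bool) (m : ℕ) : gf (SSb b m) ≤ ENNReal.ofReal (UU m) * gf (NAb b m) := by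
  have h1 : SSb b m ⊆ ⋃ r ∈ Finset.range (m + 1), {w | ∃ c ∈ Brd r, ∃ s ∈ NAb b m, w = c ++ s} := by
    rintro w ⟨hw, hb⟩
    obtain ⟨r, hr, c, hc, s, hs, rfl⟩ := last_cut hw m
    rw [Set.mem_iUnion₂]
    refine ⟨r, Finset.mem_range.2 (by omega), c, hc, s, ⟨⟨hs.1, fun j hj hcut => ?_⟩, ?_⟩, rfl⟩
    · obtain ⟨p, q, hp, hq, hpq⟩ := hcut
      by_cases hjm : j ≤ m - r
      · exact hs.2 j hj hjm ⟨p, q, hp, hq, hpq⟩
      · have h2 : c ++ p ∈ Brd (r + j) := Brd_append hc hp
        have h3 := Brd_height_le (c := c ++ p) (s := q) h2 (by rw [List.append_assoc, ← hpq]; exact hw)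
        omega
    · have h2 := Brd_even hc
      rw [List.length_append, Nat.bodd_add, h2] at hb
      simpa using hb
  refine (gf_mono h1).trans ((gf_bi_le _ _).trans ?_)
  calc ∑ r ∈ Finset.range (m + 1), gf {w | ∃ c ∈ Brd r, ∃ s ∈ NAb b m, w = c ++ s}
      ≤ ∑ r ∈ Finset.range (m + 1), BT r * gf (NAb b m) := by
        refine Finset.sum_le_sum fun r _ => ?_
        rw [← gf_Brd]
        exact gf_le_mul fun t ht => ht
    _ = ENNReal.ofReal (UU m) * gf (NAb b m) := by rw [← Finset.sum_mul, sum_BT]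

lemma SSt_Ext {m : ℕ} {t : List Bool} (h : t ∈ SSt m) : Ext m t :=
  ⟨0, fun i h1 h2 => by
    have := (mem_SSt.1 h).1 i h1 h2
    constructor
    · simpa using this.1
    · simpa using this.2⟩

lemma SSt_SA {m : ℕ} {t : List Bool} (h : t ∈ SSt m) : t ∈ SA :=
  ⟨fun _ _ _ => Set.mem_univ _, (mem_SSt.1 h).2⟩

/-- **half plane words without a cut, in a box** -/
theorem na_box : ∃ K : ℕ, ∀ (L m : ℕ) (b : Bool), 1 ≤ m → 5 ≤ L → K * (L + 1) * (m + 1) ≤ 2 ^ L →
    HH m ≤ ENNReal.ofReal (16 * UU m) * gf {t | t ∈ NAb b m ∧ t ∈ WL L} := by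
  obtain ⟨K, hK⟩ := lat_log (Q := 1) one_pos
  refine ⟨K, fun L m b hm hL hKL => ?_⟩
  have hU := Num2Aux.UU_pos m
  set A := gf (NAb b m) with hA
  set B := gf {t | t ∈ NAb b m ∧ t ∈ WL L} with hB
  have h1 : HH m ≤ ENNReal.ofReal (8 * UU m) * A := by
    refine (HH_le_SSb hm b).trans ?_
    rw [ENNReal.ofReal_mul (by norm_num), mul_assoc]
    have e : ENNReal.ofReal 8 = 8 := by simp
    rw [e]
    exact mul_le_mul' le_rfl (SSb_le b m)
  have h2 : A ≤ B + ENNReal.ofReal (1 / 32) := by
    have h3 : NAb b m ⊆ {t | t ∈ NAb b m ∧ t ∈ WL L} ∪ {t | t ∈ SA ∧ Ext m t ∧ t ∉ WL L} := by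
      intro t ht
      by_cases h : t ∈ WL L
      · exact Or.inl ⟨ht, h⟩
      · exact Or.inr ⟨SSt_SA ht.1.1, SSt_Ext ht.1.1, h⟩
    refine (gf_mono h3).trans ((gf_union_le _ _).trans (add_le_add le_rfl ((hK L m hKL).trans ?_)))
    apply ENNReal.ofReal_le_ofReal
    have h4 : (2 : ℝ) ^ (-(1 * (L : ℝ))) ≤ (2 : ℝ) ^ (-(5 : ℝ)) :=
      Real.rpow_le_rpow_of_exponent_le (by norm_num) (by
        have : (5 : ℝ) ≤ L := by exact_mod_cast hL
        linarith)
    refine h4.trans (le_of_eq ?_)
    rw [Real.rpow_neg (by norm_num)]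
    norm_num
  have h3 : ENNReal.ofReal (UU m) ≤ ENNReal.ofReal (8 * UU m) * A := (UU_le_HH m).trans h1
  have h4 : ENNReal.ofReal (1 / 8) ≤ A := by
    have e : ENNReal.ofReal (UU m) = ENNReal.ofReal (8 * UU m) * ENNReal.ofReal (1 / 8) := by
      rw [← ENNReal.ofReal_mul (by positivity)]
      congr 1
      ring
    rw [e] at h3
    exact (ENNReal.mul_le_mul_iff_right (by simpa using hU) ENNReal.ofReal_ne_top).1 h3
  have h5 : A ≤ 2 * B := by
    have h6 : ENNReal.ofReal (1 / 32) ≤ ENNReal.ofReal (1 / 4) * A := by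
      refine le_trans (le_of_eq ?_) (mul_le_mul' le_rfl h4)
      rw [← ENNReal.ofReal_mul (by norm_num)]
      congr 1
      norm_num
    have h7 : A ≤ B + ENNReal.ofReal (1 / 4) * A := h2.trans (add_le_add le_rfl h6)
    by_cases hAt : A = ⊤
    · have hBt : B = ⊤ := by
        by_contra hne
        rw [hAt] at h2
        exact (ENNReal.add_ne_top.2 ⟨hne, ENNReal.ofReal_ne_top⟩) (top_le_iff.1 h2)
      rw [hBt]
      simp
    · have h8 : ENNReal.ofReal (1 / 2) * A ≤ B := by
        have e : A = ENNReal.ofReal (3 / 4) * A + ENNReal.ofReal (1 / 4) * A := by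
          rw [← add_mul, ← ENNReal.ofReal_add (by norm_num) (by norm_num)]
          norm_num
        have h9 : ENNReal.ofReal (3 / 4) * A ≤ B := by
          refine (ENNReal.add_le_add_iff_right (a := ENNReal.ofReal (1 / 4) * A)
            (ENNReal.mul_ne_top ENNReal.ofReal_ne_top hAt)).1 ?_
          rw [← e]
          exact h7
        refine le_trans (mul_le_mul' (ENNReal.ofReal_le_ofReal (by norm_num)) le_rfl) h9
      calc A = 2 * (ENNReal.ofReal (1 / 2) * A) := by
            rw [← mul_assoc]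
            have e : (2 : ℝ≥0∞) = ENNReal.ofReal 2 := by simp
            rw [e, ← ENNReal.ofReal_mul (by norm_num)]
            norm_num
        _ ≤ 2 * B := mul_le_mul' le_rfl h8
  calc HH m ≤ ENNReal.ofReal (8 * UU m) * A := h1
    _ ≤ ENNReal.ofReal (8 * UU m) * (2 * B) := mul_le_mul' le_rfl h5
    _ = ENNReal.ofReal (16 * UU m) * B := by
        rw [← mul_assoc]
        congr 1
        have e : (2 : ℝ≥0∞) = ENNReal.ofReal 2 := by simp
        rw [e, ← ENNReal.ofReal_mul (by positivity)]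
        congr 1
        ring

end TPF

end HexObs
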