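import Pool.Agent.TPF.Glue
import Pool.Agent.RSWP.LocalT
import Pool.Agent.GLow.Alpha
import Pool.Agent.BAR.Glue

/-!
# TPF (two-point function of the plane): the lower bound for the words (helper29)

* **`low_gf`**: `c D ^ (- 5 / 24 - ε) ≤ ∑ g ∈ Rot3, gf (SE (g q))` for the points `q` of the lattice of level
  `D = ip q up ≥ D0` with `|q.1| ≤ D`.
-/

set_option autoImplicit false

namespace HexObs

namespace TPF

open Complex Finset ENNReal BAR SDN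

/-! ### 1. The end vertices -/

lemma pt_of {P Q : Pt} (h1 : P.1 = Q.1) (h2 : ip P up = ip Q up) : P = Q := by
  obtain ⟨a, b⟩ := P
  obtain ⟨c, d⟩ := Q
  simp only [ip, up] at h1 h2
  ext
  · exact h1
  · simp only
    omega

lemma EndB_ZB {h : ℕ} {P : Pt} (hP : ip P up = 3 * (h : ℤ)) : RP.EndB h P.1 ⊆ ZB P := by
  rintro z ⟨hz, hl⟩
  refine ⟨⟨h, hz⟩, pt_of ?_ ?_⟩
  · rw [← hl]
    unfold latE lat ev cross up
    simp
  · have h1 := (mem_Brd.1 hz).2.2.2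
    unfold lev at h1
    unfold ev
    rw [h1, hP]

lemma ev_box {L : ℕ} {t : List Bool} (ht : t ∈ WL L) : |ip (ev t) up| ≤ 3 * 2 ^ L + 2 ∧ |(ev t).1| ≤ 3 * 2 ^ L + 2 := by
  have h1 := ht.2 t.length le_rfl false
  have h2 := ht.2 t.length le_rfl true
  unfold ev
  generalize vx oo up t t.length = v at h1 h2
  obtain ⟨a, b⟩ := v
  simp only [row, lvl, hd, ip, up] at h1 h2 ⊢
  simp only [Bool.false_eq_true, if_false, if_true] at h1 h2
  generalize (2 : ℤ) ^ L = N at h1 h2 ⊢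
  rw [abs_le] at h1 h2
  constructor
  · rw [abs_le]
    constructor <;> omega
  · rw [abs_le]
    constructor <;> omega

lemma ev_lev_odd {t : List Bool} (h : t.length.bodd = true) : (3 : ℤ) ∣ ip (ev t) up - 2 := by
  have h1 := lev_mod t t.length
  rw [if_neg] at h1
  · exact h1
  · rw [Nat.even_iff, Nat.mod_two_of_bodd, h]
    decide

lemma ev_lev_even {t : List Bool} (h : t.length.bodd = false) : (3 : ℤ) ∣ ip (ev t) up := by
  have h1 := lev_mod t t.length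
  rw [if_pos, sub_zero] at h1
  · exact h1
  · rw [Nat.even_iff, Nat.mod_two_of_bodd, h]
    rfl

lemma ev_nonneg {m : ℕ} {t : List Bool} (h : t ∈ SSt m) : 0 ≤ ip (ev t) up := by
  rcases Nat.eq_zero_or_pos t.length with h0 | h0
  · unfold ev
    rw [h0]
    have : ip (vx oo up t 0) up = lev t 0 := rfl
    rw [this, lev_zero]
  · exact ((mem_SSt.1 h).1 t.length h0 le_rfl).1.le

/-! ### 2. One height -/

/-- the local lower bound for the displacement -/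
theorem delta {c1 : ℝ} {t0 : ℕ} (hloc : ∀ (t : ℕ) (x : ℤ), t0 ≤ t → Even (x - t) → |x| ≤ (4 : ℕ) * t →
      ENNReal.ofReal (c1 * (uu t / t)) ≤ gf (RP.EndB t x)) (hc1 : 0 < c1)
    {L m D : ℕ} {q : Pt} {b : Bool} (hD : ip q up = D) (hq : |q.1| ≤ D) (hb : (3 : ℤ) ∣ ip q up - (if b then 2 else 0))
    (hLD : 200 * 2 ^ L ≤ D) (hDt : 200 + 4 * t0 ≤ D) {s v : List Bool}
    (hs : s ∈ {t | t ∈ NAb true m ∧ t ∈ WL L}) (hv : v ∈ {t | t ∈ NAb b m ∧ t ∈ WL L}) :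
    ENNReal.ofReal (c1 * (uu D / D)) ≤ gf (ZB (q + up - ev s - ev v)) := by
  obtain ⟨⟨s1, s2⟩, s3⟩ := hs
  obtain ⟨⟨v1, v2⟩, v3⟩ := hv
  have hsb := ev_box s3
  have hvb := ev_box v3
  have hsn := ev_nonneg s1.1
  have hvn := ev_nonneg v1.1
  have hsm := ev_lev_odd s2
  have hvm : (3 : ℤ) ∣ ip (ev v) up - (if b then 2 else 0) := by
    cases b
    · simpa using ev_lev_even v2
    · simpa using ev_lev_odd v2
  obtain ⟨P, hP⟩ : ∃ P, P = q + up - ev s - ev v := ⟨_, rfl⟩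
  rw [← hP]
  have e1 : ip P up = ip q up + 2 - ip (ev s) up - ip (ev v) up := by
    rw [hP, ip_sub_left, ip_sub_left, ip_add_left]
    rfl
  have e2 : P.1 = q.1 - (ev s).1 - (ev v).1 := by
    rw [hP]
    simp [up]
  have e3 : ip P up = P.1 + 2 * P.2 := by
    simp only [ip, up]
    ring
  have hN : (200 : ℤ) * 2 ^ L ≤ D := by exact_mod_cast hLD
  have hDt' : (200 : ℤ) + 4 * t0 ≤ D := by exact_mod_cast hDt
  rw [abs_le] at hsb hvb hq
  rw [abs_le] at hsb hvb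
  obtain ⟨⟨a1, a2⟩, ⟨a3, a4⟩⟩ := hsb
  obtain ⟨⟨b1, b2⟩, ⟨b3, b4⟩⟩ := hvb
  generalize (2 : ℤ) ^ L = N at hN a1 a2 a3 a4 b1 b2 b3 b4
  have hdv : (3 : ℤ) ∣ ip P up := by
    rw [e1]
    have : ip q up + 2 - ip (ev s) up - ip (ev v) up =
      (ip q up - (if b then 2 else 0)) - (ip (ev s) up - 2) - (ip (ev v) up - (if b then 2 else 0)) := by ring
    rw [this]
    exact dvd_sub (dvd_sub hb hsm) hvm
  obtain ⟨hz, hhz⟩ := hdv
  have hz0 : 0 ≤ hz := by omega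
  obtain ⟨h, rfl⟩ : ∃ h : ℕ, hz = h := ⟨hz.toNat, by omega⟩
  have hlow : t0 ≤ h := by omega
  have hle : h ≤ D := by omega
  have hpos : 1 ≤ h := by omega
  refine le_trans ?_ ((hloc h P.1 hlow ?_ ?_).trans (gf_mono (EndB_ZB hhz)))
  · apply ENNReal.ofReal_le_ofReal
    apply mul_le_mul_of_nonneg_left _ hc1.le
    have h1 : uu D ≤ uu h := uu_anti hle
    have h2 : (0 : ℝ) < h := by exact_mod_cast hpos
    have h3 : (h : ℝ) ≤ D := by exact_mod_cast hle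
    have h4 := Num2Aux.nonneg h
    exact div_le_div₀ h4 h1 h2 h3
  · rw [Int.even_iff]
    omega
  · rw [abs_le]
    push_cast
    constructor <;> omega

/-! ### 3. Numbers -/

/-- choice of the scales -/
theorem scales (K : ℕ) {s : ℝ} (hs : 0 < s) (hs1 : s < 1) : ∃ D0 : ℕ, ∀ D : ℕ, D0 ≤ D → ∃ L m : ℕ, 1 ≤ m ∧ 5 ≤ L ∧
    K * (L + 1) * (m + 1) ≤ 2 ^ L ∧ 200 * 2 ^ L ≤ D ∧ (D : ℝ) ^ (1 - s) ≤ m ∧ m ≤ D := by
  have hl2 : 0 < Real.log 2 := Real.log_pos (by norm_num)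
  obtain ⟨C1, hC1⟩ : ∃ C1, C1 = 1 + 1 / (s / 2 * Real.log 2) := ⟨_, rfl⟩
  have hC10 : 0 < C1 := by rw [hC1]; positivity
  obtain ⟨T, hT⟩ : ∃ T : ℝ, T = (1200 * ((K : ℝ) + 1) * C1) ^ (2 / s) := ⟨_, rfl⟩
  have hT0 : 0 < T := by rw [hT]; positivity
  refine ⟨6400 + ⌈T⌉₊ + ⌈(2 : ℝ) ^ (1 / s)⌉₊, fun D hD => ?_⟩
  have hD1 : 6400 ≤ D := by omega
  have hDT : T ≤ D := (Nat.le_ceil T).trans (by exact_mod_cast (by omega : ⌈T⌉₊ ≤ D))
  have hD2 : (2 : ℝ) ^ (1 / s) ≤ D := (Nat.le_ceil _).trans (by exact_mod_cast (by omega : ⌈(2 : ℝ) ^ (1 / s)⌉₊ ≤ D))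
  have hDR : (6400 : ℝ) ≤ D := by exact_mod_cast hD1
  have hDp : (0 : ℝ) < D := by linarith
  have hDone : (1 : ℝ) ≤ D := by linarith
  obtain ⟨L, hL⟩ : ∃ L, L = Nat.log 2 (D / 200) := ⟨_, rfl⟩
  have hne : D / 200 ≠ 0 := by omega
  have h1 : 2 ^ L ≤ D / 200 := by
    rw [hL]
    exact Nat.pow_log_le_self 2 hne
  have h2 : D / 200 < 2 ^ (L + 1) := by
    rw [hL]
    exact Nat.lt_pow_succ_log_self (by norm_num) _
  have h5 : 5 ≤ L := by
    by_contra hc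
    have : 2 ^ (L + 1) ≤ 2 ^ 5 := Nat.pow_le_pow_right (by norm_num) (by omega)
    have : 32 ≤ D / 200 := by omega
    omega
  have hLD : 200 * 2 ^ L ≤ D := by omega
  have hpow : (1 : ℝ) ≤ (D : ℝ) ^ (1 - s) := Real.one_le_rpow hDone (by linarith)
  refine ⟨L, ⌈(D : ℝ) ^ (1 - s)⌉₊, ?_, h5, ?_, hLD, Nat.le_ceil _, ?_⟩
  · exact Nat.one_le_ceil_iff.2 (by linarith)
  · -- K (L + 1) (m + 1) <= 2 ^ L
    have h6 : ((⌈(D : ℝ) ^ (1 - s)⌉₊ : ℕ) : ℝ) + 1 ≤ 3 * (D : ℝ) ^ (1 - s) := by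
      have := Nat.ceil_lt_add_one (a := (D : ℝ) ^ (1 - s)) (by linarith)
      linarith
    have h7 : (L : ℝ) + 1 ≤ C1 * (D : ℝ) ^ (s / 2) := by
      have e1 : (L : ℝ) ≤ Real.log D / Real.log 2 := by
        have h8 : (2 : ℝ) ^ L ≤ D := by
          have : 2 ^ L ≤ D := by omega
          exact_mod_cast this
        rw [le_div_iff₀ hl2, ← Real.log_pow]
        exact Real.log_le_log (by positivity) h8
      have e2 : Real.log D ≤ (D : ℝ) ^ (s / 2) / (s / 2) := Real.log_le_rpow_div hDp.le (by positivity)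
      have e3 : (1 : ℝ) ≤ (D : ℝ) ^ (s / 2) := Real.one_le_rpow hDone (by positivity)
      have e4 : Real.log D / Real.log 2 ≤ (D : ℝ) ^ (s / 2) / (s / 2) / Real.log 2 := by gcongr
      have e5 : C1 * (D : ℝ) ^ (s / 2) = (D : ℝ) ^ (s / 2) + (D : ℝ) ^ (s / 2) / (s / 2) / Real.log 2 := by
        rw [hC1]
        field_simp
      rw [e5]
      linarith
    have h8 : (D : ℝ) < 400 * 2 ^ L := by
      have : D < 400 * 2 ^ L := by
        rw [pow_succ] at h2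
        omega
      exact_mod_cast this
    have h9 : 1200 * ((K : ℝ) + 1) * C1 ≤ (D : ℝ) ^ (s / 2) := by
      have e1 : T ^ (s / 2) ≤ (D : ℝ) ^ (s / 2) := Real.rpow_le_rpow hT0.le hDT (by positivity)
      rw [hT, ← Real.rpow_mul (by positivity)] at e1
      have e2 : 2 / s * (s / 2) = 1 := by field_simp
      rwa [e2, Real.rpow_one] at e1
    have h10 : (K : ℝ) * (L + 1) * ((⌈(D : ℝ) ^ (1 - s)⌉₊ : ℕ) + 1) ≤ 2 ^ L := by
      have hA : 0 < (D : ℝ) ^ (s / 2) := by positivity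
      have e1 : (D : ℝ) ^ (s / 2) * (D : ℝ) ^ (s / 2) * (D : ℝ) ^ (1 - s) = D := by
        rw [← Real.rpow_add hDp, ← Real.rpow_add hDp]
        have : s / 2 + s / 2 + (1 - s) = 1 := by ring
        rw [this, Real.rpow_one]
      have e2 : 1200 * ((K : ℝ) * ((L + 1) * ((⌈(D : ℝ) ^ (1 - s)⌉₊ : ℕ) + 1))) ≤ 3 * D := by
        calc 1200 * ((K : ℝ) * ((L + 1) * ((⌈(D : ℝ) ^ (1 - s)⌉₊ : ℕ) + 1)))
            ≤ 1200 * (((K : ℝ) + 1) * ((C1 * (D : ℝ) ^ (s / 2)) * (3 * (D : ℝ) ^ (1 - s)))) := by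
              gcongr
              linarith
          _ = (1200 * ((K : ℝ) + 1) * C1) * (3 * ((D : ℝ) ^ (s / 2) * (D : ℝ) ^ (1 - s))) := by ring
          _ ≤ (D : ℝ) ^ (s / 2) * (3 * ((D : ℝ) ^ (s / 2) * (D : ℝ) ^ (1 - s))) := by gcongr
          _ = 3 * ((D : ℝ) ^ (s / 2) * (D : ℝ) ^ (s / 2) * (D : ℝ) ^ (1 - s)) := by ring
          _ = 3 * D := by rw [e1]
      have e3 : (K : ℝ) * (L + 1) * ((⌈(D : ℝ) ^ (1 - s)⌉₊ : ℕ) + 1) =
        (K : ℝ) * ((L + 1) * ((⌈(D : ℝ) ^ (1 - s)⌉₊ : ℕ) + 1)) := by ring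
      rw [e3]
      linarith
    exact_mod_cast h10
  · -- m <= D
    have h6 : (D : ℝ) ^ (1 - s) ≤ D / 2 := by
      have e1 : (D : ℝ) ^ (1 - s) = D / (D : ℝ) ^ s := by rw [Real.rpow_sub hDp, Real.rpow_one]
      have e2 : (2 : ℝ) ≤ (D : ℝ) ^ s := by
        have := Real.rpow_le_rpow (by positivity) hD2 hs.le
        rw [← Real.rpow_mul (by norm_num), one_div_mul_cancel hs.ne', Real.rpow_one] at this
        exact this
      rw [e1]
      exact div_le_div_of_nonneg_left hDp.le (by norm_num) e2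
    have h7 := Nat.ceil_lt_add_one (a := (D : ℝ) ^ (1 - s)) (by linarith)
    have h8 : ((⌈(D : ℝ) ^ (1 - s)⌉₊ : ℕ) : ℝ) ≤ D := by linarith
    exact_mod_cast h8

/-- **the lower bound** -/
theorem low_gf (hL : HLow (61 / 48)) {ε : ℝ} (hε : 0 < ε) : ∃ (c : ℝ) (D0 : ℕ), 0 < c ∧ ∀ (q : Pt) (D : ℕ) (b : Bool),
    D0 ≤ D → ip q up = D → |q.1| ≤ D → (3 : ℤ) ∣ ip q up - (if b then 2 else 0) →
    ENNReal.ofReal (c * (D : ℝ) ^ (-(5 / 24) - ε)) ≤ ∑ g ∈ Rot3, gf (SE (mulE g q)) := by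
  obtain ⟨s, hsd⟩ : ∃ s : ℝ, s = min (ε / 4) (1 / 2) := ⟨_, rfl⟩
  have hs : 0 < s := by rw [hsd]; exact lt_min (by positivity) (by norm_num)
  have hs1 : s < 1 := lt_of_le_of_lt (hsd ▸ min_le_right _ _) (by norm_num)
  have hsε : s ≤ ε / 4 := hsd ▸ min_le_left _ _
  have hs12 : s ≤ 1 / 2 := hsd ▸ min_le_right _ _
  obtain ⟨c1, t0, hc1, hloc⟩ := RP.localTube 4 (η := 1) one_pos
  have hloc' : ∀ (t : ℕ) (x : ℤ), t0 ≤ t → Even (x - t) → |x| ≤ (4 : ℕ) * t →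
      ENNReal.ofReal (c1 * (uu t / t)) ≤ gf (RP.EndB t x) := fun t x h1 h2 h3 =>
    (hloc t x h1 h2 h3).trans (gf_mono fun b hb => hb.1)
  obtain ⟨c2, hc2, hHH⟩ := hL s hs
  obtain ⟨C3, hC3, hUU⟩ := GLow.UU_up
  obtain ⟨c4, hc4, huu⟩ := GLow.uu_low
  obtain ⟨K, hK⟩ := na_box
  obtain ⟨D1, hD1⟩ := scales K hs hs1
  have hxc := xc_pos
  refine ⟨(2 * xc)⁻¹ * (c2 / (16 * C3)) ^ 2 * (c1 * c4), max D1 (200 + 4 * t0), by positivity,
    fun q D b hD hq1 hq2 hb => ?_⟩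
  obtain ⟨L, m, hm, h5, hKL, hLD, hmD, hmD2⟩ := hD1 D ((le_max_left _ _).trans hD)
  have hDt : 200 + 4 * t0 ≤ D := (le_max_right _ _).trans hD
  have hDone : (1 : ℝ) ≤ D := by
    have : 1 ≤ D := by omega
    exact_mod_cast this
  have hDp : (0 : ℝ) < D := by linarith
  have hmone : (1 : ℝ) ≤ m := by exact_mod_cast hm
  have hmp : (0 : ℝ) < m := by linarith
  -- the mass of the half plane words
  have hmass : ∀ b : Bool, ENNReal.ofReal (c2 / (16 * C3) * (m : ℝ) ^ (25 / 48 - s)) ≤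
      gf {t | t ∈ NAb b m ∧ t ∈ WL L} := by
    intro b
    have h1 := hK L m b hm h5 hKL
    have h2 := (hHH m hm).trans h1
    have hU := Num2Aux.UU_pos m
    have h3 : ENNReal.ofReal (16 * UU m) * ENNReal.ofReal (c2 / (16 * C3) * (m : ℝ) ^ (25 / 48 - s)) ≤
        ENNReal.ofReal (16 * UU m) * gf {t | t ∈ NAb b m ∧ t ∈ WL L} := by
      refine le_trans ?_ h2
      rw [← ENNReal.ofReal_mul (by positivity)]
      apply ENNReal.ofReal_le_ofReal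
      have h4 := hUU m hm
      have e1 : (m : ℝ) ^ (61 / 48 - s : ℝ) = (m : ℝ) ^ (3 / 4 : ℝ) * (m : ℝ) ^ (25 / 48 - s) := by
        rw [← Real.rpow_add hmp]
        congr 1
        ring
      calc 16 * UU m * (c2 / (16 * C3) * (m : ℝ) ^ (25 / 48 - s))
          ≤ 16 * (C3 * (m : ℝ) ^ (3 / 4 : ℝ)) * (c2 / (16 * C3) * (m : ℝ) ^ (25 / 48 - s)) := by gcongr
        _ = c2 * ((m : ℝ) ^ (3 / 4 : ℝ) * (m : ℝ) ^ (25 / 48 - s)) := by field_simp
        _ = c2 * (m : ℝ) ^ (61 / 48 - s : ℝ) := by rw [e1]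
        _ ≤ _ := le_rfl
    exact (ENNReal.mul_le_mul_iff_right (by
      have : 0 < 16 * UU m := by positivity
      simpa using this) ENNReal.ofReal_ne_top).1 h3
  have hmain := low_sum (m := m) q (A := {t | t ∈ NAb true m ∧ t ∈ WL L}) (B := {t | t ∈ NAb b m ∧ t ∈ WL L})
    (fun s hs => hs.1) (fun v hv => hv.1.1) (δ := ENNReal.ofReal (c1 * (uu D / D)))
    (fun s hs v hv => delta hloc' hc1 hq1 hq2 hb hLD hDt hs hv)
  have h6 : ENNReal.ofReal (2 * xc) * ENNReal.ofReal ((2 * xc)⁻¹ * (c2 / (16 * C3)) ^ 2 * (c1 * c4) *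
      (D : ℝ) ^ (-(5 / 24) - ε)) ≤ ENNReal.ofReal (2 * xc) * ∑ g ∈ Rot3, gf (SE (mulE g q)) := by
    refine le_trans ?_ hmain
    refine le_trans ?_ (mul_le_mul' (mul_le_mul' (hmass true) (hmass b)) le_rfl)
    rw [← ENNReal.ofReal_mul (by positivity), ← ENNReal.ofReal_mul (by positivity),
      ← ENNReal.ofReal_mul (by positivity)]
    apply ENNReal.ofReal_le_ofReal
    have e1 : c4 * (D : ℝ) ^ (-(5 / 4) : ℝ) ≤ uu D / D := by
      rw [le_div_iff₀ hDp]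
      have := huu D (by omega)
      have e2 : c4 * (D : ℝ) ^ (-(5 / 4) : ℝ) * D = c4 * (D : ℝ) ^ (-(1 / 4) : ℝ) := by
        nth_rewrite 2 [← Real.rpow_one (D : ℝ)]
        rw [mul_assoc, ← Real.rpow_add hDp]
        norm_num
      rw [e2]
      exact this
    have e3 : (D : ℝ) ^ ((1 - s) * (25 / 48 - s)) ≤ (m : ℝ) ^ (25 / 48 - s) := by
      rw [Real.rpow_mul hDp.le]
      exact Real.rpow_le_rpow (by positivity) hmD (by linarith)
    have e4 : (D : ℝ) ^ (-(5 / 24) - ε) ≤ (D : ℝ) ^ ((1 - s) * (25 / 48 - s)) *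
        (D : ℝ) ^ ((1 - s) * (25 / 48 - s)) * (D : ℝ) ^ (-(5 / 4) : ℝ) := by
      rw [← Real.rpow_add hDp, ← Real.rpow_add hDp]
      apply Real.rpow_le_rpow_of_exponent_le hDone
      nlinarith [sq_nonneg s]
    calc 2 * xc * ((2 * xc)⁻¹ * (c2 / (16 * C3)) ^ 2 * (c1 * c4) * (D : ℝ) ^ (-(5 / 24) - ε))
        = (c2 / (16 * C3)) ^ 2 * (c1 * c4) * (D : ℝ) ^ (-(5 / 24) - ε) := by
          field_simp
      _ ≤ (c2 / (16 * C3)) ^ 2 * (c1 * c4) * ((D : ℝ) ^ ((1 - s) * (25 / 48 - s)) *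
          (D : ℝ) ^ ((1 - s) * (25 / 48 - s)) * (D : ℝ) ^ (-(5 / 4) : ℝ)) :=
          mul_le_mul_of_nonneg_left e4 (by positivity)
      _ = (c2 / (16 * C3) * (D : ℝ) ^ ((1 - s) * (25 / 48 - s))) *
          (c2 / (16 * C3) * (D : ℝ) ^ ((1 - s) * (25 / 48 - s))) * (c1 * (c4 * (D : ℝ) ^ (-(5 / 4) : ℝ))) := by ring
      _ ≤ (c2 / (16 * C3) * (m : ℝ) ^ (25 / 48 - s)) * (c2 / (16 * C3) * (m : ℝ) ^ (25 / 48 - s)) *
          (c1 * (uu D / D)) := by gcongr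
  exact (ENNReal.mul_le_mul_iff_right (by
    have : 0 < 2 * xc := by positivity
    simpa using this) ENNReal.ofReal_ne_top).1 h6

end TPF

end HexObs
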