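import Pool.Agent.JNT.ExSaw

/-!
# TPF, near the critical point: self-avoiding walks with a given end (helper29)

* `exists_len` : a vertex `z ≠ 0` is the end of a walk (with or without self-intersections) with `n` steps for every
  `n ≥ 2 ‖z‖` of the right parity;
* `exists_short` : every vertex `z ≠ 0` is the end of a self-avoiding walk with at most `2 ‖z‖` steps.
-/

set_option autoImplicit false

open scoped Classical

namespace NTSZ

namespace NC

open NTSZ.ExS

open Pool.Agent.NTS.Res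

/-- the position of a sequence of directions -/
noncomputable def pg (g : ℕ → Fin 3) (k : ℕ) : ℂ := ∑ i ∈ Finset.range k, step i (g i)

lemma pos_pg (g : ℕ → Fin 3) {n : ℕ} (k : ℕ) (hk : k ≤ n) : pos (fun i : Fin n => g i) k = pg g k := by
  induction k with
  | zero =>
    unfold pos pg
    rw [Finset.range_zero, Finset.sum_empty]
    apply Finset.sum_eq_zero
    intro i hi
    rw [Finset.mem_filter] at hi
    exact absurd hi.2 (Nat.not_lt_zero _)
  | succ k ih =>
    rw [NTSF.pos_succ _ k (by omega), ih (by omega)]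
    unfold pg
    rw [Finset.sum_range_succ]

lemma pg_update (g : ℕ → Fin 3) (a : Fin 3) (n : ℕ) : pg (fun i => if i = n then a else g i) (n + 1) =
    pg g n + step n a := by
  unfold pg
  have h1 : step n ((fun i => if i = n then a else g i) n) = step n a := by simp
  rw [Finset.sum_range_succ, h1]
  congr 1
  refine Finset.sum_congr rfl fun i hi => ?_
  rw [Finset.mem_range] at hi
  beta_reduce
  rw [if_neg (by omega)]

/-- the walk with given numbers of letters -/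
lemma walk_letters (n : ℕ) : ∀ u v w : ℤ, u + v + w = (n : ℤ) % 2 → |u| + |v| + |w| ≤ n →
    ∃ g : ℕ → Fin 3, pg g n = (u : ℂ) * ee 0 + (v : ℂ) * ee 1 + (w : ℂ) * ee 2 := by
  induction n with
  | zero =>
    intro u v w _ h
    have hu : u = 0 := by
      have := abs_nonneg v
      have := abs_nonneg w
      have := abs_nonneg u
      have h1 : |u| = 0 := by
        push_cast at h
        linarith
      exact abs_eq_zero.1 h1
    have hv : v = 0 := by
      have := abs_nonneg v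
      have := abs_nonneg w
      have := abs_nonneg u
      have h1 : |v| = 0 := by
        push_cast at h
        linarith
      exact abs_eq_zero.1 h1
    have hw : w = 0 := by
      have := abs_nonneg v
      have := abs_nonneg w
      have := abs_nonneg u
      have h1 : |w| = 0 := by
        push_cast at h
        linarith
      exact abs_eq_zero.1 h1
    subst hu hv hw
    exact ⟨fun _ => 0, by simp [pg]⟩
  | succ n ih =>
    intro u v w hs hl
    have hl' : |u| + |v| + |w| ≤ n + 1 := by exact_mod_cast hl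
    have au := abs_cases u
    have av := abs_cases v
    have aw := abs_cases w
    rcases Nat.even_or_odd' n with ⟨m, hm | hm⟩
    · have e1 : ((n + 1 : ℕ) : ℤ) % 2 = 1 := by omega
      have e2 : (n : ℤ) % 2 = 0 := by omega
      have e4 : (-1 : ℂ) ^ n = 1 := by
        rw [hm, pow_mul]
        norm_num
      rw [e1] at hs
      rw [e2] at ih
      have hc : 1 ≤ u ∨ 1 ≤ v ∨ 1 ≤ w := by omega
      rcases hc with h1 | h1 | h1
      · obtain ⟨g, hg⟩ := ih (u - 1) v w (by omega) (by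
          rw [abs_of_nonneg (by omega : (0 : ℤ) ≤ u - 1)]
          omega)
        refine ⟨_, (pg_update g 0 n).trans ?_⟩
        rw [hg, step_ee, e4]
        push_cast
        ring
      · obtain ⟨g, hg⟩ := ih u (v - 1) w (by omega) (by
          rw [abs_of_nonneg (by omega : (0 : ℤ) ≤ v - 1)]
          omega)
        refine ⟨_, (pg_update g 1 n).trans ?_⟩
        rw [hg, step_ee, e4]
        push_cast
        ring
      · obtain ⟨g, hg⟩ := ih u v (w - 1) (by omega) (by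
          rw [abs_of_nonneg (by omega : (0 : ℤ) ≤ w - 1)]
          omega)
        refine ⟨_, (pg_update g 2 n).trans ?_⟩
        rw [hg, step_ee, e4]
        push_cast
        ring
    · have e1 : ((n + 1 : ℕ) : ℤ) % 2 = 0 := by omega
      have e2 : (n : ℤ) % 2 = 1 := by omega
      have e4 : (-1 : ℂ) ^ n = -1 := by
        rw [hm, pow_succ, pow_mul]
        norm_num
      rw [e1] at hs
      rw [e2] at ih
      have hc : u ≤ -1 ∨ v ≤ -1 ∨ w ≤ -1 ∨ (u = 0 ∧ v = 0 ∧ w = 0) := by omega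
      rcases hc with h1 | h1 | h1 | ⟨h1, h2, h3⟩
      · obtain ⟨g, hg⟩ := ih (u + 1) v w (by omega) (by
          rw [abs_of_nonpos (by omega : u + 1 ≤ 0)]
          omega)
        refine ⟨_, (pg_update g 0 n).trans ?_⟩
        rw [hg, step_ee, e4]
        push_cast
        ring
      · obtain ⟨g, hg⟩ := ih u (v + 1) w (by omega) (by
          rw [abs_of_nonpos (by omega : v + 1 ≤ 0)]
          omega)
        refine ⟨_, (pg_update g 1 n).trans ?_⟩
        rw [hg, step_ee, e4]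
        push_cast
        ring
      · obtain ⟨g, hg⟩ := ih u v (w + 1) (by omega) (by
          rw [abs_of_nonpos (by omega : w + 1 ≤ 0)]
          omega)
        refine ⟨_, (pg_update g 2 n).trans ?_⟩
        rw [hg, step_ee, e4]
        push_cast
        ring
      · subst h1 h2 h3
        obtain ⟨g, hg⟩ := ih 1 0 0 (by omega) (by
          simp
          omega)
        refine ⟨_, (pg_update g 0 n).trans ?_⟩
        rw [hg, step_ee, e4]
        push_cast
        ring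

/-- the walk as a function on `Fin n` -/
lemma walk_fin {n : ℕ} {u v w : ℤ} (hs : u + v + w = (n : ℤ) % 2) (hl : |u| + |v| + |w| ≤ n) :
    ∃ s : Fin n → Fin 3, pos s n = (u : ℂ) * ee 0 + (v : ℂ) * ee 1 + (w : ℂ) * ee 2 := by
  obtain ⟨g, hg⟩ := walk_letters n u v w hs hl
  exact ⟨fun i => g i, (pos_pg g n le_rfl).trans hg⟩

/-- the norm and the number of letters -/
lemma letters_norm {u v w σ : ℤ} (hs : u + v + w = σ) (h0 : 0 ≤ σ) (h1 : σ ≤ 1)
    (hz : (u : ℂ) * ee 0 + (v : ℂ) * ee 1 + (w : ℂ) * ee 2 ≠ 0) :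
    1 ≤ ‖(u : ℂ) * ee 0 + (v : ℂ) * ee 1 + (w : ℂ) * ee 2‖ ∧
      ((|u| + |v| + |w| : ℤ) : ℝ) ≤ 2 * ‖(u : ℂ) * ee 0 + (v : ℂ) * ee 1 + (w : ℂ) * ee 2‖ := by
  obtain ⟨R, hR⟩ : ∃ R, R = ‖(u : ℂ) * ee 0 + (v : ℂ) * ee 1 + (w : ℂ) * ee 2‖ := ⟨_, rfl⟩
  have h2 := nsq_letters u v w
  rw [← hR] at h2
  have hR0 : 0 < R := by rw [hR]; exact norm_pos_iff.2 hz
  rw [← hR]
  have h3 : 1 ≤ R ^ 2 := by
    rw [h2]
    have h4 : (0 : ℝ) < (u : ℝ) ^ 2 + (v : ℝ) ^ 2 + (w : ℝ) ^ 2 - u * v - v * w - u * w := by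
      rw [← h2]
      positivity
    have h5 : (0 : ℤ) < u ^ 2 + v ^ 2 + w ^ 2 - u * v - v * w - u * w := by exact_mod_cast h4
    have h6 : (1 : ℤ) ≤ u ^ 2 + v ^ 2 + w ^ 2 - u * v - v * w - u * w := h5
    exact_mod_cast h6
  have h4 : 1 ≤ R := by nlinarith
  refine ⟨h4, ?_⟩
  have h5 : ((|u| + |v| + |w| : ℤ) : ℝ) ^ 2 ≤ (2 * R) ^ 2 := by
    have e1 : ((u : ℝ) + v + w) ^ 2 ≤ 1 := by
      have : ((u : ℝ) + v + w) = (σ : ℝ) := by exact_mod_cast hs
      rw [this]
      have a1 : (0 : ℝ) ≤ σ := by exact_mod_cast h0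
      have a2 : (σ : ℝ) ≤ 1 := by exact_mod_cast h1
      nlinarith
    push_cast
    have e2 : (|(u : ℝ)| + |(v : ℝ)| + |(w : ℝ)|) ^ 2 ≤ 3 * ((u : ℝ) ^ 2 + (v : ℝ) ^ 2 + (w : ℝ) ^ 2) := by
      have b1 := sq_abs (u : ℝ)
      have b2 := sq_abs (v : ℝ)
      have b3 := sq_abs (w : ℝ)
      nlinarith [sq_nonneg (|(u : ℝ)| - |(v : ℝ)|), sq_nonneg (|(v : ℝ)| - |(w : ℝ)|), sq_nonneg (|(u : ℝ)| - |(w : ℝ)|)]
    nlinarith
  exact (abs_le_of_sq_le_sq' h5 (by positivity)).2

/-- the walk of three steps to the opposite corner -/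
lemma three_saw {a b c : Fin 3} (h : Dif a b c) : ∃ s ∈ saw 3, pos s 3 = ee a + ee b - ee c := by
  obtain ⟨f, hf⟩ : ∃ f : ℕ → ℤ × ℤ, f = fun i => if i = 0 then ((0, 0) : ℤ × ℤ) else if i = 1 then (1, 0) else
    if i = 2 then (1, -1) else (0, -1) := ⟨_, rfl⟩
  have f0 : f 0 = (0, 0) := by rw [hf]; rfl
  have f1 : f 1 = (1, 0) := by rw [hf]; rfl
  have f2 : f 2 = (1, -1) := by rw [hf]; rfl
  have f3 : f 3 = (0, -1) := by rw [hf]; rfl
  obtain ⟨s, hs⟩ := word_of_path h (n := 3) f f0 (by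
    intro i hi
    have h3 : i = 0 ∨ i = 1 ∨ i = 2 := by omega
    unfold Adj
    rcases h3 with h3 | h3 | h3
    · subst h3
      rw [f0, f1]
      left
      simp
    · subst h3
      rw [f1, f2]
      right
      simp
    · subst h3
      rw [f2, f3]
      left
      simp)
  refine ⟨s, ?_, ?_⟩
  · rw [saw, Finset.mem_filter]
    refine ⟨Finset.mem_univ _, ?_⟩
    intro j k hj hk he
    rw [hs j hj, hs k hk] at he
    have h1 := J_inj h (by omega) (by omega) (by omega) (by omega) he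
    have hj' : j = 0 ∨ j = 1 ∨ j = 2 ∨ j = 3 := by omega
    have hk' : k = 0 ∨ k = 1 ∨ k = 2 ∨ k = 3 := by omega
    rcases hj' with hj' | hj' | hj' | hj' <;> rcases hk' with hk' | hk' | hk' | hk' <;> subst hj' hk' <;>
      simp_all
  · rw [hs 3 le_rfl, f3]
    have h1 := J_word h (A := 1) (B := 1) (C := -1) (σ := 1) (by norm_num)
    have h2 : ((3 : ℕ) : ℤ) % 2 = 1 := by norm_num
    rw [h2]
    rw [show ((0 : ℤ), (-1 : ℤ)) = ((1 : ℤ) - 1, -1) by norm_num, h1]
    push_cast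
    ring

/-- every vertex `z ≠ 0` is the end of a walk (with or without self-intersections) with `n` steps, every `n ≥ 2 ‖z‖` of
the right parity -/
theorem exists_len {n0 : ℕ} (s0 : Fin n0 → Fin 3) (hz : pos s0 n0 ≠ 0) {n : ℕ} (hp : n % 2 = n0 % 2)
    (hn : 2 * ‖pos s0 n0‖ ≤ n) : ∃ s : Fin n → Fin 3, pos s n = pos s0 n0 := by
  obtain ⟨u, v, w, h1, h2, h3⟩ := letters s0 n0 le_rfl
  rw [h1] at hz hn ⊢
  obtain ⟨h4, h5⟩ := letters_norm h2 (by omega) (by omega) hz
  refine walk_fin (by omega) ?_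
  have h6 : ((|u| + |v| + |w| : ℤ) : ℝ) ≤ ((n : ℤ) : ℝ) := by
    refine h5.trans ?_
    exact_mod_cast hn
  exact_mod_cast h6

/-- the norm of a vertex is at least one -/
theorem one_le_norm {n0 : ℕ} (s0 : Fin n0 → Fin 3) (hz : pos s0 n0 ≠ 0) : 1 ≤ ‖pos s0 n0‖ := by
  obtain ⟨u, v, w, h1, h2, h3⟩ := letters s0 n0 le_rfl
  rw [h1] at hz ⊢
  exact (letters_norm h2 (by omega) (by omega) hz).1

/-- **a short self-avoiding walk** -/
theorem exists_short {n0 : ℕ} (s0 : Fin n0 → Fin 3) (hz : pos s0 n0 ≠ 0) :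
    ∃ n : ℕ, (n : ℝ) ≤ 2 * ‖pos s0 n0‖ ∧ ∃ s ∈ saw n, pos s n = pos s0 n0 := by
  obtain ⟨u, v, w, h1, h2, h3⟩ := letters s0 n0 le_rfl
  rw [h1] at hz ⊢
  obtain ⟨h4, h5⟩ := letters_norm h2 (by omega) (by omega) hz
  obtain ⟨L, hL⟩ : ∃ L : ℕ, (L : ℤ) = |u| + |v| + |w| :=
    ⟨(|u| + |v| + |w|).toNat, Int.toNat_of_nonneg (by positivity)⟩
  have au := abs_cases u
  have av := abs_cases v
  have aw := abs_cases w
  have hpar : u + v + w = (L : ℤ) % 2 := by omega
  refine ⟨L, ?_, ?_⟩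
  · have : ((L : ℤ) : ℝ) ≤ 2 * ‖(u : ℂ) * ee 0 + (v : ℂ) * ee 1 + (w : ℂ) * ee 2‖ := by
      rw [hL]
      exact h5
    exact_mod_cast this
  have hex := walk_fin hpar hL.ge
  have hsq := nsq_letters u v w
  rcases lt_or_ge 2 ‖(u : ℂ) * ee 0 + (v : ℂ) * ee 1 + (w : ℂ) * ee 2‖ with h6 | h6
  · exact exists_saw L _ h6 hex
  have h7 : (u : ℝ) ^ 2 + (v : ℝ) ^ 2 + (w : ℝ) ^ 2 - u * v - v * w - u * w ≤ 4 := by
    rw [← hsq]
    nlinarith
  have h8 : u ^ 2 + v ^ 2 + w ^ 2 - u * v - v * w - u * w ≤ 4 := by exact_mod_cast h7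
  have h9 : u ^ 2 + v ^ 2 + w ^ 2 ≤ 3 := by
    have e1 : (u + v + w) ^ 2 ≤ 1 := by
      have e2 : u + v + w = 0 ∨ u + v + w = 1 := by omega
      rcases e2 with e2 | e2 <;> rw [e2] <;> norm_num
    nlinarith
  have hu : -1 ≤ u ∧ u ≤ 1 := by
    constructor <;> nlinarith [sq_nonneg v, sq_nonneg w]
  have hv : -1 ≤ v ∧ v ≤ 1 := by
    constructor <;> nlinarith [sq_nonneg u, sq_nonneg w]
  have hw : -1 ≤ w ∧ w ≤ 1 := by
    constructor <;> nlinarith [sq_nonneg v, sq_nonneg u]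
  have hL3 : L = 0 ∨ L = 1 ∨ L = 2 ∨ L = 3 := by omega
  rcases hL3 with h0 | h0 | h0 | h0
  · exfalso
    apply hz
    have hu0 : u = 0 := by omega
    have hv0 : v = 0 := by omega
    have hw0 : w = 0 := by omega
    rw [hu0, hv0, hw0]
    simp
  · refine exists_saw34 L _ ?_ hex
    rw [h0]
    simpa using h4
  · refine exists_saw34 L _ ?_ hex
    rw [h0]
    have e1 : (3 : ℤ) ≤ u ^ 2 + v ^ 2 + w ^ 2 - u * v - v * w - u * w := by
      have q : ∀ x : ℤ, -1 ≤ x ∧ x ≤ 1 → x ^ 2 = |x| := by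
        rintro x ⟨x1, x2⟩
        have x3 : x = -1 ∨ x = 0 ∨ x = 1 := by omega
        rcases x3 with rfl | rfl | rfl <;> norm_num
      have q1 := q u hu
      have q2 := q v hv
      have q3 := q w hw
      have q4 : u + v + w = 0 := by omega
      have q5 : (u + v + w) ^ 2 = 0 := by rw [q4]; norm_num
      have q6 : u ^ 2 + v ^ 2 + w ^ 2 = 2 := by
        rw [q1, q2, q3, ← hL, h0]
        norm_num
      nlinarith
    have e2 : (3 : ℝ) ≤ ‖(u : ℂ) * ee 0 + (v : ℂ) * ee 1 + (w : ℂ) * ee 2‖ ^ 2 := by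
      rw [hsq]
      exact_mod_cast e1
    have e3 : (((2 : ℕ) : ℝ) ^ (3 / 4 : ℝ)) ^ 2 ≤ 3 := by
      rw [← Real.rpow_natCast, ← Real.rpow_mul (by positivity)]
      have e4 : (((2 : ℕ) : ℝ) ^ (3 / 4 * ((2 : ℕ) : ℝ) : ℝ)) ^ 2 ≤ 3 ^ 2 := by
        rw [← Real.rpow_natCast, ← Real.rpow_mul (by positivity)]
        norm_num
      exact (abs_le_of_sq_le_sq' e4 (by norm_num)).2
    exact (abs_le_of_sq_le_sq' (e3.trans e2) (by positivity)).2
  · have d012 : Dif 0 1 2 := by unfold Dif; decide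
    have d021 : Dif 0 2 1 := by unfold Dif; decide
    have d120 : Dif 1 2 0 := by unfold Dif; decide
    have hc : (u = 1 ∧ v = 1 ∧ w = -1) ∨ (u = 1 ∧ v = -1 ∧ w = 1) ∨ (u = -1 ∧ v = 1 ∧ w = 1) := by omega
    rw [h0]
    rcases hc with ⟨r1, r2, r3⟩ | ⟨r1, r2, r3⟩ | ⟨r1, r2, r3⟩
    · subst r1 r2 r3
      obtain ⟨s, hs, he⟩ := three_saw d012
      refine ⟨s, hs, he.trans ?_⟩
      push_cast
      ring
    · subst r1 r2 r3
      obtain ⟨s, hs, he⟩ := three_saw d021
      refine ⟨s, hs, he.trans ?_⟩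
      push_cast
      ring
    · subst r1 r2 r3
      obtain ⟨s, hs, he⟩ := three_saw d120
      refine ⟨s, hs, he.trans ?_⟩
      push_cast
      ring

end NC

end NTSZ
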