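import Pool.Agent.TPF.NCNum
import Pool.Agent.TPF.NCWalk
import Pool.Agent.JNT.LocFin
import Pool.Agent.TPC.AN
import Pool.Agent.NTS.MergeC

/-!
# TPF: the two-point function near the critical point (helper29)

`c |x| ^ (- 5 / 24) exp (- C |x| (zc - z) ^ (3 / 4)) ≤ G_z(x) ≤ C |x| ^ (- 5 / 24) exp (- c |x| (zc - z) ^ (3 / 4))`,
for every `z` in `[zc / 2, zc]` and every vertex `x ≠ 0`.
-/

set_option autoImplicit false

open scoped Classical

namespace NTSZ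

namespace NC

open Pool.Agent.NTS.Res

/-- the generating function of the self-avoiding walks from `0` to `x` -/
noncomputable def Gz (z : ℝ) (x : ℂ) : ℝ :=
  ∑' n : ℕ, (((saw n).filter (fun s => pos s n = x)).card : ℝ) * z ^ n

lemma card_saw {n : ℕ} (hn : 1 ≤ n) : (saw n).card = HexObs.aB n := by
  have h1 := NTSF.Mg.card_three (n := n) hn
  have h2 := HexObs.aB_eq hn
  omega

/-- **the two-point function near the critical point** -/
theorem near (hU : HexObs.TPC.XUp) (hL : HexObs.TPC.XLow) : ∃ c : ℝ, 0 < c ∧ ∀ z : ℝ, HexObs.xc / 2 ≤ z →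
    z ≤ HexObs.xc → ∀ (n0 : ℕ) (s0 : Fin n0 → Fin 3), pos s0 n0 ≠ 0 →
    c * (‖pos s0 n0‖ ^ (-(5 / 24) : ℝ) * Real.exp (-(c⁻¹ * ‖pos s0 n0‖ * (HexObs.xc - z) ^ (3 / 4 : ℝ)))) ≤
        Gz z (pos s0 n0) ∧
      Gz z (pos s0 n0) ≤
        c⁻¹ * (‖pos s0 n0‖ ^ (-(5 / 24) : ℝ) * Real.exp (-(c * ‖pos s0 n0‖ * (HexObs.xc - z) ^ (3 / 4 : ℝ)))) := by
  obtain ⟨c0, C0, hc0, hC0, han⟩ := HexObs.TPC.an_const hU hL
  obtain ⟨c1, C1, K, hc1, hC1, hK, hloc⟩ := Loc.loc_two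
  have hx := HexObs.xc_pos
  have hx1 : HexObs.xc < 1 := HexObs.NTW.DirA.xc_lt
  obtain ⟨A, κ, hA, hκ, hup⟩ := HexObs.TPF.NC.up_sum (c := c1) (C := C1 * C0) hc1 (by positivity)
  obtain ⟨C2, hC2⟩ : ∃ C2 : ℝ, C2 = -Real.log HexObs.xc := ⟨_, rfl⟩
  have hC20 : 0 < C2 := by
    rw [hC2]
    have := Real.log_neg hx hx1
    linarith
  obtain ⟨a, κ', ha, hκ', hlow⟩ := HexObs.TPF.NC.low_sum (c := c1 * c0) (C := C1) (K := K) (C2 := C2) (by positivity) hC1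
    hK hC20
  obtain ⟨X, hX⟩ : ∃ X : ℝ, X = HexObs.xc ^ (3 / 4 : ℝ) := ⟨_, rfl⟩
  have hX0 : 0 < X := by rw [hX]; positivity
  obtain ⟨c, hc⟩ : ∃ c : ℝ, c = min (min a A⁻¹) (min (κ / X) (X / κ')) := ⟨_, rfl⟩
  have hc0' : 0 < c := by
    rw [hc]
    exact lt_min (lt_min ha (by positivity)) (lt_min (by positivity) (by positivity))
  have hca : c ≤ a := by rw [hc]; exact (min_le_left _ _).trans (min_le_left _ _)
  have hcA : A ≤ c⁻¹ := by
    rw [le_inv_comm₀ hA hc0', hc]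
    exact (min_le_left _ _).trans (min_le_right _ _)
  have hcκ : c * X ≤ κ := by
    rw [← le_div_iff₀ hX0, hc]
    exact (min_le_right _ _).trans (min_le_left _ _)
  have hcκ' : κ' ≤ c⁻¹ * X := by
    have h1 : c ≤ X / κ' := by
      rw [hc]
      exact (min_le_right _ _).trans (min_le_right _ _)
    rw [le_div_iff₀ hκ'] at h1
    rw [← div_eq_inv_mul, le_div_iff₀ hc0']
    linarith
  refine ⟨c, hc0', fun z hz1 hz2 n0 s0 h0 => ?_⟩
  obtain ⟨x, hx0⟩ : ∃ x, x = pos s0 n0 := ⟨_, rfl⟩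
  obtain ⟨r, hr⟩ : ∃ r, r = ‖pos s0 n0‖ := ⟨_, rfl⟩
  have hr1 : 1 ≤ r := by rw [hr]; exact one_le_norm s0 h0
  obtain ⟨d, hd⟩ : ∃ d, d = 1 - z / HexObs.xc := ⟨_, rfl⟩
  have hd0 : 0 ≤ d := by
    rw [hd]
    have : z / HexObs.xc ≤ 1 := by rw [div_le_one hx]; exact hz2
    linarith
  have hd1 : d ≤ 1 / 2 := by
    rw [hd]
    have : 1 / 2 ≤ z / HexObs.xc := by rw [le_div_iff₀ hx]; linarith
    linarith
  have hz : HexObs.xc * (1 - d) = z := by
    rw [hd]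
    field_simp
    ring
  have hxz : (HexObs.xc - z) ^ (3 / 4 : ℝ) = X * d ^ (3 / 4 : ℝ) := by
    rw [hX, ← Real.mul_rpow hx.le hd0]
    congr 1
    rw [← hz]
    ring
  obtain ⟨p, hp⟩ : ∃ p : ℕ → ℝ, p = fun n => (((saw n).filter (fun s => pos s n = x)).card : ℝ) * HexObs.xc ^ n :=
    ⟨_, rfl⟩
  have hp0 : ∀ n, 0 ≤ p n := fun n => by rw [hp]; positivity
  have hG : Gz z x = ∑' n, p n * (1 - d) ^ n := by
    unfold Gz
    refine tsum_congr fun n => ?_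
    rw [hp, ← hz, mul_pow]
    ring
  have hq0 : 0 ≤ 1 - d := by linarith
  have hq : 1 - d ≤ Real.exp (-d) := by
    have := Real.add_one_le_exp (-d)
    linarith
  have hmu : ∀ n, HexObs.muB ^ n * HexObs.xc ^ n = 1 := HexObs.TPC.An.muB_pow
  have e37 : ∀ n : ℕ, 1 ≤ n → (n : ℝ) ^ (-(3 / 2) : ℝ) * (n : ℝ) ^ ((11 : ℝ) / 32) = (n : ℝ) ^ (-(37 / 32) : ℝ) := by
    intro n hn
    have hn0 : (0 : ℝ) < n := by exact_mod_cast hn
    rw [← Real.rpow_add hn0]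
    norm_num
  have hs0 : ∀ n, 1 ≤ n → (0 : ℝ) < (saw n).card := by
    intro n hn
    rw [card_saw hn]
    exact HexObs.TPC.An.aB_pos hn
  -- the upper bound of one term
  have hpu : ∀ n : ℕ, 1 ≤ n → p n ≤ C1 * C0 * (n : ℝ) ^ (-(37 / 32) : ℝ) *
      Real.exp (-(c1 * (r / (n : ℝ) ^ (3 / 4 : ℝ)) ^ 4)) := by
    intro n hn
    have hn0 : (0 : ℝ) < n := by exact_mod_cast hn
    have hq34 : (0 : ℝ) < (n : ℝ) ^ (3 / 4 : ℝ) := by positivity
    have h1 := (hloc n hn x).1 (r / (n : ℝ) ^ (3 / 4 : ℝ)) (by positivity)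
    have h2 : (((saw n).filter (fun s => pos s n = x)).card : ℝ) / ((saw n).card : ℝ) ≤
        C1 * (n : ℝ) ^ (-(3 / 2) : ℝ) * Real.exp (-(c1 * (r / (n : ℝ) ^ (3 / 4 : ℝ)) ^ 4)) := by
      refine le_trans ?_ h1
      unfold prb
      refine div_le_div_of_nonneg_right ?_ (Nat.cast_nonneg _)
      have h3 : (saw n).filter (fun s => pos s n = x) ⊆ (saw n).filter (fun s => pos s n = x ∧ ∃ j, j ≤ n ∧
          r / (n : ℝ) ^ (3 / 4 : ℝ) * (n : ℝ) ^ (3 / 4 : ℝ) ≤ ‖pos s j‖) := by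
        intro s hs
        rw [Finset.mem_filter] at hs ⊢
        refine ⟨hs.1, hs.2, n, le_rfl, ?_⟩
        rw [hs.2, div_mul_cancel₀ _ hq34.ne', hr, hx0]
      exact_mod_cast Finset.card_le_card h3
    rw [div_le_iff₀ (hs0 n hn)] at h2
    have h4 := (han n hn).2
    rw [← card_saw hn] at h4
    rw [hp]
    calc (((saw n).filter (fun s => pos s n = x)).card : ℝ) * HexObs.xc ^ n
        ≤ (C1 * (n : ℝ) ^ (-(3 / 2) : ℝ) * Real.exp (-(c1 * (r / (n : ℝ) ^ (3 / 4 : ℝ)) ^ 4)) *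
          (C0 * (HexObs.muB ^ n * (n : ℝ) ^ ((11 : ℝ) / 32)))) * HexObs.xc ^ n := by
          refine mul_le_mul_of_nonneg_right (h2.trans ?_) (by positivity)
          gcongr
      _ = C1 * C0 * ((n : ℝ) ^ (-(3 / 2) : ℝ) * (n : ℝ) ^ ((11 : ℝ) / 32)) *
          Real.exp (-(c1 * (r / (n : ℝ) ^ (3 / 4 : ℝ)) ^ 4)) * (HexObs.muB ^ n * HexObs.xc ^ n) := by ring
      _ = _ := by rw [hmu, mul_one, e37 n hn]
  have hp00 : p 0 = 0 := by
    rw [hp]
    have h1 : (saw 0).filter (fun s => pos s 0 = x) = ∅ := by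
      rw [Finset.filter_eq_empty_iff]
      intro s _ hs
      rw [NTSF.pos_zero] at hs
      exact h0 (hx0 ▸ hs.symm)
    simp only [h1, Finset.card_empty, Nat.cast_zero, zero_mul]
  obtain ⟨hsum, hle⟩ := hup r d p hr1 hd0 hp0 hp00 hpu (1 - d) hq0 hq
  have hxr : ‖x‖ = r := by rw [hx0, ← hr]
  rw [← hr, ← hx0]
  refine ⟨?_, ?_⟩
  · -- the lower bound
    have hr' : 0 < r := by linarith
    have h1 := hlow r d (n0 % 2) p hr1 hd0 hd1 (Nat.mod_lt _ (by norm_num)) hp0 (fun n hn hn2 hn3 hn4 => by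
      have h2 := (hloc n hn x).2 (by
        rw [hx0]
        exact exists_len s0 h0 hn2 (by rw [← hr]; exact hn3)) (by rw [hxr]; exact hn4)
      unfold prb at h2
      rw [le_div_iff₀ (hs0 n hn), hxr] at h2
      have h4 := (han n hn).1
      rw [← card_saw hn] at h4
      rw [hp]
      calc c1 * c0 * (n : ℝ) ^ (-(37 / 32) : ℝ) * Real.exp (-(C1 * (r / (n : ℝ) ^ (3 / 4 : ℝ)) ^ 4))
          = (c1 * (n : ℝ) ^ (-(3 / 2) : ℝ) * Real.exp (-(C1 * (r / (n : ℝ) ^ (3 / 4 : ℝ)) ^ 4)) *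
            (c0 * (HexObs.muB ^ n * (n : ℝ) ^ ((11 : ℝ) / 32)))) * HexObs.xc ^ n := by
            rw [← e37 n hn]
            have := hmu n
            linear_combination (-(c1 * c0 * ((n : ℝ) ^ (-(3 / 2) : ℝ) * (n : ℝ) ^ ((11 : ℝ) / 32)) *
              Real.exp (-(C1 * (r / (n : ℝ) ^ (3 / 4 : ℝ)) ^ 4)))) * this
        _ ≤ (((saw n).filter (fun s => pos s n = x)).card : ℝ) * HexObs.xc ^ n := by
            refine mul_le_mul_of_nonneg_right (le_trans ?_ h2) (by positivity)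
            gcongr) (by
      obtain ⟨n1, h2, s, hs, he⟩ := exists_short s0 h0
      refine ⟨n1, by rw [hr]; exact h2, ?_⟩
      rw [hp, hC2]
      have h3 : Real.exp (-(-Real.log HexObs.xc * n1)) = HexObs.xc ^ n1 := by
        rw [neg_mul, neg_neg, mul_comm, ← Real.log_pow, Real.exp_log (by positivity)]
      rw [h3]
      have h5 : 0 < ((saw n1).filter (fun s => pos s n1 = x)).card := by
        rw [Finset.card_pos]
        exact ⟨s, Finset.mem_filter.2 ⟨hs, he.trans hx0.symm⟩⟩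
      have h6 : (1 : ℝ) ≤ ((saw n1).filter (fun s => pos s n1 = x)).card := by exact_mod_cast h5
      exact le_mul_of_one_le_left (by positivity) h6) hsum
    rw [hG]
    refine le_trans ?_ h1
    have h2 : Real.exp (-(c⁻¹ * r * (HexObs.xc - z) ^ (3 / 4 : ℝ))) ≤ Real.exp (-(κ' * (r * d ^ (3 / 4 : ℝ)))) := by
      apply Real.exp_le_exp.2
      rw [hxz]
      have h3 : 0 ≤ r * d ^ (3 / 4 : ℝ) := by positivity
      nlinarith
    gcongr
  · rw [hG]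
    refine hle.trans ?_
    have h2 : Real.exp (-(κ * (r * d ^ (3 / 4 : ℝ)))) ≤ Real.exp (-(c * r * (HexObs.xc - z) ^ (3 / 4 : ℝ))) := by
      apply Real.exp_le_exp.2
      rw [hxz]
      have hr' : 0 < r := by linarith
      have h3 : 0 ≤ r * d ^ (3 / 4 : ℝ) := by positivity
      nlinarith
    gcongr

end NC

end NTSZ

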