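import Pool.Agent.TPF.UpGeo
import Pool.Agent.TPF.Glue
import Pool.Agent.SIM.HalfW
import Pool.Agent.SIM.FirstL
import Pool.Agent.SIM.Tall
import Pool.Agent.TPC.Defs

/-!
# TPF (two-point function of the plane): the upper bound at one scale (helper29)

* `good_pt`: words with a good leaf and a given end vertex;
* `bad_pt`: words of large extent without a good leaf;
* **`endK_le`**: `gf (EndK K y) ≤ C ^ J (4 ^ (- K) + 2 ^ (- 2 ^ (J - s))) Ub K Xb K ^ 2`, all `y`, all `J ≤ K - k1`.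
-/

set_option autoImplicit false

namespace HexObs

namespace TPF

open Finset TS SDN NTW NTA SIM

open scoped ENNReal

/-! ### 1. Displacements -/

lemma mulE_conj {R : Pt} (hR : nrm R = 1) (p : Pt) : mulE (conjE R) (mulE R p) = p := by
  rw [mulE_assoc, mulE_comm (conjE R) R, mulE_conjE, hR, mulE_one]

/-- the end of a joined word -/
lemma ev_app (A w : List Bool) : ev (A ++ w) = ev A + mulE (rotTo up (dx up A A.length)) (ev w) := by
  have hd : dx up A A.length ∈ dirs := dx_mem BAR.up_dirs _ _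
  have hR := rotTo_apply (dx up A A.length) BAR.up_dirs
  have h1 : (A ++ w).drop A.length = w := List.drop_left
  have h2 := vx_mulE (rotTo up (dx up A A.length)) oo (vx oo up (A ++ w) A.length) up w w.length
  have h3 : vx oo up w w.length - oo = vx oo up w w.length := sub_zero _
  rw [hR, h3] at h2
  unfold ev
  rw [List.length_append, lowA_drop oo up (A ++ w) A.length w.length, h1, dx_append le_rfl, h2,
    vx_append (by omega)]

lemma ev_BU {z v : List Bool} (hz : z ∈ BU) : ev (z ++ v) = ev z + ev v := by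
  obtain ⟨h, hz⟩ := hz
  exact ev_cat hz

/-- the displacement of a middle bridge -/
lemma mid_disp {A Z B : List Bool} {y : Pt} (hZ : Z ∈ BU) (h : ev (A ++ (Z ++ B)) = y) :
    ev Z = mulE (conjE (rotTo up (dx up A A.length))) (y - ev A) - ev B := by
  have hd : dx up A A.length ∈ dirs := dx_mem BAR.up_dirs _ _
  rw [← h, ev_app, ev_BU hZ, add_sub_cancel_left, mulE_conj (nrm_rotTo BAR.up_dirs hd), add_sub_cancel_right]

/-! ### 2. A good leaf -/

/-- **words with a good leaf** -/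
theorem good_pt {d : ℕ → ℕ} (h0 : d 0 = 0) (hd : ∀ i, d i + 4 ≤ d (i + 1)) : ∃ (C : ℝ) (k1 : ℕ), 1 ≤ C ∧
    ∀ (kc J : ℕ) (y : Pt), k1 ≤ kc → 6 ≤ J →
    gf {t | t ∈ WL (kc + J) ∧ GoodL (Nc4 d kc) kc J t ∧ ev t = y} ≤
      ENNReal.ofReal (C ^ J * (Ub (kc + J) / 4 ^ (kc + J))) * Xb (kc + J) ^ 2 := by
  obtain ⟨C1, hC1, hcut⟩ := cut3_disp
  obtain ⟨C2, k2, hC2, hlast⟩ := half_last
  obtain ⟨C3, k3, hC3, hfirst⟩ := half_first
  obtain ⟨D, hD, hXD⟩ := Xb_pow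
  have d0 := hd 0
  have d1 := hd 1
  have d2 := hd 2
  have d3 := hd 3
  simp only [Nat.zero_add, Nat.reduceAdd] at d0 d1 d2 d3
  obtain ⟨A, hA⟩ : ∃ A : ℝ, A = C1 * (2 ^ (d 3 + 1)) ^ 2 * 4 ^ (d 3 + 1) * (C2 ^ 2 * C3 ^ (d 4 + 6) * 2 * D) := ⟨_, rfl⟩
  have hA1 : 1 ≤ A := by
    rw [hA]
    have e1 : (1 : ℝ) ≤ (2 ^ (d 3 + 1)) ^ 2 := one_le_pow₀ (one_le_pow₀ (by norm_num))
    have e2 : (1 : ℝ) ≤ 4 ^ (d 3 + 1) := one_le_pow₀ (by norm_num)
    have e3 : (1 : ℝ) ≤ C2 ^ 2 := one_le_pow₀ hC2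
    have e4 : (1 : ℝ) ≤ C3 ^ (d 4 + 6) := one_le_pow₀ hC3
    have e5 : (1 : ℝ) ≤ C2 ^ 2 * C3 ^ (d 4 + 6) * 2 * D :=
      one_le_mul_of_one_le_of_one_le (one_le_mul_of_one_le_of_one_le (one_le_mul_of_one_le_of_one_le e3 e4) (by norm_num)) hD
    exact one_le_mul_of_one_le_of_one_le (one_le_mul_of_one_le_of_one_le (one_le_mul_of_one_le_of_one_le hC1 e1) e2) e5
  have hC10 : 0 < C1 := by linarith
  have hC20 : 0 < C2 := by linarith
  have hC30 : 0 < C3 := by linarith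
  have hD0 : 0 < D := by linarith
  refine ⟨A * (C2 * C3 * 8), k2 + k3 + d 4 + 6, ?_, fun kc J y hk hJ => ?_⟩
  · exact one_le_mul_of_one_le_of_one_le hA1 (one_le_mul_of_one_le_of_one_le (one_le_mul_of_one_le_of_one_le hC2 hC3)
      (by norm_num))
  have hUc := Ub_pos kc
  have hUK := Ub_pos (kc + J)
  obtain ⟨n, hn⟩ : ∃ n, n = 2 ^ (kc - (d 3 + 1)) := ⟨_, rfl⟩
  have hn1 : 1 ≤ n := by rw [hn]; exact Nat.one_le_two_pow
  have hnR : (0 : ℝ) < n := by exact_mod_cast hn1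
  -- the masses
  have hL : gf {t | t ∈ WL (kc + J) ∧ ∃ m u e, Fd (kc + 3) t m u e ∧ e m = t.length} ≤
      ENNReal.ofReal (C2 ^ (J + 2) * Ub (kc + J)) * Xb (kc + J) := by
    have := hlast (kc - 2) (J + 2) (by omega) (by omega)
    rw [show kc - 2 + 5 = kc + 3 by omega, show kc - 2 + (J + 2) = kc + J by omega] at this
    exact this
  have hR : gf {t | t ∈ WL (kc + J + 1) ∧ ∃ m u e, Fd (kc - d 4) t m u e ∧ e 0 = 0} ≤
      ENNReal.ofReal (C3 ^ (J + (d 4 + 6)) * (2 * D * Ub (kc + J))) * Xb (kc + J) := by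
    have h1 := hfirst (kc - d 4 - 5) (J + (d 4 + 6)) (by omega) (by omega)
    rw [show kc - d 4 - 5 + 5 = kc - d 4 by omega, show kc - d 4 - 5 + (J + (d 4 + 6)) = kc + J + 1 by omega] at h1
    refine h1.trans ?_
    have h2 : Ub (kc + J + 1) ≤ 2 * Ub (kc + J) := by
      have := Ub_add (kc + J) 1
      simpa using this
    have h3 := hXD (kc + J) 1
    rw [pow_one] at h3
    refine (mul_le_mul' (ENNReal.ofReal_le_ofReal (mul_le_mul_of_nonneg_left h2 (by positivity))) h3).trans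
      (le_of_eq ?_)
    rw [← mul_assoc, ← ENNReal.ofReal_mul (by positivity)]
    congr 2
    ring
  -- the decomposition
  have hE : ∀ t ∈ {t | t ∈ WL (kc + J) ∧ GoodL (Nc4 d kc) kc J t ∧ ev t = y},
      Cut3 (fun _ _ _ => True) {t | t ∈ WL (kc + J) ∧ ∃ m u e, Fd (kc + 3) t m u e ∧ e m = t.length}
        {t | t ∈ WL (kc + J + 1) ∧ ∃ m u e, Fd (kc - d 4) t m u e ∧ e 0 = 0} n (2 ^ kc) t := by
    rintro t ⟨ht, hg, -⟩
    have h := good_cut3 (c := fun k => kc - d (4 - k)) (r := fun k => d (4 - k) - d (3 - k) - 1)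
      (S := Nc4 d kc) (kc := kc) (J := J)
      (fun k hk => by
        rcases (by omega : k = 0 ∨ k = 1 ∨ k = 2) with rfl | rfl | rfl
        · simp only [Nat.sub_zero, Nat.zero_add, Nat.reduceSub]
          omega
        · simp only [Nat.reduceAdd, Nat.reduceSub]
          omega
        · simp only [Nat.reduceAdd, Nat.reduceSub]
          omega)
      (by
        simp only [Nat.reduceSub]
        omega)
      (by
        simp only [Nat.sub_zero]
        omega)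
      (fun k hk g hg => by
        refine ⟨3 - k, by omega, ?_⟩
        rw [show 3 - k + 1 = 4 - k by omega]
        exact hg)
      ht hg
    simp only [Nat.sub_zero, Nat.reduceSub] at h
    rw [show kc - d 4 + (d 4 - d 3 - 1) = kc - (d 3 + 1) by omega, ← hn] at h
    have e6 : 2 ^ (kc - d 1 + (d 1 - d 0 - 1)) ≤ 2 ^ kc := Nat.pow_le_pow_right (by norm_num) (by omega)
    obtain ⟨X0, H1, H2, H3, X1, h1, h2, h3, a1, a2, a3, a4, a5, a6, a7, a8, a9, a10, a11, a12, a13⟩ := h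
    exact ⟨X0, H1, H2, H3, X1, h1, h2, h3, a1, a2, a3, a4, a5, a6, a7, a8.trans e6, a9.trans e6, a10.trans e6,
      a11, a12, a13⟩
  have hmain := hcut (fun _ _ _ => True) _ _ _ n kc 1 (fun _ _ _ _ _ _ _ _ => trivial) hn1 zero_le_one hE
    (fun A B => ⟨{mulE (conjE (rotTo up (dx up A A.length))) (y - ev A) - ev B}, Set.finite_singleton _, by
      rw [Set.ncard_singleton]
      norm_num, fun Z hZ _ _ hZE _ => mid_disp hZ hZE.2.2⟩)
  refine hmain.trans ((mul_le_mul' le_rfl (mul_le_mul' hL hR)).trans ?_)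
  -- numbers
  have e0 : ENNReal.ofReal (C2 ^ (J + 2) * Ub (kc + J)) * Xb (kc + J) *
      (ENNReal.ofReal (C3 ^ (J + (d 4 + 6)) * (2 * D * Ub (kc + J))) * Xb (kc + J)) =
      ENNReal.ofReal (C2 ^ (J + 2) * Ub (kc + J) * (C3 ^ (J + (d 4 + 6)) * (2 * D * Ub (kc + J)))) * Xb (kc + J) ^ 2 := by
    rw [ENNReal.ofReal_mul (p := C2 ^ (J + 2) * Ub (kc + J)) (by positivity)]
    ring
  rw [e0, ← mul_assoc, ← ENNReal.ofReal_mul (by
    have := uu_pos n
    positivity)]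
  refine mul_le_mul' (ENNReal.ofReal_le_ofReal ?_) le_rfl
  have hkd : kc = kc - (d 3 + 1) + (d 3 + 1) := by omega
  have hnk : (2 : ℝ) ^ kc = n * 2 ^ (d 3 + 1) := by
    rw [hn]
    push_cast
    rw [← pow_add, ← hkd]
  have e1 : (2 : ℝ) ^ kc / (n * Ub kc) = 2 ^ (d 3 + 1) / Ub kc := by
    rw [hnk]
    field_simp
  have e2 : uu n / n ≤ 4 ^ (d 3 + 1) * Ub kc / 4 ^ kc := by
    have h1 : (n : ℝ) * uu n ≤ UU n := Num2Aux.mul_le_UU n
    have h2 : UU n ≤ Ub kc := by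
      rw [hn]
      exact UU_mono (Nat.pow_le_pow_right (by norm_num) (by omega))
    have h3 : (4 : ℝ) ^ kc = n ^ 2 * 4 ^ (d 3 + 1) := by
      have : (4 : ℝ) ^ kc = (2 ^ kc) ^ 2 := by
        rw [← pow_mul, mul_comm, pow_mul]
        norm_num
      rw [this, hnk, mul_pow]
      congr 1
      rw [← pow_mul, mul_comm, pow_mul]
      norm_num
    rw [h3, div_le_div_iff₀ hnR (by positivity)]
    have h4 : (0 : ℝ) < 4 ^ (d 3 + 1) := by positivity
    nlinarith [mul_le_mul_of_nonneg_left (h1.trans h2) (by positivity : (0 : ℝ) ≤ n * 4 ^ (d 3 + 1))]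
  have e3 : Ub (kc + J) ≤ 2 ^ J * Ub kc := Ub_add kc J
  have e4 : (4 : ℝ) ^ (kc + J) = 4 ^ kc * 4 ^ J := pow_add _ _ _
  rw [e1, mul_one]
  calc C1 * (2 ^ (d 3 + 1) / Ub kc) ^ 2 * (uu n / n) *
        (C2 ^ (J + 2) * Ub (kc + J) * (C3 ^ (J + (d 4 + 6)) * (2 * D * Ub (kc + J))))
      ≤ C1 * (2 ^ (d 3 + 1) / Ub kc) ^ 2 * (4 ^ (d 3 + 1) * Ub kc / 4 ^ kc) *
        (C2 ^ (J + 2) * Ub (kc + J) * (C3 ^ (J + (d 4 + 6)) * (2 * D * (2 ^ J * Ub kc)))) := by
        gcongr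
    _ = A * ((C2 * C3 * 8) ^ J * (Ub (kc + J) / 4 ^ (kc + J))) := by
        rw [hA, e4, pow_add C2, pow_add C3, mul_pow, mul_pow, show (8 : ℝ) = 2 * 4 by norm_num, mul_pow]
        field_simp
    _ ≤ (A * (C2 * C3 * 8)) ^ J * (Ub (kc + J) / 4 ^ (kc + J)) := by
        rw [← mul_assoc, mul_pow A]
        have : A ≤ A ^ J := le_self_pow₀ hA1 (by omega)
        gcongr

/-! ### 3. No good leaf -/

/-- **words of large extent without a good leaf** -/
theorem bad_pt : ∃ (s : ℕ) (d : ℕ → ℕ), d 0 = 0 ∧ (∀ i, d i + 4 ≤ d (i + 1)) ∧ ∃ (C : ℝ) (k1 : ℕ), 1 ≤ C ∧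
    ∀ kc J V : ℕ, k1 ≤ kc → 6 ≤ J →
    gf {t | t ∈ WL (kc + J) ∧ ¬ GoodL (Nc4 d kc) kc J t ∧ ∃ i i', i ≤ t.length ∧ i' ≤ t.length ∧
      3 * RR (kc + 5) + 6 * (V * 2 ^ (kc + s)) ≤ lev t i - lev t i'} ≤
      ENNReal.ofReal (C ^ J * (1 / 2 ^ V) * Ub (kc + J)) * Xb (kc + J) ^ 2 := by
  obtain ⟨s, d, h0, hd, hrun⟩ := cls_run
  obtain ⟨C, k0, hC, hE⟩ := TL.evER
  refine ⟨s, d, h0, hd, C, max k0 (d 4), hC, fun kc J V hk hJ => ?_⟩
  refine (gf_mono ?_).trans (hE kc J (RunB kc s (Nc4 d kc) V) (1 / 2 ^ V) ((le_max_left _ _).trans hk) hJ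
    (by positivity) (hrun kc ((le_max_right _ _).trans hk) V))
  rintro t ⟨h1, h2, h3⟩
  rcases run_or_good h1 h3 with h | h
  · exact h
  · exact absurd h h2

end TPF

end HexObs
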