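import Pool.Agent.TPF.UpE
import Pool.Agent.NTA.TailEns

/-!
# TPF (two-point function of the plane): finiteness (helper29)

* `SE_fin`: `gf (SE q) ≠ ⊤` for every `q`.
-/

set_option autoImplicit false

namespace HexObs

namespace TPF

open Finset TS SDN NTW NTA SIM

open scoped ENNReal

/-- **the generating function at a vertex is finite** -/
theorem SE_fin (hU : BAR.HUp (61 / 48)) (q : Pt) : gf (SE q) ≠ ⊤ := by
  classical
  obtain ⟨A, K1, hA, h⟩ := endK_eps hU (ε := 1 / 24) (by norm_num)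
  obtain ⟨Ct, hCt, hWL⟩ := tot_WL
  obtain ⟨A1, hA1, hX⟩ := Xb_up hU (ε := 1) (by norm_num)
  have hr : (2 : ℝ) ^ (-(1 / 6) : ℝ) < 1 := Real.rpow_lt_one_of_one_lt_of_neg (by norm_num) (by norm_num)
  have hsub : SE q ⊆ WL K1 ∪ ⋃ j : ℕ, TPC.EndK (K1 + j) q := by
    rintro t ⟨ht, he⟩
    have hex := SA_WL ht
    obtain ⟨K, hK⟩ : ∃ K, K = Nat.find hex := ⟨_, rfl⟩
    have h1 : t ∈ WL K := hK ▸ Nat.find_spec hex
    rcases Nat.lt_or_ge K1 K with h2 | h2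
    · right
      have h3 : t ∉ WL (K - 1) := fun hc => by
        have := Nat.find_min' hex hc
        omega
      refine Set.mem_iUnion.2 ⟨K - K1, ?_⟩
      rw [show K1 + (K - K1) = K by omega]
      exact ⟨h1, h3, he⟩
    · left
      exact ⟨ht, fun i hi dir => (h1.2 i hi dir).trans (pow_le_pow_right₀ (by norm_num) h2)⟩
  have hfin1 : gf (WL K1) ≠ ⊤ := by
    refine ne_top_of_le_ne_top ?_ (hWL K1)
    have hX1 : Xb K1 ≠ ⊤ := ne_top_of_le_ne_top ENNReal.ofReal_ne_top (hX K1)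
    exact ENNReal.mul_ne_top ENNReal.ofReal_ne_top (ENNReal.mul_ne_top ENNReal.ofReal_ne_top (ENNReal.pow_ne_top hX1))
  have h6 : ∀ j : ℕ, gf (TPC.EndK (K1 + j) q) ≤
      ENNReal.ofReal (A * (2 : ℝ) ^ (-(1 / 6) * (K1 : ℝ)) * ((2 : ℝ) ^ (-(1 / 6) : ℝ)) ^ j) := by
    intro j
    refine (h (K1 + j) q (by omega)).trans (ENNReal.ofReal_le_ofReal (le_of_eq ?_))
    rw [mul_assoc, ← Real.rpow_natCast ((2 : ℝ) ^ (-(1 / 6) : ℝ)) j, ← Real.rpow_mul (by norm_num),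
      ← Real.rpow_add (by norm_num)]
    push_cast
    congr 2
    ring
  have hfin2 : gf (⋃ j : ℕ, TPC.EndK (K1 + j) q) ≠ ⊤ := by
    refine ne_top_of_le_ne_top ?_ ((ENNReal.tsum_iUnion_le_tsum wE _).trans (ENNReal.tsum_le_tsum h6))
    rw [← ENNReal.ofReal_tsum_of_nonneg (fun j => by positivity)
      ((summable_geometric_of_lt_one (by positivity) hr).mul_left _)]
    exact ENNReal.ofReal_ne_top
  have h7 : gf (WL K1 ∪ ⋃ j : ℕ, TPC.EndK (K1 + j) q) ≤ gf (WL K1) + gf (⋃ j : ℕ, TPC.EndK (K1 + j) q) :=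
    ENNReal.tsum_union_le wE _ _
  exact ne_top_of_le_ne_top (ENNReal.add_ne_top.2 ⟨hfin1, hfin2⟩) ((gf_mono hsub).trans h7)

end TPF

end HexObs
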