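import Pool.Agent.TPF.UpPt
import Pool.Agent.XI72.C

/-!
# TPF (two-point function of the plane): the generating function of the walks from 0 to a vertex (helper29)

* **`Gd_SE`**: `2 * Gd (ofReal xc) (-psi q) = ∑ g ∈ Rot3, gf (SE (g q))` for `q ≠ 0`.
-/

set_option autoImplicit false

namespace HexObs

namespace TPF

open Finset SDN SawNu XI72 HexObs.PHWDict

open scoped ENNReal

/-- words whose vertices 0, ..., length + 1 are distinct and whose last vertex is p -/
def AE (p : HexObs.Pt) : Set (List Bool) :=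
  {t | (∀ i k, i < k → k ≤ t.length + 1 → vx oo up t i ≠ vx oo up t k) ∧ tip oo up t = p}

/-- the last letter is free -/
lemma gf_SE {p : HexObs.Pt} (hp : p ≠ oo) :
    gf (SE p) = 2 * ∑' t : AE p, ENNReal.ofReal (xc ^ (t.1.length + 1)) := by
  have hm : ∀ x : AE p × Bool, x.1.1 ++ [x.2] ∈ SE p := by
    rintro ⟨⟨t, h1, h2⟩, b⟩
    refine ⟨⟨fun _ _ _ => trivial, ?_⟩, ?_⟩
    · intro i k hik hk
      have hk' : k ≤ t.length + 1 := by simpa using hk
      show vx oo up (t ++ [b]) i ≠ vx oo up (t ++ [b]) k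
      rw [vx_append (by omega), vx_append hk']
      exact h1 i k hik hk'
    · rw [ev_snoc]
      exact h2
  let φ : AE p × Bool → SE p := fun x => ⟨x.1.1 ++ [x.2], hm x⟩
  have hφ : Function.Bijective φ := by
    constructor
    · rintro ⟨⟨t, ht⟩, b⟩ ⟨⟨t', ht'⟩, b'⟩ h
      have h1 : t ++ [b] = t' ++ [b'] := congrArg Subtype.val h
      obtain ⟨h2, h3⟩ := List.append_inj' h1 rfl
      subst h2
      obtain ⟨rfl, _⟩ := List.cons.inj h3
      rfl
    · rintro ⟨t, h1, h2⟩
      have hne : t ≠ [] := by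
        rintro rfl
        exact hp h2.symm
      have h3 : t.dropLast ++ [t.getLast hne] = t := List.dropLast_append_getLast hne
      have hl : t.dropLast.length + 1 = t.length := by
        rw [List.length_dropLast]
        have := List.length_pos_iff.2 hne
        omega
      have h4 : ∀ j, j ≤ t.length → vx oo up t.dropLast j = vx oo up t j := by
        intro j hj
        have := vx_append (v0 := oo) (d0 := up) (t := t.dropLast) (s := [t.getLast hne]) (i := j) (by omega)
        rw [h3] at this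
        exact this.symm
      refine ⟨⟨⟨t.dropLast, ?_, ?_⟩, t.getLast hne⟩, Subtype.ext h3⟩
      · intro i k hik hk
        rw [h4 i (by omega), h4 k (by omega)]
        exact h1.inj i k hik (by omega)
      · show vx oo up t.dropLast (t.dropLast.length + 1) = p
        rw [hl, h4 _ le_rfl]
        exact h2
  have h1 := (Equiv.ofBijective φ hφ).tsum_eq (fun t : SE p => wE t.1)
  unfold gf
  rw [← h1, ENNReal.tsum_prod', ← ENNReal.tsum_mul_left]
  refine tsum_congr fun t => ?_
  have h2 : ∀ b : Bool, wE ((Equiv.ofBijective φ hφ (t, b) : SE p) : List Bool) =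
      ENNReal.ofReal (xc ^ (t.1.length + 1)) := by
    intro b
    show wE (t.1 ++ [b]) = _
    rw [wE, List.length_append]
    rfl
  rw [tsum_congr h2, tsum_fintype, Finset.sum_const, Finset.card_univ, Fintype.card_bool, nsmul_eq_mul]
  rfl

/-- first direction of the walk -/
def dg (g : HexObs.Pt) : HexObs.Pt := mulE (conjE g) up

lemma dg_mem {g : HexObs.Pt} (h : g ∈ Rot3) : HexMu.psi (dg g) ∈ hexL.S true ∧ dg g ∈ dirs := by
  have key : ∀ g ∈ Rot3, HexMu.psi (dg g) ∈ hexL.S true ∧ dg g ∈ dirs := by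
    simp only [hexL, cond_true, HexMu.psi, dg, Rot3]
    decide
  exact key g h

lemma dg_surj {s : SawNu.Pt} (h : s ∈ hexL.S true) : ∃ g ∈ Rot3, dg g = HexMu.phi s := by
  have key : ∀ s ∈ hexL.S true, ∃ g ∈ Rot3, dg g = HexMu.phi s := by
    simp only [hexL, cond_true, HexMu.phi, dg, Rot3]
    decide
  exact key s h

lemma dg_inj {g g' : HexObs.Pt} (hg : g ∈ Rot3) (hg' : g' ∈ Rot3) (h : dg g = dg g') : g = g' := by
  have key : ∀ g ∈ Rot3, ∀ g' ∈ Rot3, dg g = dg g' → g = g' := by
    unfold dg Rot3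
    decide
  exact key g hg g' hg' h

lemma vx_dg (g : HexObs.Pt) (t : List Bool) (i : ℕ) : vx oo (dg g) t i = mulE (conjE g) (vx oo up t i) := by
  have h := vx_mulE (conjE g) oo oo up t i
  have h0 : (oo : HexObs.Pt) = 0 := rfl
  rw [h0, zero_add, sub_zero] at h
  exact h

/-- the walk with the first direction dg g -/
def Fw (g : HexObs.Pt) (t : List Bool) : List SawNu.Pt := ng ((HexMu.stepsOf (dg g) t).map HexMu.psi)

lemma Fw_length (g : HexObs.Pt) (t : List Bool) : (Fw g t).length = t.length + 1 := by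
  rw [Fw, ng_length, List.length_map, HexMu.stepsOf_length]

lemma Fw_ps (g : HexObs.Pt) (t : List Bool) {i : ℕ} (hi : i ≤ t.length + 1) :
    ps (Fw g t) i = -HexMu.psi (mulE (conjE g) (vx oo up t i)) := by
  rw [Fw, ps_ng, HexMu.ps_map_psi, ← vx_dg]
  have h := HexMu.ps_stepsOf oo (dg g) t i hi
  have h0 : (oo : HexObs.Pt) = 0 := rfl
  rw [h0, zero_add] at h
  rw [h, h0]

lemma conj_inj {g : HexObs.Pt} (hg : g ∈ Rot3) {p q : HexObs.Pt} (h : mulE (conjE g) p = mulE (conjE g) q) :
    p = q := mulE_inj (by rw [nrm_conjE]; exact rot3_nrm hg) h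

lemma Fw_mem {g : HexObs.Pt} (hg : g ∈ Rot3) {q : HexObs.Pt} {t : List Bool} (ht : t ∈ AE (mulE g q)) :
    Fw g t ∈ Sw false ∧ ps (Fw g t) (Fw g t).length = -HexMu.psi q := by
  obtain ⟨h1, h2⟩ := ht
  obtain ⟨d1, d2⟩ := dg_mem hg
  refine ⟨?_, ?_⟩
  · have h : (HexMu.stepsOf (dg g) t).map HexMu.psi ∈ Sw true := by
      refine ⟨HexMu.stepsOf_tw d2 d1 t, ?_⟩
      intro i j hij hj he
      rw [List.length_map, HexMu.stepsOf_length] at hj
      rw [HexMu.ps_map_psi, HexMu.ps_map_psi] at he
      have h3 := HexMu.psi_inj he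
      have h4 := HexMu.ps_stepsOf oo (dg g) t i (by omega)
      have h5 := HexMu.ps_stepsOf oo (dg g) t j hj
      have h6 : vx oo (dg g) t i = vx oo (dg g) t j := by rw [← h4, ← h5, h3]
      rw [vx_dg, vx_dg] at h6
      exact h1 i j hij hj (conj_inj hg h6)
    exact ng_mem h
  · rw [Fw_length, Fw_ps g t le_rfl]
    have h3 : vx oo up t (t.length + 1) = mulE g q := h2
    rw [h3, mulE_conj (rot3_nrm hg)]

/-- **the walks from 0 to a vertex as words** -/
theorem Gd_SE {q : HexObs.Pt} (hq : q ≠ oo) :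
    2 * Gd (ENNReal.ofReal xc) (-HexMu.psi q) = ∑ g ∈ Rot3, gf (SE (mulE g q)) := by
  have hne : ∀ g ∈ Rot3, mulE g q ≠ oo := by
    intro g hg h
    apply hq
    apply mulE_inj (rot3_nrm hg)
    rw [h]
    unfold mulE oo
    simp
  have hR : ∑ g ∈ Rot3, gf (SE (mulE g q)) =
      2 * ∑ g ∈ Rot3, ∑' t : AE (mulE g q), ENNReal.ofReal (xc ^ (t.1.length + 1)) := by
    rw [Finset.mul_sum]
    exact Finset.sum_congr rfl fun g hg => gf_SE (hne g hg)
  rw [hR]
  congr 1
  let φ : (Σ g : Rot3, AE (mulE g.1 q)) → {l : List SawNu.Pt // l ∈ Sw false ∧ ps l l.length = -HexMu.psi q} :=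
    fun x => ⟨Fw x.1.1 x.2.1, Fw_mem x.1.2 x.2.2⟩
  have hφ : Function.Bijective φ := by
    constructor
    · rintro ⟨⟨g, hg⟩, ⟨t, ht⟩⟩ ⟨⟨g', hg'⟩, ⟨t', ht'⟩⟩ h
      have h1 : Fw g t = Fw g' t' := congrArg Subtype.val h
      have h2 : (HexMu.stepsOf (dg g) t).map HexMu.psi = (HexMu.stepsOf (dg g') t').map HexMu.psi := by
        have := congrArg ng h1
        rwa [Fw, Fw, ng_ng, ng_ng] at this
      have h3 := HexMu.map_psi_inj h2
      have h4 : dg g = dg g' := by
        obtain ⟨l, hl⟩ := HexMu.stepsOf_head (dg g) t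
        obtain ⟨l', hl'⟩ := HexMu.stepsOf_head (dg g') t'
        rw [hl, hl'] at h3
        exact (List.cons.inj h3).1
      have h5 := dg_inj hg hg' h4
      subst h5
      have h6 := HexMu.stepsOf_inj (dg_mem hg).2 h3
      subst h6
      rfl
    · rintro ⟨l, hl, hend⟩
      have h1 : ng l ∈ Sw true := ng_mem hl
      have h2 : ps (ng l) (ng l).length = HexMu.psi q := by
        rw [ps_ng, ng_length, hend, neg_neg]
      have h3 : ng (ng l) = l := ng_ng l
      revert h1 h2 h3
      generalize ng l = l'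
      intro h1 h2 h3
      rcases l' with _ | ⟨s, l''⟩
      · exfalso
        have h5 : ps ([] : List SawNu.Pt) ([] : List SawNu.Pt).length = 0 := ps_zero _
        exact hq (HexMu.psi_inj ((h2.symm.trans h5).trans HexMu.psi_zero.symm))
      obtain ⟨g, hg, hgs⟩ := dg_surj h1.1.1
      have hlen := HexMu.tword_length s l''
      have hst : (HexMu.stepsOf (dg g) (HexMu.tword (s :: l''))).map HexMu.psi = s :: l'' := by
        rw [hgs, HexMu.tword, stepsOf_tw_eq (HexMu.ch_of_SA h1.1 h1.2)]
        rw [List.map_cons, HexMu.psi_phi h1.1.1]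
        congr 1
        have key : ∀ (b : Bool) (l : List (ℤ × ℤ)), SawNu.TW SawNu.hexL.S b l →
            (l.map HexMu.phi).map HexMu.psi = l := by
          intro b l
          induction l generalizing b with
          | nil => intro _; rfl
          | cons s l ih =>
            rintro ⟨k1, k2⟩
            rw [List.map_cons, List.map_cons, HexMu.psi_phi k1, ih _ k2]
        exact key _ l'' h1.1.2
      have hF : Fw g (HexMu.tword (s :: l'')) = l := by
        rw [Fw, hst, h3]
      refine ⟨⟨⟨g, hg⟩, ⟨HexMu.tword (s :: l''), ?_, ?_⟩⟩, Subtype.ext hF⟩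
      · intro i k hik hk he
        have h4 := HexMu.vx_tword_inj h1.1 h1.2 oo hik (by omega)
        apply h4
        rw [← hgs, vx_dg, vx_dg, he]
      · have h5 := Fw_ps g (HexMu.tword (s :: l'')) (i := (HexMu.tword (s :: l'')).length + 1) le_rfl
        rw [hF] at h5
        have h6 : (HexMu.tword (s :: l'')).length + 1 = l.length := by
          rw [← Fw_length g, hF]
        rw [h6, hend] at h5
        have h7 := HexMu.psi_inj (neg_injective h5)
        show vx oo up _ _ = _
        rw [h6, h7, mulE_assoc, mulE_conjE, rot3_nrm hg, mulE_one]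
  have h1 := (Equiv.ofBijective φ hφ).tsum_eq
    (fun l : {l : List SawNu.Pt // l ∈ Sw false ∧ ps l l.length = -HexMu.psi q} => ENNReal.ofReal xc ^ l.1.length)
  unfold Gd
  rw [← h1, ENNReal.tsum_sigma', tsum_fintype, ← Finset.sum_coe_sort Rot3]
  refine Finset.sum_congr rfl fun g _ => tsum_congr fun t => ?_
  show ENNReal.ofReal xc ^ (Fw g.1 t.1).length = _
  rw [Fw_length, ENNReal.ofReal_pow xc_pos.le]

end TPF

end HexObs
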