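import Mathlib

/-!
# TPF, near the critical point: the sums over the number of steps (helper29)

`Σ n ^ (- 37 / 32) exp (- c r ^ 4 / n ^ 3 - d n)` is of the order `r ^ (- 5 / 24) exp (- c r d ^ (3 / 4))`.
-/

set_option autoImplicit false

namespace HexObs

namespace TPF

namespace NC

open Finset

/-- one term of the tail against the difference of the powers -/
lemma tele {b : ℝ} (hb : 0 < b) (hb1 : b ≤ 1) {x : ℝ} (hx : 1 < x) :
    b * x ^ (-(1 + b)) ≤ (x - 1) ^ (-b) - x ^ (-b) := by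
  have hx0 : 0 < x := by linarith
  have h1 : (1 + -(1 / x)) ^ b ≤ 1 + b * -(1 / x) := by
    refine _root_.rpow_one_add_le_one_add_mul_self ?_ hb.le hb1
    have : 1 / x ≤ 1 := by rw [div_le_one hx0]; exact hx.le
    linarith
  have h2 : 0 < 1 + -(1 / x) := by
    have : 1 / x < 1 := by rw [div_lt_one hx0]; exact hx
    linarith
  have h3 : 0 < 1 + b * -(1 / x) := lt_of_lt_of_le (by positivity) h1
  have h4 : 1 + b / x ≤ (1 + -(1 / x)) ^ (-b) := by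
    rw [Real.rpow_neg h2.le]
    refine le_trans ?_ (inv_anti₀ (by positivity) h1)
    rw [← one_div, le_div_iff₀ h3]
    have : (1 + b / x) * (1 + b * -(1 / x)) = 1 - (b / x) ^ 2 := by ring
    rw [this]
    nlinarith [sq_nonneg (b / x)]
  have h5 : x - 1 = x * (1 + -(1 / x)) := by
    field_simp
    ring
  rw [h5, Real.mul_rpow hx0.le h2.le]
  have h6 : x ^ (-(1 + b)) = x ^ (-b) / x := by
    rw [show -(1 + b) = -b - 1 by ring, Real.rpow_sub_one hx0.ne']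
  have h7 : 0 < x ^ (-b) := by positivity
  rw [h6]
  have h8 : x ^ (-b) * (1 + b / x) ≤ x ^ (-b) * (1 + -(1 / x)) ^ (-b) := by gcongr
  have h9 : x ^ (-b) * (1 + b / x) = x ^ (-b) + b * (x ^ (-b) / x) := by ring
  linarith

/-- the tail of the sum of `n ^ (- 1 - b)` -/
lemma tail_le {b : ℝ} (hb : 0 < b) (hb1 : b ≤ 1) {M : ℕ} (hM : 1 ≤ M) (J : ℕ) :
    ∑ j ∈ range J, ((M + 1 + j : ℕ) : ℝ) ^ (-(1 + b)) ≤ 1 / b * ((M : ℝ) ^ (-b)) := by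
  have hM0 : (0 : ℝ) < M := by exact_mod_cast hM
  have h1 : ∑ j ∈ range J, ((M + 1 + j : ℕ) : ℝ) ^ (-(1 + b)) ≤
      1 / b * ((M : ℝ) ^ (-b) - ((M + J : ℕ) : ℝ) ^ (-b)) := by
    induction J with
    | zero => simp
    | succ J ih =>
      rw [sum_range_succ]
      have h2 := tele hb hb1 (x := ((M + 1 + J : ℕ) : ℝ)) (by
        push_cast
        have : (0 : ℝ) ≤ J := Nat.cast_nonneg _
        have : (1 : ℝ) ≤ M := by exact_mod_cast hM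
        linarith)
      have h3 : ((M + 1 + J : ℕ) : ℝ) - 1 = ((M + J : ℕ) : ℝ) := by
        push_cast
        ring
      rw [h3] at h2
      have h4 : ((M + 1 + J : ℕ) : ℝ) ^ (-(1 + b)) ≤
          1 / b * (((M + J : ℕ) : ℝ) ^ (-b) - ((M + 1 + J : ℕ) : ℝ) ^ (-b)) := by
        rw [one_div, ← div_eq_inv_mul, le_div_iff₀ hb]
        linarith
      rw [show M + (J + 1) = M + 1 + J by ring]
      calc _ ≤ 1 / b * ((M : ℝ) ^ (-b) - ((M + J : ℕ) : ℝ) ^ (-b)) +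
            1 / b * (((M + J : ℕ) : ℝ) ^ (-b) - ((M + 1 + J : ℕ) : ℝ) ^ (-b)) := add_le_add ih h4
        _ = _ := by ring
  refine h1.trans ?_
  have h5 : 0 ≤ ((M + J : ℕ) : ℝ) ^ (-b) := by positivity
  have h6 : 0 < 1 / b := by positivity
  nlinarith

/-- the powers -/
lemma pow34 {n : ℕ} : ((n : ℝ) ^ (3 / 4 : ℝ)) ^ 4 = (n : ℝ) ^ 3 := by
  rw [← Real.rpow_natCast, ← Real.rpow_mul (Nat.cast_nonneg _)]
  norm_num

/-- the exponent against the product -/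
lemma amgm {c r d : ℝ} (hc : 0 < c) (hr : 0 < r) (hd : 0 ≤ d) {n : ℕ} (hn : 1 ≤ n) :
    c ^ (1 / 4 : ℝ) * (r * d ^ (3 / 4 : ℝ)) ≤ c * (r / (n : ℝ) ^ (3 / 4 : ℝ)) ^ 4 + d * n := by
  have hn0 : (0 : ℝ) < n := by exact_mod_cast hn
  have hq : (0 : ℝ) < (n : ℝ) ^ (3 / 4 : ℝ) := by positivity
  have h1 := Real.geom_mean_le_arith_mean2_weighted (w₁ := 1 / 4) (w₂ := 3 / 4)
    (p₁ := c * (r / (n : ℝ) ^ (3 / 4 : ℝ)) ^ 4) (p₂ := d * n) (by norm_num) (by norm_num) (by positivity) (by positivity)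
    (by norm_num)
  have h2 : (c * (r / (n : ℝ) ^ (3 / 4 : ℝ)) ^ 4) ^ (1 / 4 : ℝ) = c ^ (1 / 4 : ℝ) * (r / (n : ℝ) ^ (3 / 4 : ℝ)) := by
    rw [Real.mul_rpow hc.le (by positivity), ← Real.rpow_natCast, ← Real.rpow_mul (by positivity)]
    norm_num
  have h3 : (d * n) ^ (3 / 4 : ℝ) = d ^ (3 / 4 : ℝ) * (n : ℝ) ^ (3 / 4 : ℝ) := Real.mul_rpow hd hn0.le
  rw [h2, h3] at h1
  have h4 : c ^ (1 / 4 : ℝ) * (r / (n : ℝ) ^ (3 / 4 : ℝ)) * (d ^ (3 / 4 : ℝ) * (n : ℝ) ^ (3 / 4 : ℝ)) =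
      c ^ (1 / 4 : ℝ) * (r * d ^ (3 / 4 : ℝ)) := by
    field_simp
  rw [h4] at h1
  have h5 : 0 ≤ c * (r / (n : ℝ) ^ (3 / 4 : ℝ)) ^ 4 := by positivity
  have h6 : 0 ≤ d * n := by positivity
  linarith

/-- the sum without the fugacity -/
lemma base_sum {c r : ℝ} (hc : 0 < c) (hr : 1 ≤ r) (N : ℕ) :
    ∑ n ∈ Icc 1 N, (n : ℝ) ^ (-(37 / 32) : ℝ) * Real.exp (-(c * (r / (n : ℝ) ^ (3 / 4 : ℝ)) ^ 4)) ≤
      (1 / c + 64 / 5) * r ^ (-(5 / 24) : ℝ) := by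
  obtain ⟨R, hR⟩ : ∃ R, R = r ^ (4 / 3 : ℝ) := ⟨_, rfl⟩
  have hr0 : 0 < r := by linarith
  have hR1 : 1 ≤ R := by rw [hR]; exact Real.one_le_rpow hr (by norm_num)
  have hR0 : 0 < R := by linarith
  have hRr : R ^ (-(5 / 32) : ℝ) = r ^ (-(5 / 24) : ℝ) := by
    rw [hR, ← Real.rpow_mul hr0.le]
    norm_num
  have hR3 : R ^ 3 = r ^ 4 := by
    rw [hR, ← Real.rpow_natCast, ← Real.rpow_mul hr0.le]
    norm_num
  obtain ⟨M, hM⟩ : ∃ M, M = ⌊R⌋₊ := ⟨_, rfl⟩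
  have hM1 : 1 ≤ M := by rw [hM]; exact Nat.le_floor (by simpa using hR1)
  have hMR : (M : ℝ) ≤ R := by rw [hM]; exact Nat.floor_le hR0.le
  have hRM : R < M + 1 := by rw [hM]; exact Nat.lt_floor_add_one R
  have hM2 : R / 2 ≤ M := by
    have : (1 : ℝ) ≤ M := by exact_mod_cast hM1
    linarith
  -- the small numbers
  have hsmall : ∀ n : ℕ, 1 ≤ n → n ≤ M →
      (n : ℝ) ^ (-(37 / 32) : ℝ) * Real.exp (-(c * (r / (n : ℝ) ^ (3 / 4 : ℝ)) ^ 4)) ≤ 1 / c * R ^ (-(37 / 32) : ℝ) := by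
    intro n hn hnM
    have hn0 : (0 : ℝ) < n := by exact_mod_cast hn
    have hnR : (n : ℝ) ≤ R := (by exact_mod_cast hnM : (n : ℝ) ≤ M).trans hMR
    have e1 : (r / (n : ℝ) ^ (3 / 4 : ℝ)) ^ 4 = R ^ 3 / (n : ℝ) ^ 3 := by rw [div_pow, pow34, hR3]
    rw [e1]
    have hy : 0 < c * (R ^ 3 / (n : ℝ) ^ 3) := by positivity
    have h2 : Real.exp (-(c * (R ^ 3 / (n : ℝ) ^ 3))) ≤ (c * (R ^ 3 / (n : ℝ) ^ 3))⁻¹ := by
      rw [Real.exp_neg]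
      exact inv_anti₀ hy ((Real.add_one_le_exp _).trans' (by linarith))
    calc (n : ℝ) ^ (-(37 / 32) : ℝ) * Real.exp (-(c * (R ^ 3 / (n : ℝ) ^ 3)))
        ≤ (n : ℝ) ^ (-(37 / 32) : ℝ) * (c * (R ^ 3 / (n : ℝ) ^ 3))⁻¹ := by gcongr
      _ = 1 / c * ((n : ℝ) ^ (59 / 32 : ℝ) / R ^ 3) := by
          have e2 : (n : ℝ) ^ (59 / 32 : ℝ) = (n : ℝ) ^ (-(37 / 32) : ℝ) * (n : ℝ) ^ 3 := by
            rw [← Real.rpow_natCast, ← Real.rpow_add hn0]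
            norm_num
          rw [e2]
          field_simp
      _ ≤ 1 / c * (R ^ (59 / 32 : ℝ) / R ^ 3) := by gcongr
      _ = 1 / c * R ^ (-(37 / 32) : ℝ) := by
          congr 1
          rw [← Real.rpow_natCast, ← Real.rpow_sub hR0]
          norm_num
  -- the large numbers
  have hbig : ∀ n : ℕ, 1 ≤ n →
      (n : ℝ) ^ (-(37 / 32) : ℝ) * Real.exp (-(c * (r / (n : ℝ) ^ (3 / 4 : ℝ)) ^ 4)) ≤ (n : ℝ) ^ (-(1 + 5 / 32) : ℝ) := by
    intro n hn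
    have h1 : Real.exp (-(c * (r / (n : ℝ) ^ (3 / 4 : ℝ)) ^ 4)) ≤ 1 := by
      rw [Real.exp_le_one_iff]
      have : 0 ≤ c * (r / (n : ℝ) ^ (3 / 4 : ℝ)) ^ 4 := by positivity
      linarith
    have h2 : (-(37 / 32) : ℝ) = -(1 + 5 / 32) := by norm_num
    rw [h2]
    exact mul_le_of_le_one_right (by positivity) h1
  have hterm : ∀ n ∈ Icc 1 N, 0 ≤ (n : ℝ) ^ (-(37 / 32) : ℝ) * Real.exp (-(c * (r / (n : ℝ) ^ (3 / 4 : ℝ)) ^ 4)) :=
    fun n _ => by positivity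
  have hsub : Icc 1 N ⊆ Icc 1 M ∪ (range N).image (fun j => M + 1 + j) := by
    intro n hn
    rw [mem_Icc] at hn
    rw [mem_union, mem_Icc, mem_image]
    rcases Nat.lt_or_ge M n with h1 | h1
    · right
      exact ⟨n - (M + 1), mem_range.2 (by omega), by omega⟩
    · left
      exact ⟨hn.1, h1⟩
  refine (sum_le_sum_of_subset_of_nonneg hsub (fun n _ _ => by positivity)).trans ?_
  have hui := sum_union_inter (s₁ := Icc 1 M) (s₂ := (range N).image (fun j => M + 1 + j))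
    (f := fun n : ℕ => (n : ℝ) ^ (-(37 / 32) : ℝ) * Real.exp (-(c * (r / (n : ℝ) ^ (3 / 4 : ℝ)) ^ 4)))
  have hin : 0 ≤ ∑ n ∈ Icc 1 M ∩ (range N).image (fun j => M + 1 + j),
      (n : ℝ) ^ (-(37 / 32) : ℝ) * Real.exp (-(c * (r / (n : ℝ) ^ (3 / 4 : ℝ)) ^ 4)) :=
    sum_nonneg fun n _ => by positivity
  have hA : ∑ n ∈ Icc 1 M, (n : ℝ) ^ (-(37 / 32) : ℝ) * Real.exp (-(c * (r / (n : ℝ) ^ (3 / 4 : ℝ)) ^ 4)) ≤
      1 / c * R ^ (-(5 / 32) : ℝ) := by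
    refine (sum_le_sum fun n hn => hsmall n (mem_Icc.1 hn).1 (mem_Icc.1 hn).2).trans ?_
    rw [sum_const, Nat.card_Icc, nsmul_eq_mul, Nat.add_sub_cancel]
    have e3 : R ^ (-(5 / 32) : ℝ) = R * R ^ (-(37 / 32) : ℝ) := by
      rw [← Real.rpow_one_add' hR0.le (by norm_num)]
      norm_num
    rw [e3]
    calc (M : ℝ) * (1 / c * R ^ (-(37 / 32) : ℝ)) ≤ R * (1 / c * R ^ (-(37 / 32) : ℝ)) := by gcongr
      _ = _ := by ring
  have hB : ∑ n ∈ (range N).image (fun j => M + 1 + j),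
      (n : ℝ) ^ (-(37 / 32) : ℝ) * Real.exp (-(c * (r / (n : ℝ) ^ (3 / 4 : ℝ)) ^ 4)) ≤
      64 / 5 * R ^ (-(5 / 32) : ℝ) := by
    rw [sum_image (fun a _ b _ h => by simpa using h)]
    refine (sum_le_sum fun j _ => hbig (M + 1 + j) (by omega)).trans ?_
    refine (tail_le (b := 5 / 32) (by norm_num) (by norm_num) hM1 N).trans ?_
    have h1 : (M : ℝ) ^ (-(5 / 32) : ℝ) ≤ (R / 2) ^ (-(5 / 32) : ℝ) :=
      Real.rpow_le_rpow_of_nonpos (by positivity) hM2 (by norm_num)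
    have h2 : (R / 2) ^ (-(5 / 32) : ℝ) ≤ 2 * R ^ (-(5 / 32) : ℝ) := by
      rw [Real.div_rpow hR0.le (by norm_num), div_le_iff₀ (by positivity)]
      have h3 : (1 : ℝ) ≤ 2 * 2 ^ (-(5 / 32) : ℝ) := by
        rw [← Real.rpow_one_add' (by norm_num) (by norm_num)]
        exact Real.one_le_rpow (by norm_num) (by norm_num)
      have h4 : 0 < R ^ (-(5 / 32) : ℝ) := by positivity
      nlinarith
    nlinarith
  have hfin : (1 / c + 64 / 5) * r ^ (-(5 / 24) : ℝ) = 1 / c * R ^ (-(5 / 32) : ℝ) + 64 / 5 * R ^ (-(5 / 32) : ℝ) := by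
    rw [hRr]
    ring
  rw [hfin]
  linarith

/-- **the upper bound** -/
theorem up_sum {c C : ℝ} (hc : 0 < c) (hC : 0 < C) : ∃ A κ : ℝ, 0 < A ∧ 0 < κ ∧ ∀ (r d : ℝ) (p : ℕ → ℝ), 1 ≤ r → 0 ≤ d →
    (∀ n, 0 ≤ p n) → p 0 = 0 →
    (∀ n : ℕ, 1 ≤ n → p n ≤ C * (n : ℝ) ^ (-(37 / 32) : ℝ) * Real.exp (-(c * (r / (n : ℝ) ^ (3 / 4 : ℝ)) ^ 4))) →
    ∀ q : ℝ, 0 ≤ q → q ≤ Real.exp (-d) → Summable (fun n => p n * q ^ n) ∧
      ∑' n, p n * q ^ n ≤ A * (r ^ (-(5 / 24) : ℝ) * Real.exp (-(κ * (r * d ^ (3 / 4 : ℝ))))) := by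
  obtain ⟨κ, hκ⟩ : ∃ κ : ℝ, κ = (c / 2) ^ (1 / 4 : ℝ) := ⟨_, rfl⟩
  refine ⟨C * (1 / (c / 2) + 64 / 5), κ, by positivity, by rw [hκ]; positivity, fun r d p hr hd hp0 hp1 hp q hq0 hq => ?_⟩
  have hr0 : 0 < r := by linarith
  have hterm : ∀ n : ℕ, 1 ≤ n → p n * q ^ n ≤ C * Real.exp (-(κ * (r * d ^ (3 / 4 : ℝ)))) *
      ((n : ℝ) ^ (-(37 / 32) : ℝ) * Real.exp (-((c / 2) * (r / (n : ℝ) ^ (3 / 4 : ℝ)) ^ 4))) := by
    intro n hn
    have h1 := amgm (c := c / 2) (by positivity) hr0 hd hn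
    have h2 : q ^ n ≤ Real.exp (-(d * n)) := by
      calc q ^ n ≤ Real.exp (-d) ^ n := pow_le_pow_left₀ hq0 hq n
        _ = _ := by
            rw [← Real.exp_nat_mul]
            congr 1
            ring
    calc p n * q ^ n ≤ (C * (n : ℝ) ^ (-(37 / 32) : ℝ) * Real.exp (-(c * (r / (n : ℝ) ^ (3 / 4 : ℝ)) ^ 4))) *
          Real.exp (-(d * n)) := mul_le_mul (hp n hn) h2 (by positivity) (by positivity)
      _ = C * (n : ℝ) ^ (-(37 / 32) : ℝ) * Real.exp (-((c / 2) * (r / (n : ℝ) ^ (3 / 4 : ℝ)) ^ 4)) *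
          Real.exp (-((c / 2) * (r / (n : ℝ) ^ (3 / 4 : ℝ)) ^ 4 + d * n)) := by
          rw [mul_assoc, ← Real.exp_add, mul_assoc (C * (n : ℝ) ^ (-(37 / 32) : ℝ)), ← Real.exp_add]
          congr 2
          ring
      _ ≤ C * (n : ℝ) ^ (-(37 / 32) : ℝ) * Real.exp (-((c / 2) * (r / (n : ℝ) ^ (3 / 4 : ℝ)) ^ 4)) *
          Real.exp (-(κ * (r * d ^ (3 / 4 : ℝ)))) := by
          rw [← hκ] at h1
          gcongr
      _ = _ := by ring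
  have hsum : ∀ N, ∑ n ∈ range N, p n * q ^ n ≤ C * (1 / (c / 2) + 64 / 5) *
      (r ^ (-(5 / 24) : ℝ) * Real.exp (-(κ * (r * d ^ (3 / 4 : ℝ))))) := by
    intro N
    have h1 : ∑ n ∈ range N, p n * q ^ n ≤ ∑ n ∈ Icc 1 N, p n * q ^ n := by
      have h2 : range N ⊆ insert 0 (Icc 1 N) := by
        intro n hn
        rw [mem_range] at hn
        rw [mem_insert, mem_Icc]
        omega
      refine (sum_le_sum_of_subset_of_nonneg h2 (fun n _ _ => mul_nonneg (hp0 n) (by positivity))).trans ?_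
      rw [sum_insert (by simp), hp1, zero_mul, zero_add]
    refine h1.trans ((sum_le_sum fun n hn => hterm n (mem_Icc.1 hn).1).trans ?_)
    rw [← mul_sum]
    have h3 := base_sum (c := c / 2) (by positivity) hr N
    calc C * Real.exp (-(κ * (r * d ^ (3 / 4 : ℝ)))) * _ ≤
        C * Real.exp (-(κ * (r * d ^ (3 / 4 : ℝ)))) * ((1 / (c / 2) + 64 / 5) * r ^ (-(5 / 24) : ℝ)) := by gcongr
      _ = _ := by ring
  have hn : ∀ n, 0 ≤ p n * q ^ n := fun n => mul_nonneg (hp0 n) (by positivity)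
  exact ⟨summable_of_sum_range_le hn hsum, Real.tsum_le_of_sum_range_le hn hsum⟩

/-- the size of the window -/
lemma window {θ r d : ℝ} (hθ : 0 < θ) (hθ1 : θ ≤ 1) (hr : (8 / θ) ^ 3 ≤ r) (hd : 0 ≤ d) (hd0 : d ≤ (θ / 8) ^ 4) :
    ∃ N : ℝ, 8 * r ≤ N ∧ N ≤ θ * r ^ (4 / 3 : ℝ) ∧ d * N ≤ 1 + r * d ^ (3 / 4 : ℝ) ∧
      r ^ 4 / N ^ 3 ≤ θ⁻¹ ^ 3 * (1 + r * d ^ (3 / 4 : ℝ)) := by
  have hr0 : 0 < r := lt_of_lt_of_le (by positivity) hr
  have hr3 : 8 / θ ≤ r ^ (1 / 3 : ℝ) := by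
    have h1 : ((8 / θ) ^ 3) ^ (1 / 3 : ℝ) ≤ r ^ (1 / 3 : ℝ) := Real.rpow_le_rpow (by positivity) hr (by norm_num)
    rw [← Real.rpow_natCast, ← Real.rpow_mul (by positivity)] at h1
    norm_num at h1
    exact h1
  have hr43 : r ^ (4 / 3 : ℝ) = r * r ^ (1 / 3 : ℝ) := by
    rw [← Real.rpow_one_add' hr0.le (by norm_num)]
    norm_num
  rcases le_or_gt (r * d ^ (3 / 4 : ℝ)) 1 with hD | hD
  · refine ⟨θ * r ^ (4 / 3 : ℝ), ?_, le_rfl, ?_, ?_⟩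
    · rw [hr43]
      calc 8 * r = θ * (r * (8 / θ)) := by field_simp
        _ ≤ _ := by gcongr
    · have h1 : d * (θ * r ^ (4 / 3 : ℝ)) = θ * (r * d ^ (3 / 4 : ℝ)) ^ (4 / 3 : ℝ) := by
        rw [Real.mul_rpow hr0.le (by positivity), ← Real.rpow_mul hd]
        norm_num
        ring
      have h2 : (r * d ^ (3 / 4 : ℝ)) ^ (4 / 3 : ℝ) ≤ 1 := Real.rpow_le_one (by positivity) hD (by norm_num)
      have h3 : 0 ≤ r * d ^ (3 / 4 : ℝ) := by positivity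
      rw [h1]
      nlinarith
    · have h1 : (θ * r ^ (4 / 3 : ℝ)) ^ 3 = θ ^ 3 * r ^ 4 := by
        rw [mul_pow, ← Real.rpow_natCast (r ^ (4 / 3 : ℝ)), ← Real.rpow_mul hr0.le]
        norm_num
      have h3 : 0 ≤ r * d ^ (3 / 4 : ℝ) := by positivity
      rw [h1, inv_pow, show r ^ 4 / (θ ^ 3 * r ^ 4) = (θ ^ 3)⁻¹ by field_simp]
      have h4 : 0 < (θ ^ 3)⁻¹ := by positivity
      nlinarith
  · have hd1 : 0 < d := by
      rcases hd.eq_or_lt with h0 | h0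
      · rw [← h0, Real.zero_rpow (by norm_num), mul_zero] at hD
        linarith
      · exact h0
    have hd4 : d ^ (1 / 4 : ℝ) ≤ θ / 8 := by
      have h1 : d ^ (1 / 4 : ℝ) ≤ ((θ / 8) ^ 4) ^ (1 / 4 : ℝ) := Real.rpow_le_rpow hd hd0 (by norm_num)
      rw [← Real.rpow_natCast ((θ / 8)) 4, ← Real.rpow_mul (by positivity)] at h1
      norm_num at h1
      exact h1
    have hd4p : 0 < d ^ (1 / 4 : ℝ) := by positivity
    have hm : d ^ (3 / 4 : ℝ) = d / d ^ (1 / 4 : ℝ) := by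
      rw [eq_div_iff hd4p.ne', ← Real.rpow_add hd1]
      norm_num
    refine ⟨θ * r / d ^ (1 / 4 : ℝ), ?_, ?_, ?_, ?_⟩
    · rw [le_div_iff₀ hd4p]
      calc 8 * r * d ^ (1 / 4 : ℝ) ≤ 8 * r * (θ / 8) := by gcongr
        _ = _ := by ring
    · rw [hr43, mul_div_assoc, div_eq_mul_inv]
      have h1 : (d ^ (1 / 4 : ℝ))⁻¹ ≤ r ^ (1 / 3 : ℝ) := by
        have h2 : 1 ≤ (r * d ^ (3 / 4 : ℝ)) ^ (1 / 3 : ℝ) := Real.one_le_rpow hD.le (by norm_num)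
        rw [Real.mul_rpow hr0.le (by positivity), ← Real.rpow_mul hd] at h2
        rw [show (3 / 4 * (1 / 3) : ℝ) = 1 / 4 by norm_num] at h2
        rw [inv_le_iff_one_le_mul₀ hd4p]
        exact h2
      gcongr
    · have h1 : d * (θ * r / d ^ (1 / 4 : ℝ)) = θ * (r * d ^ (3 / 4 : ℝ)) := by
        rw [hm]
        ring
      have h3 : 0 ≤ r * d ^ (3 / 4 : ℝ) := by positivity
      rw [h1]
      nlinarith
    · have h1 : r ^ 4 / (θ * r / d ^ (1 / 4 : ℝ)) ^ 3 = θ⁻¹ ^ 3 * (r * (d ^ (1 / 4 : ℝ)) ^ 3) := by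
        field_simp
      have h2 : (d ^ (1 / 4 : ℝ)) ^ 3 = d ^ (3 / 4 : ℝ) := by
        rw [← Real.rpow_natCast, ← Real.rpow_mul hd]
        norm_num
      rw [h1, h2]
      have h4 : 0 < θ⁻¹ ^ 3 := by positivity
      nlinarith

/-- `exp (- 2 d)` is at most `1 - d` -/
lemma exp_two {d : ℝ} (hd : 0 ≤ d) (hd1 : d ≤ 1 / 2) : Real.exp (-(2 * d)) ≤ 1 - d := by
  have h1 : 1 + d + d ^ 2 / 2 ≤ Real.exp d := Real.quadratic_le_exp_of_nonneg hd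
  have h2 : Real.exp (2 * d) = Real.exp d ^ 2 := by
    rw [← Real.exp_nat_mul]
    norm_num
  have h3 : 0 < 1 - d := by linarith
  rw [Real.exp_neg, inv_le_comm₀ (Real.exp_pos _) h3, ← one_div, div_le_iff₀ h3, h2]
  have h4 : (1 + d) ^ 2 ≤ Real.exp d ^ 2 := pow_le_pow_left₀ (by linarith) (by nlinarith) 2
  have h5 : 1 ≤ (1 + d) ^ 2 * (1 - d) := by nlinarith
  nlinarith

/-- **the lower bound** -/
theorem low_sum {c C K C2 : ℝ} (hc : 0 < c) (hC : 0 < C) (hK : 0 < K) (hC2 : 0 < C2) : ∃ a κ : ℝ, 0 < a ∧ 0 < κ ∧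
    ∀ (r d : ℝ) (b : ℕ) (p : ℕ → ℝ), 1 ≤ r → 0 ≤ d → d ≤ 1 / 2 → b < 2 → (∀ n, 0 ≤ p n) →
    (∀ n : ℕ, 1 ≤ n → n % 2 = b → 2 * r ≤ n → K * (n : ℝ) ^ (3 / 4 : ℝ) ≤ r →
      c * (n : ℝ) ^ (-(37 / 32) : ℝ) * Real.exp (-(C * (r / (n : ℝ) ^ (3 / 4 : ℝ)) ^ 4)) ≤ p n) →
    (∃ n1 : ℕ, (n1 : ℝ) ≤ 2 * r ∧ Real.exp (-(C2 * n1)) ≤ p n1) → Summable (fun n => p n * (1 - d) ^ n) →
    a * (r ^ (-(5 / 24) : ℝ) * Real.exp (-(κ * (r * d ^ (3 / 4 : ℝ))))) ≤ ∑' n, p n * (1 - d) ^ n := by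
  obtain ⟨θ, hθ⟩ : ∃ θ : ℝ, θ = min 1 (K ^ (-(4 / 3) : ℝ)) := ⟨_, rfl⟩
  have hθ0 : 0 < θ := by rw [hθ]; exact lt_min one_pos (by positivity)
  have hθ1 : θ ≤ 1 := by rw [hθ]; exact min_le_left _ _
  have hθK : K * θ ^ (3 / 4 : ℝ) ≤ 1 := by
    have h1 : θ ^ (3 / 4 : ℝ) ≤ (K ^ (-(4 / 3) : ℝ)) ^ (3 / 4 : ℝ) :=
      Real.rpow_le_rpow hθ0.le (by rw [hθ]; exact min_le_right _ _) (by norm_num)
    rw [← Real.rpow_mul hK.le] at h1
    norm_num at h1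
    rw [Real.rpow_neg_one] at h1
    calc K * θ ^ (3 / 4 : ℝ) ≤ K * K⁻¹ := by gcongr
      _ = 1 := mul_inv_cancel₀ hK.ne'
  obtain ⟨κ1, hκ1⟩ : ∃ κ1 : ℝ, κ1 = 8 * C * θ⁻¹ ^ 3 + 2 := ⟨_, rfl⟩
  have hκ10 : 0 < κ1 := by rw [hκ1]; positivity
  obtain ⟨κ2, hκ2⟩ : ∃ κ2 : ℝ, κ2 = 2 * (C2 + 1) / ((θ / 8) ^ 4) ^ (3 / 4 : ℝ) := ⟨_, rfl⟩
  have hκ20 : 0 < κ2 := by rw [hκ2]; positivity
  obtain ⟨r1, hr1⟩ : ∃ r1 : ℝ, r1 = (8 / θ) ^ 3 := ⟨_, rfl⟩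
  have hr1p : 0 < r1 := by rw [hr1]; positivity
  obtain ⟨a, ha⟩ : ∃ a : ℝ, a = min (c / 16 * Real.exp (-κ1)) (Real.exp (-(2 * (C2 + 1) * r1))) := ⟨_, rfl⟩
  have ha0 : 0 < a := by rw [ha]; exact lt_min (by positivity) (by positivity)
  have ha1 : a ≤ c / 16 * Real.exp (-κ1) := by rw [ha]; exact min_le_left _ _
  have ha2 : a ≤ Real.exp (-(2 * (C2 + 1) * r1)) := by rw [ha]; exact min_le_right _ _
  refine ⟨a, κ1 + κ2, ha0, by positivity, fun r d b p hr hd hd1 hb hp0 hp hn1 hsum => ?_⟩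
  have hr0 : 0 < r := by linarith
  have hq0 : 0 ≤ 1 - d := by linarith
  have hexp : ∀ n : ℕ, Real.exp (-(2 * d * n)) ≤ (1 - d) ^ n := by
    intro n
    have h1 := pow_le_pow_left₀ (Real.exp_pos _).le (exp_two hd hd1) n
    rw [← Real.exp_nat_mul] at h1
    refine le_trans (le_of_eq ?_) h1
    congr 1
    ring
  have hterm0 : ∀ n, 0 ≤ p n * (1 - d) ^ n := fun n => mul_nonneg (hp0 n) (pow_nonneg hq0 n)
  obtain ⟨D, hD⟩ : ∃ D, D = r * d ^ (3 / 4 : ℝ) := ⟨_, rfl⟩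
  have hD0 : 0 ≤ D := by rw [hD]; positivity
  rw [← hD]
  have hr24 : r ^ (-(5 / 24) : ℝ) ≤ 1 := Real.rpow_le_one_of_one_le_of_nonpos hr (by norm_num)
  have hr24p : 0 < r ^ (-(5 / 24) : ℝ) := by positivity
  -- one term
  have hone : Real.exp (-(2 * (C2 + 1) * r)) ≤ ∑' n, p n * (1 - d) ^ n := by
    obtain ⟨n1, h1, h2⟩ := hn1
    refine le_trans ?_ (hsum.le_tsum n1 fun n _ => hterm0 n)
    calc Real.exp (-(2 * (C2 + 1) * r)) ≤ Real.exp (-(C2 * n1)) * Real.exp (-(2 * d * n1)) := by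
          rw [← Real.exp_add]
          apply Real.exp_le_exp.2
          have h3 : (0 : ℝ) ≤ n1 := Nat.cast_nonneg _
          nlinarith
      _ ≤ _ := mul_le_mul h2 (hexp n1) (by positivity) (hp0 n1)
  have hD1 : Real.exp (-((κ1 + κ2) * D)) ≤ 1 := by
    rw [Real.exp_le_one_iff]
    have : 0 ≤ (κ1 + κ2) * D := by positivity
    linarith
  rcases lt_or_ge r r1 with hrr | hrr
  · refine le_trans ?_ hone
    have h1 : Real.exp (-(2 * (C2 + 1) * r1)) ≤ Real.exp (-(2 * (C2 + 1) * r)) := by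
      apply Real.exp_le_exp.2
      nlinarith
    refine (ha2.trans h1).trans' ?_
    refine mul_le_of_le_one_right ha0.le ?_
    exact mul_le_one₀ hr24 (Real.exp_pos _).le hD1
  rcases lt_or_ge ((θ / 8) ^ 4) d with hdd | hdd
  · refine le_trans ?_ hone
    have h1 : a ≤ 1 := ha2.trans (by
      rw [Real.exp_le_one_iff]
      have : 0 ≤ 2 * (C2 + 1) * r1 := by positivity
      linarith)
    have h2 : Real.exp (-((κ1 + κ2) * D)) ≤ Real.exp (-(2 * (C2 + 1) * r)) := by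
      apply Real.exp_le_exp.2
      have h3 : ((θ / 8) ^ 4) ^ (3 / 4 : ℝ) ≤ d ^ (3 / 4 : ℝ) := Real.rpow_le_rpow (by positivity) hdd.le (by norm_num)
      have h4 : 2 * (C2 + 1) * r ≤ κ2 * D := by
        rw [hκ2, hD, div_mul_eq_mul_div, le_div_iff₀ (by positivity)]
        calc 2 * (C2 + 1) * r * ((θ / 8) ^ 4) ^ (3 / 4 : ℝ) ≤ 2 * (C2 + 1) * r * d ^ (3 / 4 : ℝ) := by gcongr
          _ = _ := by ring
      have h5 : 0 ≤ κ1 * D := by positivity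
      linarith
    calc a * (r ^ (-(5 / 24) : ℝ) * Real.exp (-((κ1 + κ2) * D))) ≤ 1 * (1 * Real.exp (-(2 * (C2 + 1) * r))) := by gcongr
      _ = _ := by ring
  -- the window
  obtain ⟨N, hN8, hNr, hdN, hrN⟩ :=
    window (r := r) hθ0 hθ1 (by rw [← hr1]; exact hrr) hd hdd
  rw [← hD] at hdN hrN
  have hr8 : 8 ≤ r := by
    have h1 : (8 : ℝ) ≤ 8 / θ := by
      rw [le_div_iff₀ hθ0]
      linarith
    have h2 : (8 / θ) ≤ (8 / θ) ^ 3 := by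
      have : (1 : ℝ) ≤ 8 / θ := by linarith
      exact le_self_pow₀ this (by norm_num)
    rw [hr1] at hrr
    linarith
  have hN0 : 0 < N := by linarith
  have hN64 : 64 ≤ N := by linarith
  obtain ⟨M, hM⟩ : ∃ M, M = ⌈N / 4⌉₊ := ⟨_, rfl⟩
  have hM1 : N / 4 ≤ M := by rw [hM]; exact Nat.le_ceil _
  have hM2 : (M : ℝ) < N / 4 + 1 := by rw [hM]; exact Nat.ceil_lt_add_one (by positivity)
  obtain ⟨J, hJ⟩ : ∃ J, J = ⌊N / 16⌋₊ + 1 := ⟨_, rfl⟩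
  have hJ1 : N / 16 ≤ J := by
    rw [hJ]
    push_cast
    exact (Nat.lt_floor_add_one _).le
  have hJ2 : (J : ℝ) ≤ N / 16 + 1 := by
    rw [hJ]
    push_cast
    have := Nat.floor_le (show 0 ≤ N / 16 by positivity)
    linarith
  obtain ⟨T, hT⟩ : ∃ T : ℝ, T = c * N ^ (-(37 / 32) : ℝ) * Real.exp (-(κ1 * (1 + D))) := ⟨_, rfl⟩
  have hT0 : 0 < T := by rw [hT]; positivity
  have hnj : ∀ j, j < J → T ≤ p (2 * (M + j) + b) * (1 - d) ^ (2 * (M + j) + b) := by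
    intro j hj
    obtain ⟨n, hn⟩ : ∃ n, n = 2 * (M + j) + b := ⟨_, rfl⟩
    rw [← hn]
    have hnr : (n : ℝ) = 2 * (M + j) + b := by rw [hn]; push_cast; ring
    have hj' : (j : ℝ) + 1 ≤ J := by exact_mod_cast hj
    have hj0 : (0 : ℝ) ≤ j := Nat.cast_nonneg _
    have hb' : (b : ℝ) ≤ 1 := by exact_mod_cast (show b ≤ 1 by omega)
    have hb0 : (0 : ℝ) ≤ b := Nat.cast_nonneg _
    have hn1 : N / 2 ≤ n := by rw [hnr]; linarith
    have hn2 : (n : ℝ) ≤ N := by rw [hnr]; linarith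
    have hn0 : (0 : ℝ) < n := by linarith
    have hn4 : 1 ≤ n := by
      have : n ≠ 0 := by
        rintro rfl
        simp at hn0
      omega
    have h1 := hp n hn4 (by omega) (by linarith) (by
      calc K * (n : ℝ) ^ (3 / 4 : ℝ) ≤ K * (θ * r ^ (4 / 3 : ℝ)) ^ (3 / 4 : ℝ) := by
            gcongr
            exact hn2.trans hNr
        _ = K * θ ^ (3 / 4 : ℝ) * r := by
            rw [Real.mul_rpow hθ0.le (by positivity), ← Real.rpow_mul hr0.le]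
            norm_num
            ring
        _ ≤ 1 * r := by gcongr
        _ = r := one_mul r)
    have h2 : (r / (n : ℝ) ^ (3 / 4 : ℝ)) ^ 4 ≤ 8 * θ⁻¹ ^ 3 * (1 + D) := by
      rw [div_pow, pow34]
      calc r ^ 4 / (n : ℝ) ^ 3 ≤ r ^ 4 / (N / 2) ^ 3 := by gcongr
        _ = 8 * (r ^ 4 / N ^ 3) := by
            field_simp
            norm_num
        _ ≤ 8 * (θ⁻¹ ^ 3 * (1 + D)) := by gcongr
        _ = _ := by ring
    have h3 : N ^ (-(37 / 32) : ℝ) ≤ (n : ℝ) ^ (-(37 / 32) : ℝ) := Real.rpow_le_rpow_of_nonpos hn0 hn2 (by norm_num)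
    have h4 : Real.exp (-(2 * (1 + D))) ≤ (1 - d) ^ n := by
      refine le_trans (Real.exp_le_exp.2 ?_) (hexp n)
      have : d * n ≤ d * N := by gcongr
      linarith
    calc T = (c * N ^ (-(37 / 32) : ℝ) * Real.exp (-(C * (8 * θ⁻¹ ^ 3 * (1 + D))))) * Real.exp (-(2 * (1 + D))) := by
          rw [hT, hκ1, mul_assoc (c * N ^ (-(37 / 32) : ℝ)), ← Real.exp_add]
          congr 2
          ring
      _ ≤ (c * (n : ℝ) ^ (-(37 / 32) : ℝ) * Real.exp (-(C * (r / (n : ℝ) ^ (3 / 4 : ℝ)) ^ 4))) * (1 - d) ^ n := by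
          gcongr
      _ ≤ _ := mul_le_mul_of_nonneg_right h1 (pow_nonneg hq0 n)
  have hS : (J : ℝ) * T ≤ ∑' n, p n * (1 - d) ^ n := by
    have h1 : ∑ n ∈ (range J).image (fun j => 2 * (M + j) + b), p n * (1 - d) ^ n ≤ ∑' n, p n * (1 - d) ^ n :=
      hsum.sum_le_tsum _ fun n _ => hterm0 n
    refine le_trans ?_ h1
    have hinj : Function.Injective (fun j : ℕ => 2 * (M + j) + b) := by
      intro x y h
      simp only at h
      omega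
    rw [sum_image hinj.injOn]
    have h2 : (J : ℝ) * T = ∑ j ∈ range J, T := by rw [sum_const, card_range, nsmul_eq_mul]
    rw [h2]
    exact sum_le_sum fun j hj => hnj j (mem_range.1 hj)
  refine le_trans ?_ hS
  have h5 : r ^ (-(5 / 24) : ℝ) ≤ N ^ (-(5 / 32) : ℝ) := by
    have h6 : N ≤ r ^ (4 / 3 : ℝ) := hNr.trans (mul_le_of_le_one_left (by positivity) hθ1)
    have h7 := Real.rpow_le_rpow_of_nonpos hN0 h6 (show (-(5 / 32) : ℝ) ≤ 0 by norm_num)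
    rw [← Real.rpow_mul hr0.le] at h7
    refine le_trans (le_of_eq ?_) h7
    congr 1
    norm_num
  have h6 : N * N ^ (-(37 / 32) : ℝ) = N ^ (-(5 / 32) : ℝ) := by
    rw [← Real.rpow_one_add' hN0.le (by norm_num)]
    norm_num
  have h7 : Real.exp (-((κ1 + κ2) * D)) ≤ Real.exp (-(κ1 * D)) := by
    apply Real.exp_le_exp.2
    have : 0 ≤ κ2 * D := by positivity
    linarith
  calc a * (r ^ (-(5 / 24) : ℝ) * Real.exp (-((κ1 + κ2) * D)))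
      ≤ (c / 16 * Real.exp (-κ1)) * (N ^ (-(5 / 32) : ℝ) * Real.exp (-(κ1 * D))) := by gcongr
    _ = N / 16 * T := by
        rw [hT, ← h6, show -(κ1 * (1 + D)) = -κ1 + -(κ1 * D) by ring, Real.exp_add]
        ring
    _ ≤ J * T := by gcongr

end NC

end TPF

end HexObs
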