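import Pool.Agent.TPF.Vert
import Pool.Agent.TPF.Fin
import Pool.Agent.XI72.E

/-!
# TPF (two-point function of the plane): the public form (helper29)

* `LowQ a`, `UpQ b`: the bounds for words, with the powers `D ^ (- a)`, `D ^ (- b)`;
* **`pub`**: from these and finiteness: `c |x| ^ (- a) ≤ G(x) ≤ C |x| ^ (- b)` for every vertex `x ≠ 0`.
-/

set_option autoImplicit false

namespace HexObs

namespace TPF

open Finset SDN SawNu XI72 HexObs.PHWDict

open scoped ENNReal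

/-- the lower bound for words -/
def LowQ (a : ℝ) : Prop := ∃ (c : ℝ) (D0 : ℕ), 0 < c ∧ ∀ (q : HexObs.Pt) (D : ℕ) (b : Bool), D0 ≤ D → ip q up = D →
  |q.1| ≤ D → (3 : ℤ) ∣ ip q up - (if b then 2 else 0) →
  ENNReal.ofReal (c * (D : ℝ) ^ (-a)) ≤ ∑ g ∈ Rot3, gf (SE (mulE g q))

/-- the upper bound for words -/
def UpQ (b : ℝ) : Prop := ∃ (C : ℝ) (D0 : ℕ), 0 < C ∧ ∀ (q : HexObs.Pt) (D : ℕ), D0 ≤ D →
  ((D : ℤ) ≤ |lvl false q| ∨ (D : ℤ) ≤ |lvl true q|) → gf (SE q) ≤ ENNReal.ofReal (C * (D : ℝ) ^ (-b))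

lemma vert_pt {l : List SawNu.Pt} (h : TW hexL.S false l) :
    ∃ (q : HexObs.Pt) (b : Bool), l.sum = -HexMu.psi q ∧ (3 : ℤ) ∣ ip q up - (if b then 2 else 0) := by
  obtain ⟨q, h1, h2⟩ := vert_of h
  refine ⟨q, l.length.bodd, h1, ?_⟩
  unfold mc at h2
  simpa using h2

lemma nrm_mulE_rot {g : HexObs.Pt} (hg : g ∈ Rot3) (q : HexObs.Pt) : nrm (mulE g q) = nrm q := by
  rw [nrm_mulE, rot3_nrm hg, one_mul]

/-- the upper bound for the walks -/
lemma up_pt {b : ℝ} (hb : 0 ≤ b) (h : UpQ b) : ∃ (C r : ℝ), 0 < C ∧ ∀ q : HexObs.Pt,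
    r ≤ ‖phiTri (-HexMu.psi q)‖ → Gd (ENNReal.ofReal xc) (-HexMu.psi q) ≤
      ENNReal.ofReal (C * ‖phiTri (-HexMu.psi q)‖ ^ (-b)) := by
  obtain ⟨C, D0, hC, h⟩ := h
  refine ⟨3 / 2 * C * 2 ^ b, D0 + 1, by positivity, fun q hq => ?_⟩
  obtain ⟨N, hN⟩ : ∃ N, N = ‖phiTri (-HexMu.psi q)‖ := ⟨_, rfl⟩
  rw [← hN] at hq ⊢
  have hD00 : (0 : ℝ) ≤ D0 := Nat.cast_nonneg _
  have hN1 : 1 ≤ N := by linarith
  have hN0 : 0 < N := by linarith
  obtain ⟨D, hD⟩ : ∃ D, D = ⌊N⌋₊ := ⟨_, rfl⟩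
  have hD1 : (D : ℝ) ≤ N := hD ▸ Nat.floor_le hN0.le
  have hD2 : N / 2 ≤ D := by
    have := Nat.lt_floor_add_one N
    rw [← hD] at this
    have h1 : 1 ≤ D := by
      rw [hD]
      exact (Nat.one_le_floor_iff _).2 hN1
    have h2 : (1 : ℝ) ≤ D := by exact_mod_cast h1
    linarith
  have hD3 : D0 ≤ D := by
    have := Nat.lt_floor_add_one N
    rw [← hD] at this
    have h2 : (D0 : ℝ) < D + 1 := by linarith
    have h3 : D0 < D + 1 := by exact_mod_cast h2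
    omega
  have hq0 : q ≠ oo := by
    rintro rfl
    rw [norm_eq_zero.2 (show phiTri (-HexMu.psi oo) = 0 by
      have : (-HexMu.psi oo : SawNu.Pt) = 0 := by simp only [HexMu.psi]; rfl
      rw [this, map_zero])] at hN
    linarith
  have key : ∀ g ∈ Rot3, gf (SE (mulE g q)) ≤ ENNReal.ofReal (C * (D : ℝ) ^ (-b)) := by
    intro g hg
    apply h _ D hD3
    by_contra hcon
    rw [not_or, not_le, not_le] at hcon
    have h1 := norm_sq q
    rw [← hN, ← nrm_mulE_rot hg q] at h1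
    generalize mulE g q = p at hcon h1
    have h2 : (3 * nrm p : ℤ) = lvl false p ^ 2 - lvl false p * (-lvl true p) + (-lvl true p) ^ 2 := by
      unfold lvl hd nrm ip up
      simp
      ring
    have h3 := abs_lt.1 hcon.1
    have h4 := abs_lt.1 hcon.2
    have h5 : (nrm p : ℤ) < (D : ℤ) ^ 2 := by
      generalize lvl false p = u at h2 h3
      generalize lvl true p = w at h2 h4
      nlinarith [mul_pos (show (0:ℤ) < D - u by linarith) (show (0:ℤ) < D + u by linarith),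
        mul_pos (show (0:ℤ) < D - w by linarith) (show (0:ℤ) < D + w by linarith),
        mul_pos (show (0:ℤ) < D - u by linarith) (show (0:ℤ) < D - w by linarith),
        mul_pos (show (0:ℤ) < D + u by linarith) (show (0:ℤ) < D + w by linarith)]
    have h6 : (nrm p : ℝ) < (D : ℝ) ^ 2 := by exact_mod_cast h5
    have h7 : N ^ 2 < (D : ℝ) ^ 2 := by rw [h1]; exact h6
    have h8 : (D : ℝ) ^ 2 ≤ N ^ 2 := pow_le_pow_left₀ (Nat.cast_nonneg _) hD1 2
    linarith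
  have h9 : 2 * Gd (ENNReal.ofReal xc) (-HexMu.psi q) ≤ ENNReal.ofReal (2 * (3 / 2 * C * (D : ℝ) ^ (-b))) := by
    rw [Gd_SE hq0]
    refine (Finset.sum_le_sum key).trans (le_of_eq ?_)
    rw [Finset.sum_const, nsmul_eq_mul]
    have hc : Rot3.card = 3 := by decide
    rw [hc, ← ENNReal.ofReal_natCast, ← ENNReal.ofReal_mul (by norm_num)]
    congr 1
    push_cast
    ring
  rw [ENNReal.ofReal_mul (by norm_num), ENNReal.ofReal_ofNat] at h9
  have h10 := (ENNReal.mul_le_mul_iff_right (by norm_num) (by norm_num)).1 h9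
  refine h10.trans (ENNReal.ofReal_le_ofReal ?_)
  have h11 : (D : ℝ) ^ (-b) ≤ 2 ^ b * N ^ (-b) := by
    calc (D : ℝ) ^ (-b) ≤ (N / 2) ^ (-b) := Real.rpow_le_rpow_of_nonpos (by positivity) hD2 (by linarith)
      _ = 2 ^ b * N ^ (-b) := by
        rw [Real.div_rpow hN0.le (by norm_num), Real.rpow_neg (by norm_num : (0 : ℝ) ≤ 2)]
        field_simp
  calc 3 / 2 * C * (D : ℝ) ^ (-b) ≤ 3 / 2 * C * (2 ^ b * N ^ (-b)) := by gcongr
    _ = _ := by ring

/-- the lower bound for the walks -/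
lemma low_pt {a : ℝ} (ha : 0 ≤ a) (h : LowQ a) : ∃ (c r : ℝ), 0 < c ∧ ∀ (q : HexObs.Pt) (b : Bool),
    (3 : ℤ) ∣ ip q up - (if b then 2 else 0) → r ≤ ‖phiTri (-HexMu.psi q)‖ →
    ENNReal.ofReal (c * ‖phiTri (-HexMu.psi q)‖ ^ (-a)) ≤ Gd (ENNReal.ofReal xc) (-HexMu.psi q) := by
  obtain ⟨c, D0, hc, h⟩ := h
  refine ⟨c / 2 * 2 ^ (-a), D0 + 1, by positivity, fun q b hb hq => ?_⟩
  obtain ⟨N, hN⟩ : ∃ N, N = ‖phiTri (-HexMu.psi q)‖ := ⟨_, rfl⟩
  rw [← hN] at hq ⊢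
  have hD00 : (0 : ℝ) ≤ D0 := Nat.cast_nonneg _
  have hN1 : 1 ≤ N := by linarith
  have hN0 : 0 < N := by linarith
  have hq0 : q ≠ oo := by
    rintro rfl
    rw [norm_eq_zero.2 (show phiTri (-HexMu.psi oo) = 0 by
      have : (-HexMu.psi oo : SawNu.Pt) = 0 := by simp only [HexMu.psi]; rfl
      rw [this, map_zero])] at hN
    linarith
  obtain ⟨g, hg, h1, h2, h3⟩ := sector q hb
  obtain ⟨D, hD⟩ : ∃ D : ℕ, ip (mulE g q) up = D := ⟨(ip (mulE g q) up).toNat, (Int.toNat_of_nonneg h1).symm⟩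
  rw [hD] at h2
  have h4 : N ^ 2 = (nrm (mulE g q) : ℝ) := by rw [hN, norm_sq, nrm_mulE_rot hg]
  have h5 : (nrm (mulE g q) : ℤ) ≤ (D : ℤ) ^ 2 ∧ (D : ℤ) ^ 2 ≤ 4 * nrm (mulE g q) := by
    rw [← hD] at h2 ⊢
    generalize mulE g q = p at h2
    obtain ⟨x, y⟩ := p
    unfold ip up at h2
    unfold nrm ip up
    simp only [abs_le] at h2 ⊢
    constructor
    · nlinarith [h2.1, h2.2, mul_nonneg (show (0:ℤ) ≤ y by linarith [h2.2]) (show (0:ℤ) ≤ x + y by linarith [h2.1])]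
    · nlinarith [sq_nonneg x]
  have h6 : N ≤ D := by
    have h7 : N ^ 2 ≤ (D : ℝ) ^ 2 := by
      rw [h4]
      exact_mod_cast h5.1
    exact le_of_sq_le_sq h7 (Nat.cast_nonneg _)
  have h8 : (D : ℝ) ≤ 2 * N := by
    have h7 : (D : ℝ) ^ 2 ≤ (2 * N) ^ 2 := by
      have h9 : ((D : ℝ)) ^ 2 ≤ 4 * (nrm (mulE g q) : ℝ) := by exact_mod_cast h5.2
      rw [mul_pow, h4]
      linarith
    exact le_of_sq_le_sq h7 (by positivity)
  have hD0 : D0 ≤ D := by
    have : (D0 : ℝ) ≤ D := by linarith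
    exact_mod_cast this
  have h10 := h (mulE g q) D b hD0 hD h2 h3
  rw [sum_rot (fun p => gf (SE p)) hg q, ← Gd_SE hq0] at h10
  have hDp : (0 : ℝ) < D := by linarith
  have h11 : (2 : ℝ) ^ (-a) * N ^ (-a) ≤ (D : ℝ) ^ (-a) := by
    rw [← Real.mul_rpow (by norm_num) hN0.le]
    exact Real.rpow_le_rpow_of_nonpos hDp h8 (by linarith)
  have h12 : ENNReal.ofReal (2 * (c / 2 * 2 ^ (-a) * N ^ (-a))) ≤ 2 * Gd (ENNReal.ofReal xc) (-HexMu.psi q) := by
    refine le_trans (ENNReal.ofReal_le_ofReal ?_) h10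
    calc 2 * (c / 2 * 2 ^ (-a) * N ^ (-a)) = c * (2 ^ (-a) * N ^ (-a)) := by ring
      _ ≤ c * (D : ℝ) ^ (-a) := by gcongr
  rw [ENNReal.ofReal_mul (by norm_num), ENNReal.ofReal_ofNat] at h12
  exact (ENNReal.mul_le_mul_iff_right (by norm_num) (by norm_num)).1 h12

/-- a uniform lower constant on a finite set -/
lemma fin_low {ι : Type} (S : Finset ι) (F H : ι → ℝ) (h : ∀ i ∈ S, 0 < F i) (hH : ∀ i ∈ S, 0 ≤ H i) :
    ∃ c : ℝ, 0 < c ∧ ∀ i ∈ S, c * H i ≤ F i := by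
  classical
  induction S using Finset.induction_on with
  | empty => exact ⟨1, one_pos, fun i hi => absurd hi (Finset.notMem_empty i)⟩
  | insert j S hj ih =>
    obtain ⟨c, hc, h1⟩ := ih (fun i hi => h i (Finset.mem_insert_of_mem hi))
      (fun i hi => hH i (Finset.mem_insert_of_mem hi))
    have hF := h j (Finset.mem_insert_self _ _)
    have hH' := hH j (Finset.mem_insert_self _ _)
    refine ⟨min c (F j / (H j + 1)), lt_min hc (by positivity), fun i hi => ?_⟩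
    rcases Finset.mem_insert.1 hi with rfl | hi
    · calc min c (F i / (H i + 1)) * H i ≤ F i / (H i + 1) * H i :=
            mul_le_mul_of_nonneg_right (min_le_right _ _) hH'
        _ ≤ F i := by
            rw [div_mul_eq_mul_div, div_le_iff₀ (by positivity)]
            nlinarith
    · exact (mul_le_mul_of_nonneg_right (min_le_left _ _) (hH i (Finset.mem_insert_of_mem hi))).trans (h1 i hi)

/-- a uniform upper constant on a finite set -/
lemma fin_up {ι : Type} (S : Finset ι) (F H : ι → ℝ) (hH : ∀ i ∈ S, 0 < H i) :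
    ∃ C : ℝ, 0 < C ∧ ∀ i ∈ S, F i ≤ C * H i := by
  classical
  induction S using Finset.induction_on with
  | empty => exact ⟨1, one_pos, fun i hi => absurd hi (Finset.notMem_empty i)⟩
  | insert j S hj ih =>
    obtain ⟨C, hC, h1⟩ := ih (fun i hi => hH i (Finset.mem_insert_of_mem hi))
    have hH' := hH j (Finset.mem_insert_self _ _)
    refine ⟨C + |F j| / H j, by positivity, fun i hi => ?_⟩
    rcases Finset.mem_insert.1 hi with rfl | hi
    · rw [add_mul, div_mul_cancel₀ _ hH'.ne']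
      have := le_abs_self (F i)
      nlinarith
    · have h2 := h1 i hi
      have h3 := hH i (Finset.mem_insert_of_mem hi)
      have h4 : 0 ≤ |F j| / H j := by positivity
      nlinarith

/-- the points of a ball -/
lemma ball_fin (r : ℝ) : {q : HexObs.Pt | ‖phiTri (-HexMu.psi q)‖ ≤ r}.Finite := by
  obtain ⟨m, hm⟩ := exists_nat_ge (4 * r ^ 2)
  refine (Finset.finite_toSet ((Finset.Icc (-(m : ℤ)) m) ×ˢ (Finset.Icc (-(m : ℤ)) m))).subset ?_
  rintro ⟨x, y⟩ hq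
  have h1 := norm_sq (x, y)
  have hq' : ‖phiTri (-HexMu.psi (x, y))‖ ≤ r := hq
  have h2 : ‖phiTri (-HexMu.psi (x, y))‖ ^ 2 ≤ r ^ 2 := pow_le_pow_left₀ (norm_nonneg _) hq' 2
  rw [h1] at h2
  have h3 : ((4 * nrm (x, y) : ℤ) : ℝ) ≤ m := by push_cast; linarith
  have h4 : (4 * nrm (x, y) : ℤ) ≤ m := by exact_mod_cast h3
  unfold nrm at h4
  simp only at h4
  rw [Finset.mem_coe, Finset.mem_product, Finset.mem_Icc, Finset.mem_Icc]
  have h5 : x ^ 2 ≤ m := by nlinarith [sq_nonneg (x + 2 * y)]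
  have h6 : y ^ 2 ≤ m := by nlinarith [sq_nonneg (2 * x + y)]
  have key : ∀ z : ℤ, z ^ 2 ≤ m → -(m : ℤ) ≤ z ∧ z ≤ m := by
    intro z hz
    constructor
    · nlinarith [Int.natCast_nonneg m, sq_nonneg (z + 1)]
    · nlinarith [Int.natCast_nonneg m, sq_nonneg (z - 1)]
  exact ⟨key x h5, key y h6⟩

open Classical in
/-- **the public form** -/
theorem pub {a b : ℝ} (ha : 0 ≤ a) (hb : 0 ≤ b) (hlow : LowQ a) (hup : UpQ b) (hfin : ∀ q, gf (SE q) ≠ ⊤)
    {f : ℕ → Fin 3 → ℂ}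
    (hf : ∀ i a, f i a = (-1 : ℂ) ^ i * Complex.exp (2 * (Real.pi : ℂ) * Complex.I * ((a : ℕ) : ℂ) / 3))
    {μ : ℝ} (hμ : μ = ⨅ n : {n : ℕ // 1 ≤ n}, (((saw f n.1).card : ℝ) ^ ((1 : ℝ) / (n.1 : ℝ))))
    {G : ℝ → ℂ → ℝ}
    (hG : ∀ z x, G z x = ∑' n : ℕ, (((saw f n).filter (fun s => SawNu.pos f s n = x)).card : ℝ) * z ^ n) :
    ∃ c C : ℝ, 0 < c ∧ 0 < C ∧ ∀ (n : ℕ) (s : Fin n → Fin 3), SawNu.pos f s n ≠ 0 →
      c * ‖SawNu.pos f s n‖ ^ (-a) ≤ G (1 / μ) (SawNu.pos f s n) ∧ G (1 / μ) (SawNu.pos f s n) ≤ C * ‖SawNu.pos f s n‖ ^ (-b) := by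
  rw [mu_val hf hμ]
  obtain ⟨C1, r1, hC1, hU⟩ := up_pt hb hup
  obtain ⟨c1, r2, hc1, hL⟩ := low_pt ha hlow
  have hxc := xc_pos
  -- finiteness and the values of G
  have hGfin : ∀ q : HexObs.Pt, q ≠ oo → Gd (ENNReal.ofReal xc) (-HexMu.psi q) ≠ ⊤ := by
    intro q hq h0
    have h1 := Gd_SE hq
    rw [h0, ENNReal.mul_top (by norm_num)] at h1
    have h2 : ∑ g ∈ Rot3, gf (SE (mulE g q)) ≠ ⊤ := ENNReal.sum_ne_top.2 fun g _ => hfin _
    exact h2 h1.symm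
  have hGp : ∀ q : HexObs.Pt, q ≠ oo → ENNReal.ofReal (G xc (phiTri (-HexMu.psi q))) =
      Gd (ENNReal.ofReal xc) (-HexMu.psi q) := by
    intro q hq
    rw [Gd_real hxc.le (hGfin q hq), hG]
    congr 1
    exact tsum_congr fun n => by rw [cnt_gd hf]
  -- the near vertices
  obtain ⟨S, hS⟩ : ∃ S : Finset HexObs.Pt, ∀ q, q ∈ S ↔ (‖phiTri (-HexMu.psi q)‖ ≤ max r1 r2 ∧
      0 < ‖phiTri (-HexMu.psi q)‖ ∧ 0 < G xc (phiTri (-HexMu.psi q))) := by
    refine ⟨((ball_fin (max r1 r2)).toFinset.filter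
      (fun q => 0 < ‖phiTri (-HexMu.psi q)‖ ∧ 0 < G xc (phiTri (-HexMu.psi q)))), fun q => ?_⟩
    rw [Finset.mem_filter, Set.Finite.mem_toFinset]
    rfl
  obtain ⟨c2, hc2, hlow2⟩ := fin_low S (fun q => G xc (phiTri (-HexMu.psi q)))
    (fun q => ‖phiTri (-HexMu.psi q)‖ ^ (-a)) (fun q hq => ((hS q).1 hq).2.2) (fun q _ => by positivity)
  obtain ⟨C2, hC2, hup2⟩ := fin_up S (fun q => G xc (phiTri (-HexMu.psi q)))
    (fun q => ‖phiTri (-HexMu.psi q)‖ ^ (-b))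
    (fun q hq => Real.rpow_pos_of_pos ((hS q).1 hq).2.1 _)
  refine ⟨min c1 c2, max C1 C2, lt_min hc1 hc2, lt_max_of_lt_left hC1, fun n s hx => ?_⟩
  -- the word of the walk
  have hf' : ∀ i a, f i a = encHex.φ (encHex.st i.bodd a) := fun i a => by rw [hf, hex_enc]
  have h1 : SawNu.pos f s n = phiTri ((encHex.word s).sum) := by
    have h2 := encHex.word_ps s hf' n
    have h3 : ps (encHex.word s) n = (encHex.word s).sum := by
      rw [← ps_length, encHex.word_length]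
    rw [h3] at h2
    exact h2.symm
  obtain ⟨q, bb, hq1, hq2⟩ := vert_pt (encHex.word_tw s)
  have hpos := Gd_pos (z := ENNReal.ofReal xc) (by simpa using hxc) (encHex.word_tw s)
  rw [hq1] at h1 hpos
  rw [h1] at hx ⊢
  have hN0 : 0 < ‖phiTri (-HexMu.psi q)‖ := norm_pos_iff.2 hx
  have hq0 : q ≠ oo := by
    rintro rfl
    apply hx
    have : (-HexMu.psi oo : SawNu.Pt) = 0 := by simp only [HexMu.psi]; rfl
    rw [this, map_zero]
  have hGq := hGp q hq0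
  have hGpos : 0 < G xc (phiTri (-HexMu.psi q)) := by
    rw [← hGq] at hpos
    exact ENNReal.ofReal_pos.1 (pos_iff_ne_zero.2 hpos)
  rcases le_or_gt ‖phiTri (-HexMu.psi q)‖ (max r1 r2) with hr | hr
  · have hqS : q ∈ S := (hS q).2 ⟨hr, hN0, hGpos⟩
    refine ⟨le_trans ?_ (hlow2 q hqS), (hup2 q hqS).trans ?_⟩
    · exact mul_le_mul_of_nonneg_right (min_le_right _ _) (by positivity)
    · exact mul_le_mul_of_nonneg_right (le_max_right _ _) (by positivity)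
  · refine ⟨?_, ?_⟩
    · have h2 := hL q bb hq2 ((le_max_right _ _).trans hr.le)
      rw [← hGq, ENNReal.ofReal_le_ofReal_iff hGpos.le] at h2
      refine le_trans ?_ h2
      exact mul_le_mul_of_nonneg_right (min_le_left _ _) (by positivity)
    · have h2 := hU q ((le_max_left _ _).trans hr.le)
      rw [← hGq, ENNReal.ofReal_le_ofReal_iff (by positivity)] at h2
      refine h2.trans ?_
      exact mul_le_mul_of_nonneg_right (le_max_left _ _) (by positivity)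

end TPF

end HexObs
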