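import Pool.Agent.TPF.UpK
import Pool.Agent.JNT.EventM
import Pool.Agent.JNT.GoodE
import Pool.Agent.JNT.Marks
import Pool.Agent.EN.EspB

/-!
# TPF (two-point function of the plane): the constant upper bound at one scale, from the labelled norm of the leaves (helper29)

* `ExT`: the tall leaves of one scale have a labelled norm of the order `4 ^ (- kc) 4 ^ (- n)` (label = displacement);
* **`ur_of : ExT → TPC.UR`**.
-/

set_option autoImplicit false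

namespace HexObs

namespace TPF

open Finset TS SDN NTW NTA SIM JNT EN

open scoped ENNReal

/-- the labelled norm of the tall leaves of the scale kc: height of the order n 2 ^ (kc + s), no backtracks -/
def ExT : Prop := ∃ (C : ℝ) (s : ℕ), 1 ≤ C ∧ 7 ≤ s ∧ ∀ kc n : ℕ, 1 ≤ n →
  SmDL labE DmJ kc (CK (kc + 5) (kc + s) n) (C / (4 ^ kc * 4 ^ n))

/-- the tall leaves of the scale kc -/
def LfC (s kc J : ℕ) : Set (List Bool) := {g | g ∈ CL (kc + 5) ∧ ∃ h, 2 ^ (kc + s) ≤ h ∧ h ≤ 2 ^ (kc + J + 2) ∧ g ∈ Brd h}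

/-- one tall leaf -/
theorem tall_norm {C : ℝ} {s : ℕ} (hC : 1 ≤ C)
    (h : ∀ kc n : ℕ, 1 ≤ n → SmDL labE DmJ kc (CK (kc + 5) (kc + s) n) (C / (4 ^ kc * 4 ^ n))) (J kc : ℕ) :
    SmDL labE DmJ kc (LfC s kc J) ((2 ^ (J + 2) : ℕ) * C / 4 ^ kc) := by
  obtain ⟨N, hN⟩ : ∃ N : ℕ, N = 2 ^ (J + 2) := ⟨_, rfl⟩
  rw [← hN]
  have h1 := smDL_sum N (fun n => CK (kc + 5) (kc + s) (n + 1)) (fun n => C / (4 ^ kc * 4 ^ (n + 1)))
    (fun n _ => by positivity) (fun n _ => h kc (n + 1) (by omega))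
  refine smDL_up ?_ (smDL_mono ?_ h1)
  · have h2 : ∀ n ∈ range N, C / ((4 : ℝ) ^ kc * 4 ^ (n + 1)) ≤ C / 4 ^ kc := by
      intro n _
      apply div_le_div_of_nonneg_left (by linarith) (by positivity)
      exact le_mul_of_one_le_right (by positivity) (one_le_pow₀ (by norm_num))
    refine (Finset.sum_le_sum h2).trans (le_of_eq ?_)
    rw [Finset.sum_const, Finset.card_range, nsmul_eq_mul]
    ring
  · rintro g ⟨g1, g2, g3, g4, g5⟩
    have hp : 0 < 2 ^ (kc + s) := by positivity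
    obtain ⟨n, hn⟩ : ∃ n, g2 / 2 ^ (kc + s) = n + 1 := ⟨g2 / 2 ^ (kc + s) - 1, by
      have : 1 ≤ g2 / 2 ^ (kc + s) := (Nat.one_le_div_iff hp).2 g3
      omega⟩
    have h3 : n + 1 ≤ N := by
      rw [← hn, hN]
      refine (Nat.div_le_div_right g4).trans ?_
      apply Nat.div_le_of_le_mul
      rw [← pow_add]
      exact Nat.pow_le_pow_right (by norm_num) (by omega)
    refine ⟨n, by omega, g1, g2, ?_, ?_, g5⟩
    · rw [← hn]
      exact Nat.div_mul_le_self _ _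
    · rw [← hn]
      exact Nat.lt_mul_of_div_lt (Nat.lt_succ_self _) hp

/-- **words of large extent: one tall leaf, or many leaves** -/
theorem tall_or_many {kc J s n : ℕ} {t : List Bool} (hs : 5 ≤ s) (ht : t ∈ WL (kc + J))
    (hY : ∃ i i', i ≤ t.length ∧ i' ≤ t.length ∧ 2 * RR (kc + 5) + 4 * ((n + 1 : ℕ) * 2 ^ (kc + s)) ≤ lev t i - lev t i') :
    t ∈ ER kc J (EN.One (LfC s kc J)) ∨ t ∈ ER kc J (EN.RJ kc (2 ^ (kc + J + 2)) n) ∧ 1 ≤ n ∨ n = 0 := by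
  classical
  rcases Nat.eq_zero_or_pos n with hn | hn
  · exact Or.inr (Or.inr hn)
  obtain ⟨i, i', hi, hi', hY⟩ := hY
  have hpz : (32 : ℤ) ≤ 2 ^ (kc + s) := by
    calc (32 : ℤ) = 2 ^ 5 := by norm_num
      _ ≤ _ := pow_le_pow_right₀ (by norm_num) (by omega)
  have hRR : 12 ≤ RR (kc + 5) := by
    unfold RR
    have : (32 : ℤ) ≤ 2 ^ (kc + 5) := by
      calc (32 : ℤ) = 2 ^ 5 := by norm_num
        _ ≤ _ := pow_le_pow_right₀ (by norm_num) (by omega)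
    omega
  have hN0 : (0 : ℤ) ≤ 4 * ((n + 1 : ℕ) * 2 ^ (kc + s)) := by positivity
  obtain ⟨m, u, e, hF⟩ : ∃ m u e, Fd (kc + 5) t m u e := by
    rcases fd_exists (b := kc + 5) (by omega) ht.1 with h | h
    · exfalso
      have := h i i' hi hi'
      omega
    · exact h
  by_cases hex : ∃ l, l < m ∧ 4 * 2 ^ (kc + s) < |lev t (e (l + 1)) - lev t (e l)|
  · left
    obtain ⟨l, hl, hbig⟩ := hex
    refine ⟨ht, m, u, e, hF, l, 1, le_rfl, by omega, fun ms hlen hpos _ _ hbox => ?_⟩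
    obtain ⟨g, rfl⟩ := List.length_eq_one_iff.1 hlen
    have hp := hpos 0 (by simp)
    rw [add_zero] at hp
    obtain ⟨h', h1, h2, h3⟩ := hbox g (by simp)
    obtain ⟨c1, c2, c3⟩ := fd_cl hF hl hp h3
    refine ⟨g, ⟨c1, h', ?_, h2, h3⟩, rfl⟩
    have h4 := (abs_le.1 c3).1
    have h5 : (2 : ℤ) ^ (kc + s) ≤ h' := by linarith
    exact_mod_cast h5
  · push Not at hex
    right
    left
    have hmn : n ≤ m := by
      by_contra hc
      have hT := ext_le hF hi hi'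
      have h1 : totH t m e ≤ m * (4 * 2 ^ (kc + s)) := by
        unfold totH
        refine (Finset.sum_le_sum fun l hl => hex l (Finset.mem_range.1 hl)).trans (le_of_eq ?_)
        rw [Finset.sum_const, Finset.card_range, nsmul_eq_mul]
      have h2 : (m : ℤ) + 1 ≤ n := by
        have : m + 1 ≤ n := by omega
        exact_mod_cast this
      have h3 : (m : ℤ) * (4 * 2 ^ (kc + s)) ≤ (n - 1) * (4 * 2 ^ (kc + s)) :=
        mul_le_mul_of_nonneg_right (by linarith) (by positivity)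
      push_cast at hY
      nlinarith
    refine ⟨⟨ht, m, u, e, hF, 0, n, hn, by omega, fun ms hlen _ _ _ hbox => ⟨hlen, fun g hg => hbox g hg⟩⟩, hn⟩

/-- the event theorem for runs, the label = the end, all the words -/
theorem event_all : ∃ (C : ℝ) (k0 : ℕ), 1 ≤ C ∧ ∀ (kc J : ℕ) (y : Pt) (R : Set (List (List Bool))) (δ : ℝ), k0 ≤ kc →
    6 ≤ J → 0 < δ → SmRL labE DmJ kc R δ →
    gf {t | labE t = y ∧ t ∈ ER kc J R} ≤ ENNReal.ofReal (C ^ J * δ * Ub (kc + J)) * Xb (kc + J) ^ 2 := by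
  obtain ⟨C0, k0, hC0, h0⟩ := eventRL_E
  obtain ⟨D, hD, hDX⟩ := Xb_pow
  have hC0' : 0 ≤ C0 := by linarith
  have hD0 : 0 ≤ D := by linarith
  refine ⟨C0 * D ^ 16, k0, ?_, fun kc J y R δ hk hJ hδ hS => ?_⟩
  · have : 1 ≤ D ^ 16 := one_le_pow₀ hD
    nlinarith
  have hUp := Ub_pos (kc + J)
  obtain ⟨lam', hQ⟩ := QL_exists (kc + J + 8)
  have h1 : gf {t | labE t = y ∧ t ∈ ER kc J R} ≤
      ENNReal.ofReal (C0 ^ J * δ * Ub (kc + J)) * (Xb (kc + J + 8)) ^ 2 := by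
    refine gf_le_of_mono_union (fun lam => {t | labE t = y ∧ t ∈ SAL lam ∧ t ∈ ER kc J R}) ?_ ?_ fun lam =>
      (h0 kc J lam lam' y R δ hk hJ hδ hQ hS).trans ?_
    · intro lam lam2 hl t ht
      exact ⟨ht.1, ⟨ht.2.1.1, ht.2.1.2.trans hl⟩, ht.2.2⟩
    · intro t ht
      rw [Set.mem_iUnion]
      exact ⟨t.length, ht.1, ⟨ht.2.1.1, le_rfl⟩, ht.2⟩
    · exact mul_le_mul_right (pow_le_pow_left' (bl_le_Xb _ _) 2) _
  refine h1.trans ?_
  calc ENNReal.ofReal (C0 ^ J * δ * Ub (kc + J)) * (Xb (kc + J + 8)) ^ 2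
      ≤ ENNReal.ofReal (C0 ^ J * δ * Ub (kc + J)) * (ENNReal.ofReal (D ^ 8) * Xb (kc + J)) ^ 2 := by
        exact mul_le_mul_right (pow_le_pow_left' (hDX (kc + J) 8) 2) _
    _ = ENNReal.ofReal (C0 ^ J * D ^ 16 * δ * Ub (kc + J)) * Xb (kc + J) ^ 2 := by
        rw [mul_pow, ← ENNReal.ofReal_pow (by positivity), ← mul_assoc, ← ENNReal.ofReal_mul (by positivity)]
        congr 2
        ring
    _ ≤ _ := by
        refine mul_le_mul_left (ENNReal.ofReal_le_ofReal ?_) _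
        have e1 : D ^ 16 ≤ (D ^ 16) ^ J := by
          calc D ^ 16 = (D ^ 16) ^ 1 := by rw [pow_one]
            _ ≤ (D ^ 16) ^ J := pow_le_pow_right₀ (one_le_pow₀ hD) (by omega)
        rw [mul_pow]
        gcongr

/-- the runs of many leaves -/
theorem many_norm : ∃ (n : ℕ) (A : ℕ → ℝ) (k0 : ℕ), 1 ≤ n ∧ (∀ J, 0 < A J) ∧ ∀ kc J : ℕ, k0 ≤ kc →
    SmRL labE DmJ kc (EN.RJ kc (2 ^ (kc + J + 2)) n) (A J / 4 ^ kc) := by
  obtain ⟨J00, hJ00⟩ := gbmL_E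
  obtain ⟨C, k0, hC, hG⟩ := hJ00 J00 le_rfl
  obtain ⟨K, hK, hbox⟩ := EN.smD_box
  have hC0 : 0 < C := by linarith
  have hK0 : 0 < K := by linarith
  refine ⟨J00 + 1, fun J => (4 * (K * 2 ^ J)) ^ (J00 + 1) * C ^ (J + 1), k0, by omega, fun J => by positivity,
    fun kc J hk => ?_⟩
  have h1 := smRL_marks (S := ∅) (δ := 0) dmP EN.inH_box le_rfl
    (one_le_mul_of_one_le_of_one_le hK (one_le_pow₀ (by norm_num))) (hG kc J hk) (hbox kc J) LQ.SmD_empty (J00 + 1) 0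
  refine SmRL.le (h1.anti ?_) (le_of_eq ?_)
  · rintro gs ⟨h2, h3⟩
    exact ⟨h2, by omega, h3, Nat.zero_le _⟩
  · rw [pow_zero, one_mul]
    ring

/-- **(UR), direction false** -/
theorem tallE_C (h : ExT) : ∃ (C : ℝ) (K0 : ℕ), 0 < C ∧ ∀ (K : ℕ) (y : Pt), K0 ≤ K →
    gf (TallE K y) ≤ ENNReal.ofReal (C * (Ub K / 4 ^ K)) * Xb K ^ 2 := by
  obtain ⟨C1, s, hC1, hs, hT⟩ := h
  obtain ⟨n, A, k1, hn, hA, hM⟩ := many_norm
  obtain ⟨C0, k0, hC0, h0⟩ := event_all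
  obtain ⟨v, hv⟩ : ∃ v : ℕ, 4 * n + 17 ≤ 2 ^ v := ⟨4 * n + 17, Nat.lt_two_pow_self.le⟩
  obtain ⟨J, hJ⟩ : ∃ J, J = s + 4 + v := ⟨_, rfl⟩
  have hC0' : 0 < C0 := by linarith
  have hAJ := hA J
  refine ⟨C0 ^ J * ((2 ^ (J + 2) : ℕ) * C1 + A J) * 4 ^ J, k0 + k1 + J, by positivity, fun K y hK => ?_⟩
  obtain ⟨kc, rfl⟩ : ∃ kc, K = kc + J := ⟨K - J, by omega⟩
  have hUp := Ub_pos (kc + J)
  have h1 := h0 kc J y (EN.One (LfC s kc J)) ((2 ^ (J + 2) : ℕ) * C1 / 4 ^ kc) (by omega) (by omega) (by positivity)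
    (smRL_one (tall_norm hC1 hT J kc))
  have h2 := h0 kc J y (EN.RJ kc (2 ^ (kc + J + 2)) n) (A J / 4 ^ kc) (by omega) (by omega) (by positivity)
    (hM kc J (by omega))
  have hsub : TallE (kc + J) y ⊆ {t | labE t = y ∧ t ∈ ER kc J (EN.One (LfC s kc J))} ∪
      {t | labE t = y ∧ t ∈ ER kc J (EN.RJ kc (2 ^ (kc + J + 2)) n)} := by
    rintro t ⟨ht, he, i, hi, hl⟩
    have hY : ∃ i i', i ≤ t.length ∧ i' ≤ t.length ∧ 2 * RR (kc + 5) + 4 * ((n + 1 : ℕ) * 2 ^ (kc + s)) ≤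
        lev t i - lev t i' := by
      have e1 : (2 : ℤ) ^ (kc + J - 4) = 2 ^ v * 2 ^ (kc + s) := by
        rw [← pow_add]
        congr 1
        omega
      have e2 : (2 : ℤ) ^ (kc + 5) ≤ 2 ^ (kc + s) := pow_le_pow_right₀ (by norm_num) (by omega)
      have e3 : (1 : ℤ) ≤ 2 ^ (kc + s) := one_le_pow₀ (by norm_num)
      have e4 : (4 * n + 17 : ℤ) ≤ 2 ^ v := by exact_mod_cast hv
      rw [e1] at hl
      have e5 : (4 * n + 17 : ℤ) * 2 ^ (kc + s) ≤ 2 ^ v * 2 ^ (kc + s) := mul_le_mul_of_nonneg_right e4 (by positivity)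
      have h3 : lev t 0 = 0 := lev_zero t
      have e6 : 2 * RR (kc + 5) + 4 * ((n + 1 : ℕ) * 2 ^ (kc + s)) ≤ 3 * (2 ^ v * 2 ^ (kc + s)) - 3 := by
        unfold RR
        push_cast
        nlinarith
      rcases abs_cases (lev t i) with ⟨b1, b2⟩ | ⟨b1, b2⟩
      · exact ⟨i, 0, hi, Nat.zero_le _, by rw [h3]; omega⟩
      · exact ⟨0, i, Nat.zero_le _, hi, by rw [h3]; omega⟩
    rcases tall_or_many (by omega) ht hY with h | ⟨h, -⟩ | h
    · exact Or.inl ⟨he, h⟩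
    · exact Or.inr ⟨he, h⟩
    · omega
  refine (gf_mono hsub).trans ((gf_union_le _ _).trans ((add_le_add h1 h2).trans (le_of_eq ?_)))
  rw [← add_mul, ← ENNReal.ofReal_add (by positivity) (by positivity)]
  congr 2
  rw [pow_add 4 kc J]
  field_simp

/-- **(UR) from the labelled norm of the leaves** -/
theorem ur_of (h : ExT) : TPC.UR := by
  obtain ⟨C, K0, hC, hT⟩ := tallE_C h
  obtain ⟨D, hD, hXD⟩ := Xb_pow
  have hD0 : 0 < D := by linarith
  have hCD := DirA.CD_ge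
  have hCD0 : 0 ≤ DirA.CD := by linarith
  refine ⟨C * (1 + DirA.CD * (8 * (D ^ 3) ^ 2)), K0 + 1, by positivity, fun K y hK => ?_⟩
  have hU := Ub_pos K
  have hU3p := Ub_pos (K + 3)
  have hU3 : Ub (K + 3) ≤ 8 * Ub K := by
    have := Ub_add K 3
    norm_num at this
    exact this
  have h1 := hT K y (by omega)
  have h2 : ∀ y', gf (TallE (K + 3) y') ≤ ENNReal.ofReal (C * (8 * (D ^ 3) ^ 2) * (Ub K / 4 ^ K)) * Xb K ^ 2 := by
    intro y'
    refine (hT (K + 3) y' (by omega)).trans ?_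
    refine (mul_le_mul' le_rfl (pow_le_pow_left' (hXD K 3) 2)).trans ?_
    rw [mul_pow, ← ENNReal.ofReal_pow (by positivity), ← mul_assoc, ← ENNReal.ofReal_mul (by positivity)]
    refine mul_le_mul' (ENNReal.ofReal_le_ofReal ?_) le_rfl
    have e1 : Ub (K + 3) / 4 ^ (K + 3) ≤ 8 * (Ub K / 4 ^ K) := by
      rw [← mul_div_assoc]
      exact div_le_div₀ (by positivity) hU3 (by positivity) (pow_le_pow_right₀ (by norm_num) (by omega))
    calc C * (Ub (K + 3) / 4 ^ (K + 3)) * (D ^ 3) ^ 2 ≤ C * (8 * (Ub K / 4 ^ K)) * (D ^ 3) ^ 2 := by gcongr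
      _ = _ := by ring
  refine (endK_sub (by omega) y h1 h2).trans ?_
  rw [← mul_assoc, ← ENNReal.ofReal_mul (by positivity), ← add_mul, ← ENNReal.ofReal_add (by positivity) (by positivity)]
  refine mul_le_mul' (ENNReal.ofReal_le_ofReal (le_of_eq ?_)) le_rfl
  ring

end TPF

end HexObs
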