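import Pool.Agent.SIM.NoCutEv
import Pool.Agent.SIM.RunB

/-!
# TPF (two-point function of the plane): leaves without cuts, the norm of the runs (helper29)
-/

set_option autoImplicit false

namespace HexObs

namespace TPF

open Finset TS SDN NTW NTA SIM

open scoped ENNReal

/-- leaves without a cut in one of four windows below the top -/
def Nc4 (d : ℕ → ℕ) (kc : ℕ) : Set (List Bool) :=
  {g | ∃ i, i < 4 ∧ g ∈ NoCut (kc - d (i + 1)) (d (i + 1) - d i - 1)}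

/-- **the runs of leaves without cuts** -/
theorem cls_run : ∃ (s : ℕ) (d : ℕ → ℕ), d 0 = 0 ∧ (∀ i, d i + 4 ≤ d (i + 1)) ∧ ∀ kc : ℕ, d 4 ≤ kc →
    ∀ V : ℕ, SmR DmJ kc (RunB kc s (Nc4 d kc) V) (1 / 2 ^ V) := by
  obtain ⟨s, J0, e0, he0, hrun⟩ := runBad
  obtain ⟨K, c, hK, hc, hW⟩ := tail_win
  obtain ⟨δ, hδd⟩ : ∃ δ : ℝ, δ = e0 / 4 := ⟨_, rfl⟩
  have hδ : 0 < δ := by
    rw [hδd]
    positivity
  obtain ⟨d, h0, hd⟩ := depth_exists (X := K * (1 + 2 ^ J0) ^ 2) hc hδ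
  have hmon : ∀ i j, i ≤ j → d i ≤ d j := by
    intro i j hij
    induction j, hij using Nat.le_induction with
    | base => exact le_rfl
    | succ j _ ih =>
      have := (hd j).1
      omega
  refine ⟨s, d, h0, fun i => (hd i).1, fun kc hkM => hrun kc (Nc4 d kc) ?_⟩
  have hUk := Ub_pos kc
  have hUN : UU (2 ^ (kc + J0)) / Ub kc ≤ 2 ^ J0 := by
    rw [div_le_iff₀ hUk]
    exact Ub_add kc J0
  have hUN0 : 0 ≤ UU (2 ^ (kc + J0)) / Ub kc := div_nonneg (Num2Aux.UU_pos _).le hUk.le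
  have hone : ∀ i, i < 4 → SmD DmJ kc
      {g | g ∈ BrR (2 ^ (kc + 4)) (2 ^ (kc + J0)) ∧ g ∈ NoCut (kc - d (i + 1)) (d (i + 1) - d i - 1)} δ := by
    intro i hi
    have h1 := (hd i).1
    have h2 := hmon (i + 1) 4 hi
    have h3 : kc - d (i + 1) + (d (i + 1) - d i - 1) = kc - d i - 1 := by omega
    refine LQ.SmD_le ?_ (QF.SmD_mono ?_ (hW kc (2 ^ (kc + J0)) (kc - d (i + 1)) (d (i + 1) - d i - 1)
      (by omega) (by omega)))
    · rw [h3, show kc - (kc - d i - 1) = d i + 1 by omega]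
      refine le_trans ?_ (hd i).2
      gcongr
    · rintro g ⟨hg, hn⟩
      exact ⟨hg, Or.inl (noCut_sub hn)⟩
  have hall := LQ.SmD_sum 4 (fun i => {g | g ∈ BrR (2 ^ (kc + 4)) (2 ^ (kc + J0)) ∧
    g ∈ NoCut (kc - d (i + 1)) (d (i + 1) - d i - 1)}) (fun _ => δ) (fun i _ => hδ.le) hone
  rw [Finset.sum_const, Finset.card_range, nsmul_eq_mul] at hall
  refine LQ.SmD_le (le_of_eq ?_) (QF.SmD_mono ?_ hall)
  · rw [hδd]
    push_cast
    ring
  · rintro g ⟨hg, i, hi, hn⟩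
    exact ⟨i, hi, hg, hn⟩

end TPF

end HexObs
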