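import Pool.Agent.TPF.UpK
import Pool.Agent.GLow.Alpha
import Pool.Agent.BAR.Glue

/-!
# TPF (two-point function of the plane): the upper bound with small powers (helper29)

* **`up_gf`**: `gf (SE q) ≤ C D ^ (- 5 / 24 + ε)` for every point `q` with `|lvl dir q| ≥ D ≥ D0`, one `dir`.
-/

set_option autoImplicit false

namespace HexObs

namespace TPF

open Finset TS SDN NTW NTA SIM

open scoped ENNReal

/-- the growth of Xb -/
lemma Xb_up (hU : BAR.HUp (61 / 48)) {ε : ℝ} (hε : 0 < ε) : ∃ A : ℝ, 0 < A ∧ ∀ K : ℕ,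
    Xb K ≤ ENNReal.ofReal (A * (2 : ℝ) ^ ((25 / 48 + ε) * (K : ℝ))) := by
  obtain ⟨A, hA⟩ := hU ε hε
  obtain ⟨c, hc, hlow⟩ := GLow.UU_low
  have hA0 : 0 < A := by
    by_contra h
    have h1 := hA 1 le_rfl
    rw [Nat.cast_one, Real.one_rpow, mul_one, ENNReal.ofReal_of_nonpos (by linarith)] at h1
    have h2 := (BAR.UU_le_HH 1).trans h1
    have h3 := Num2Aux.UU_pos 1
    rw [nonpos_iff_eq_zero, ENNReal.ofReal_eq_zero] at h2
    linarith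
  refine ⟨A / c, by positivity, fun K => ?_⟩
  unfold Xb
  refine iSup_le fun i => ?_
  have h1 := hA (2 ^ i.1) Nat.one_le_two_pow
  have h2 := hlow (2 ^ i.1) Nat.one_le_two_pow
  have hUp := Num2Aux.UU_pos (2 ^ i.1)
  rw [ENNReal.div_le_iff (by simpa using hUp) ENNReal.ofReal_ne_top, ← ENNReal.ofReal_mul (by positivity)]
  refine h1.trans (ENNReal.ofReal_le_ofReal ?_)
  have hp : ∀ x : ℝ, (((2 ^ i.1 : ℕ) : ℝ)) ^ x = (2 : ℝ) ^ (x * (i.1 : ℝ)) := by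
    intro x
    push_cast
    rw [← Real.rpow_natCast, ← Real.rpow_mul (by norm_num), mul_comm]
  rw [hp] at h2 ⊢
  have hi : (i.1 : ℝ) ≤ K := by
    have := i.2
    exact_mod_cast (by omega : i.1 ≤ K)
  calc A * (2 : ℝ) ^ ((61 / 48 + ε) * (i.1 : ℝ))
      = A / c * (2 : ℝ) ^ ((25 / 48 + ε) * (i.1 : ℝ)) * (c * (2 : ℝ) ^ (3 / 4 * (i.1 : ℝ))) := by
        have : (61 / 48 + ε) * (i.1 : ℝ) = (25 / 48 + ε) * (i.1 : ℝ) + 3 / 4 * (i.1 : ℝ) := by ring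
        rw [this, Real.rpow_add (by norm_num)]
        field_simp
    _ ≤ A / c * (2 : ℝ) ^ ((25 / 48 + ε) * (K : ℝ)) * UU (2 ^ i.1) := by
        have e1 : (2 : ℝ) ^ ((25 / 48 + ε) * (i.1 : ℝ)) ≤ (2 : ℝ) ^ ((25 / 48 + ε) * (K : ℝ)) :=
          Real.rpow_le_rpow_of_exponent_le (by norm_num) (mul_le_mul_of_nonneg_left hi (by positivity))
        have e2 : (0 : ℝ) ≤ c * (2 : ℝ) ^ (3 / 4 * (i.1 : ℝ)) := by positivity
        gcongr

/-- the growth of Ub -/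
lemma Ub_up : ∃ A : ℝ, 0 < A ∧ ∀ K : ℕ, Ub K ≤ A * (2 : ℝ) ^ (3 / 4 * (K : ℝ)) := by
  obtain ⟨C, hC, h⟩ := GLow.UU_up
  refine ⟨C, hC, fun K => ?_⟩
  have h1 := h (2 ^ K) Nat.one_le_two_pow
  have hp : (((2 ^ K : ℕ) : ℝ)) ^ (3 / 4 : ℝ) = (2 : ℝ) ^ (3 / 4 * (K : ℝ)) := by
    push_cast
    rw [← Real.rpow_natCast, ← Real.rpow_mul (by norm_num), mul_comm]
  rw [hp] at h1
  exact h1

/-- choice of J -/
lemma choose_J (s k1 : ℕ) {δ : ℝ} (hδ : 0 < δ) (hδ1 : δ ≤ 1 / 2) : ∃ K1 : ℕ, ∀ K : ℕ, K1 ≤ K → ∃ J : ℕ,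
    k1 + J ≤ K ∧ s ≤ J ∧ (J : ℝ) ≤ δ * K + 1 ∧ 2 * K ≤ 2 ^ (J - s) := by
  have hr : (1 : ℝ) < 2 ^ δ := Real.one_lt_rpow (by norm_num) hδ
  have h1 := tendsto_pow_const_div_const_pow_of_one_lt 1 hr
  have h2 : (0 : ℝ) < 1 / 2 ^ (s + 1) := by positivity
  obtain ⟨K1, hK1⟩ := (h1.eventually (ge_mem_nhds h2)).exists_forall_of_atTop
  refine ⟨max K1 (2 * (k1 + 2) + 1), fun K hK => ?_⟩
  obtain ⟨J, hJ⟩ : ∃ J : ℕ, J = ⌈δ * (K : ℝ)⌉₊ := ⟨_, rfl⟩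
  have hKk : (2 * (k1 + 2) + 1 : ℕ) ≤ K := (le_max_right _ _).trans hK
  have hKr : (2 * ((k1 : ℝ) + 2) + 1) ≤ K := by exact_mod_cast hKk
  have hk10 : (0 : ℝ) ≤ k1 := Nat.cast_nonneg _
  have h3 := hK1 K ((le_max_left _ _).trans hK)
  have h4 : (K : ℝ) * 2 ^ (s + 1) ≤ (2 : ℝ) ^ (δ * (K : ℝ)) := by
    rw [pow_one, div_le_div_iff₀ (by positivity) (by positivity), one_mul] at h3
    rw [Real.rpow_mul (by norm_num), Real.rpow_natCast]
    exact h3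
  have h5 : (2 : ℝ) ^ (δ * (K : ℝ)) ≤ 2 ^ J := by
    rw [← Real.rpow_natCast, hJ]
    exact Real.rpow_le_rpow_of_exponent_le (by norm_num) (Nat.le_ceil _)
  have h6 : K * 2 ^ (s + 1) ≤ 2 ^ J := by exact_mod_cast h4.trans h5
  have hK0' : 1 ≤ K := by omega
  have h11 : (J : ℝ) ≤ δ * K + 1 := by
    rw [hJ]
    exact (Nat.ceil_lt_add_one (by positivity)).le
  have h7 : s + 1 ≤ J := by
    by_contra hc
    have h8 : 2 ^ J ≤ 2 ^ s := Nat.pow_le_pow_right (by norm_num) (by omega)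
    have h9 : 2 ^ s < 2 ^ (s + 1) := Nat.pow_lt_pow_right (by norm_num) (by omega)
    have h10 : 1 * 2 ^ (s + 1) ≤ K * 2 ^ (s + 1) := Nat.mul_le_mul_right _ hK0'
    omega
  refine ⟨J, ?_, by omega, h11, ?_⟩
  · have h12 : δ * K ≤ 1 / 2 * K := mul_le_mul_of_nonneg_right hδ1 (Nat.cast_nonneg _)
    have h13 : (k1 : ℝ) + J ≤ K := by linarith
    exact_mod_cast h13
  · have h8 : 2 ^ J = 2 ^ (J - s) * 2 ^ s := by
      rw [← pow_add]
      congr 1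
      omega
    rw [h8, pow_succ] at h6
    have h9 : 0 < 2 ^ s := by positivity
    have h10 : (2 * K) * 2 ^ s ≤ 2 ^ (J - s) * 2 ^ s := by
      calc (2 * K) * 2 ^ s = K * (2 ^ s * 2) := by ring
        _ ≤ _ := h6
    exact Nat.le_of_mul_le_mul_right h10 h9

/-- one scale -/
theorem endK_eps (hU : BAR.HUp (61 / 48)) {ε : ℝ} (hε : 0 < ε) : ∃ (A : ℝ) (K1 : ℕ), 0 < A ∧ ∀ (K : ℕ) (y : Pt), K1 ≤ K →
    gf (TPC.EndK K y) ≤ ENNReal.ofReal (A * (2 : ℝ) ^ ((-(5 / 24) + ε) * (K : ℝ))) := by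
  obtain ⟨s, C, k1, hC, h⟩ := endK_le
  obtain ⟨A1, hA1, hX⟩ := Xb_up hU (ε := ε / 4) (by positivity)
  obtain ⟨A2, hA2, hUb⟩ := Ub_up
  have hC0 : 0 < C := by linarith
  obtain ⟨cc, hcc⟩ : ∃ cc : ℝ, cc = Real.logb 2 C := ⟨_, rfl⟩
  have hcc0 : 0 ≤ cc := by
    rw [hcc]
    exact Real.logb_nonneg (by norm_num) hC
  have hCc : (2 : ℝ) ^ cc = C := by
    rw [hcc]
    exact Real.rpow_logb (by norm_num) (by norm_num) hC0
  obtain ⟨δ, hδd⟩ : ∃ δ : ℝ, δ = min (1 / 2) (ε / (4 * (cc + 1))) := ⟨_, rfl⟩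
  have hδ : 0 < δ := by rw [hδd]; exact lt_min (by norm_num) (by positivity)
  have hδ1 : δ ≤ 1 / 2 := hδd ▸ min_le_left _ _
  have hδ2 : cc * δ ≤ ε / 4 := by
    have h1 : δ ≤ ε / (4 * (cc + 1)) := hδd ▸ min_le_right _ _
    calc cc * δ ≤ (cc + 1) * (ε / (4 * (cc + 1))) := by
          apply mul_le_mul (by linarith) h1 hδ.le (by linarith)
      _ = ε / 4 := by field_simp
  obtain ⟨K1, hK1⟩ := choose_J s k1 hδ hδ1
  refine ⟨2 * C * A2 * A1 ^ 2, K1, by positivity, fun K y hK => ?_⟩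
  obtain ⟨J, hJ1, hJ2, hJ3, hJ4⟩ := hK1 K hK
  have hUK := Ub_pos K
  refine (h K J y hJ1 hJ2).trans ((mul_le_mul' le_rfl (pow_le_pow_left' (hX K) 2)).trans ?_)
  rw [← ENNReal.ofReal_pow (by positivity), ← ENNReal.ofReal_mul (by positivity)]
  apply ENNReal.ofReal_le_ofReal
  have e1 : C ^ J ≤ C * (2 : ℝ) ^ (ε / 4 * (K : ℝ)) := by
    rw [← Real.rpow_natCast C J, ← hCc, ← Real.rpow_mul (by norm_num), ← Real.rpow_add (by norm_num)]
    apply Real.rpow_le_rpow_of_exponent_le (by norm_num)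
    have hK0 : (0 : ℝ) ≤ K := Nat.cast_nonneg _
    calc cc * (J : ℝ) ≤ cc * (δ * K + 1) := mul_le_mul_of_nonneg_left hJ3 hcc0
      _ = cc + cc * δ * K := by ring
      _ ≤ cc + ε / 4 * K := by
        have := mul_le_mul_of_nonneg_right hδ2 hK0
        linarith
  have e2 : (1 : ℝ) / 2 ^ (2 ^ (J - s)) ≤ 1 / 4 ^ K := by
    apply one_div_le_one_div_of_le (by positivity)
    have : (4 : ℝ) ^ K = 2 ^ (2 * K) := by rw [pow_mul]; norm_num
    rw [this]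
    exact pow_le_pow_right₀ (by norm_num) hJ4
  have e3 : (1 : ℝ) / 4 ^ K = (2 : ℝ) ^ (-(2 * (K : ℝ))) := by
    have : (4 : ℝ) ^ K = (2 : ℝ) ^ (2 * (K : ℝ)) := by
      rw [Real.rpow_mul (by norm_num), Real.rpow_natCast]
      norm_num
    rw [Real.rpow_neg (by norm_num), this, one_div]
  calc C ^ J * (1 / 4 ^ K + 1 / 2 ^ (2 ^ (J - s))) * Ub K * (A1 * (2 : ℝ) ^ ((25 / 48 + ε / 4) * (K : ℝ))) ^ 2
      ≤ (C * (2 : ℝ) ^ (ε / 4 * (K : ℝ))) * (1 / 4 ^ K + 1 / 4 ^ K) * (A2 * (2 : ℝ) ^ (3 / 4 * (K : ℝ))) *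
        (A1 * (2 : ℝ) ^ ((25 / 48 + ε / 4) * (K : ℝ))) ^ 2 := by
        have := hUb K
        gcongr
    _ = 2 * C * A2 * A1 ^ 2 * ((2 : ℝ) ^ (ε / 4 * (K : ℝ)) * (2 : ℝ) ^ (-(2 * (K : ℝ))) *
        (2 : ℝ) ^ (3 / 4 * (K : ℝ)) * ((2 : ℝ) ^ ((25 / 48 + ε / 4) * (K : ℝ))) ^ 2) := by
        rw [e3]
        ring
    _ ≤ 2 * C * A2 * A1 ^ 2 * (2 : ℝ) ^ ((-(5 / 24) + ε) * (K : ℝ)) := by
        apply mul_le_mul_of_nonneg_left _ (by positivity)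
        rw [← Real.rpow_natCast ((2 : ℝ) ^ ((25 / 48 + ε / 4) * (K : ℝ))) 2, ← Real.rpow_mul (by norm_num),
          ← Real.rpow_add (by norm_num), ← Real.rpow_add (by norm_num), ← Real.rpow_add (by norm_num)]
        apply Real.rpow_le_rpow_of_exponent_le (by norm_num)
        have hK0 : (0 : ℝ) ≤ K := Nat.cast_nonneg _
        push_cast
        nlinarith

/-- words of the box of radius 1 have small levels -/
lemma WL_ev {K : ℕ} {t : List Bool} (ht : t ∈ WL K) (dir : Bool) : |lvl dir (ev t)| ≤ 3 * 2 ^ K + 2 := by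
  have h1 := ht.2 t.length le_rfl dir
  unfold row at h1
  unfold ev
  rw [abs_le] at h1 ⊢
  generalize (2 : ℤ) ^ K = N at h1 ⊢
  constructor <;> omega

/-- every word is in a box -/
lemma SA_WL {t : List Bool} (ht : t ∈ SA) : ∃ K, t ∈ WL K := by
  obtain ⟨N, hN⟩ : ∃ N : ℕ, ∀ i, i ≤ t.length → ∀ dir, |row dir (vx oo up t i)| ≤ N := by
    refine ⟨∑ i ∈ range (t.length + 1), (|row false (vx oo up t i)| + |row true (vx oo up t i)|).toNat, ?_⟩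
    intro i hi dir
    have h1 : (|row false (vx oo up t i)| + |row true (vx oo up t i)|).toNat ≤
        ∑ i ∈ range (t.length + 1), (|row false (vx oo up t i)| + |row true (vx oo up t i)|).toNat :=
      Finset.single_le_sum (f := fun i => (|row false (vx oo up t i)| + |row true (vx oo up t i)|).toNat)
        (fun _ _ => Nat.zero_le _) (Finset.mem_range.2 (by omega))
    have h2 := abs_nonneg (row false (vx oo up t i))
    have h3 := abs_nonneg (row true (vx oo up t i))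
    have h4 : |row dir (vx oo up t i)| ≤ |row false (vx oo up t i)| + |row true (vx oo up t i)| := by
      cases dir <;> omega
    have h5 : ((|row false (vx oo up t i)| + |row true (vx oo up t i)|).toNat : ℤ) =
        |row false (vx oo up t i)| + |row true (vx oo up t i)| := Int.toNat_of_nonneg (by omega)
    have h6 : (((|row false (vx oo up t i)| + |row true (vx oo up t i)|).toNat : ℕ) : ℤ) ≤
        ((∑ i ∈ range (t.length + 1), (|row false (vx oo up t i)| + |row true (vx oo up t i)|).toNat : ℕ) : ℤ) := by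
      exact_mod_cast h1
    omega
  refine ⟨N, ht, fun i hi dir => (hN i hi dir).trans ?_⟩
  have : N < 2 ^ N := Nat.lt_two_pow_self
  exact_mod_cast this.le

/-- the words with the end q by their scale -/
lemma SE_sub {q : Pt} {D : ℕ} (hD : 6 ≤ D) (hq : (D : ℤ) ≤ |lvl false q| ∨ (D : ℤ) ≤ |lvl true q|) :
    SE q ⊆ ⋃ K : ℕ, {t | D ≤ 4 * 2 ^ K ∧ t ∈ TPC.EndK K q} := by
  classical
  rintro t ⟨ht, he⟩
  have hex := SA_WL ht
  obtain ⟨K, hK⟩ : ∃ K, K = Nat.find hex := ⟨_, rfl⟩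
  have h1 : t ∈ WL K := hK ▸ Nat.find_spec hex
  have h2 : (D : ℤ) ≤ 3 * 2 ^ K + 2 := by
    rcases hq with h | h
    · rw [← he] at h
      exact h.trans (WL_ev h1 false)
    · rw [← he] at h
      exact h.trans (WL_ev h1 true)
  have hK1 : 1 ≤ K := by
    by_contra hc
    have : K = 0 := by omega
    rw [this] at h2
    norm_num at h2
    omega
  have h3 : t ∉ WL (K - 1) := fun hc => by
    have := Nat.find_min' hex hc
    omega
  have h4 : (2 : ℤ) ≤ 2 ^ K := by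
    calc (2 : ℤ) = 2 ^ 1 := by norm_num
      _ ≤ _ := pow_le_pow_right₀ (by norm_num) hK1
  refine Set.mem_iUnion.2 ⟨K, ?_, h1, h3, he⟩
  have h5 : (D : ℤ) ≤ 4 * 2 ^ K := by omega
  exact_mod_cast h5

/-- the sum over the scales -/
lemma sum_scales {A a : ℝ} (hA : 0 < A) (ha : 0 < a) {K1 : ℕ} {q : Pt}
    (h : ∀ K, K1 ≤ K → gf (TPC.EndK K q) ≤ ENNReal.ofReal (A * (2 : ℝ) ^ (-a * (K : ℝ)))) {D : ℕ} (hD : 6 ≤ D)
    (hDK : 8 * 2 ^ K1 ≤ D) (hq : (D : ℤ) ≤ |lvl false q| ∨ (D : ℤ) ≤ |lvl true q|) :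
    gf (SE q) ≤ ENNReal.ofReal (A * (8 : ℝ) ^ a * (1 - (2 : ℝ) ^ (-a))⁻¹ * (D : ℝ) ^ (-a)) := by
  have hr : (2 : ℝ) ^ (-a) < 1 := Real.rpow_lt_one_of_one_lt_of_neg (by norm_num) (by linarith)
  have hr0 : 0 < (2 : ℝ) ^ (-a) := by positivity
  have hDR : (0 : ℝ) < D := by
    have : 0 < D := by omega
    exact_mod_cast this
  obtain ⟨K0, hK0⟩ : ∃ K0, K0 = Nat.log 2 (D / 4) := ⟨_, rfl⟩
  have hne : D / 4 ≠ 0 := by omega
  have hlog := Nat.lt_pow_succ_log_self (b := 2) (by norm_num) (D / 4)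
  rw [← hK0] at hlog
  have hK1 : K1 ≤ K0 := by
    rw [hK0]
    apply Nat.le_log_of_pow_le (by norm_num)
    omega
  have hsub : SE q ⊆ ⋃ j : ℕ, TPC.EndK (K0 + j) q := by
    intro t ht
    obtain ⟨K, hK, h2⟩ := Set.mem_iUnion.1 (SE_sub hD hq ht)
    have h3 : K0 ≤ K := by
      by_contra hc
      have h4 : 2 ^ (K + 1) ≤ 2 ^ K0 := Nat.pow_le_pow_right (by norm_num) (by omega)
      have h5 : 2 ^ K0 ≤ D / 4 := by
        rw [hK0]
        exact Nat.pow_log_le_self 2 hne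
      rw [pow_succ] at h4
      omega
    obtain ⟨j, rfl⟩ : ∃ j, K = K0 + j := ⟨K - K0, by omega⟩
    exact Set.mem_iUnion.2 ⟨j, h2⟩
  refine (gf_mono hsub).trans ((ENNReal.tsum_iUnion_le_tsum wE _).trans ?_)
  have h6 : ∀ j : ℕ, gf (TPC.EndK (K0 + j) q) ≤ ENNReal.ofReal (A * (2 : ℝ) ^ (-a * (K0 : ℝ)) * ((2 : ℝ) ^ (-a)) ^ j) := by
    intro j
    refine (h (K0 + j) (by omega)).trans (ENNReal.ofReal_le_ofReal (le_of_eq ?_))
    rw [mul_assoc, ← Real.rpow_natCast ((2 : ℝ) ^ (-a)) j, ← Real.rpow_mul (by norm_num), ← Real.rpow_add (by norm_num)]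
    push_cast
    congr 2
    ring
  refine (ENNReal.tsum_le_tsum h6).trans ?_
  rw [← ENNReal.ofReal_tsum_of_nonneg (fun j => by positivity) ((summable_geometric_of_lt_one hr0.le hr).mul_left _),
    tsum_mul_left, tsum_geometric_of_lt_one hr0.le hr]
  apply ENNReal.ofReal_le_ofReal
  have h7 : (D : ℝ) ≤ 8 * 2 ^ K0 := by
    have : D ≤ 8 * 2 ^ K0 := by
      rw [pow_succ] at hlog
      omega
    exact_mod_cast this
  have h8 : (2 : ℝ) ^ (-a * (K0 : ℝ)) ≤ 8 ^ a * (D : ℝ) ^ (-a) := by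
    have e1 : (2 : ℝ) ^ (-a * (K0 : ℝ)) = ((2 : ℝ) ^ K0) ^ (-a) := by
      rw [← Real.rpow_natCast, ← Real.rpow_mul (by norm_num)]
      congr 1
      ring
    have e2 : (D : ℝ) / 8 ≤ 2 ^ K0 := by linarith
    rw [e1]
    calc ((2 : ℝ) ^ K0) ^ (-a) ≤ ((D : ℝ) / 8) ^ (-a) :=
          Real.rpow_le_rpow_of_nonpos (by positivity) e2 (by linarith)
      _ = 8 ^ a * (D : ℝ) ^ (-a) := by
          rw [Real.div_rpow (by positivity) (by norm_num), Real.rpow_neg (by norm_num : (0 : ℝ) ≤ 8)]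
          field_simp
  have h9 : 0 < (1 - (2 : ℝ) ^ (-a))⁻¹ := inv_pos.2 (by linarith)
  calc A * (2 : ℝ) ^ (-a * (K0 : ℝ)) * (1 - (2 : ℝ) ^ (-a))⁻¹
      ≤ A * (8 ^ a * (D : ℝ) ^ (-a)) * (1 - (2 : ℝ) ^ (-a))⁻¹ := by gcongr
    _ = _ := by ring

/-- **THE UPPER BOUND** -/
theorem up_gf (hU : BAR.HUp (61 / 48)) {ε : ℝ} (hε : 0 < ε) : ∃ (C : ℝ) (D0 : ℕ), ∀ (q : Pt) (D : ℕ), D0 ≤ D →
    ((D : ℤ) ≤ |lvl false q| ∨ (D : ℤ) ≤ |lvl true q|) → gf (SE q) ≤ ENNReal.ofReal (C * (D : ℝ) ^ (-(5 / 24) + ε)) := by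
  obtain ⟨e, hed⟩ : ∃ e : ℝ, e = min ε (1 / 24) := ⟨_, rfl⟩
  have he : 0 < e := by rw [hed]; exact lt_min hε (by norm_num)
  have he1 : e ≤ ε := hed ▸ min_le_left _ _
  have he2 : e ≤ 1 / 24 := hed ▸ min_le_right _ _
  obtain ⟨A, K1, hA, h⟩ := endK_eps hU he
  obtain ⟨a, had⟩ : ∃ a : ℝ, a = 5 / 24 - e := ⟨_, rfl⟩
  have ha : 0 < a := by rw [had]; linarith
  refine ⟨A * (8 : ℝ) ^ a * (1 - (2 : ℝ) ^ (-a))⁻¹, 6 + 8 * 2 ^ K1, fun q D hD hq => ?_⟩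
  have h1 := sum_scales (q := q) hA ha (K1 := K1) (fun K hK => by
    have := h K q hK
    rwa [show -(5 / 24) + e = -a by rw [had]; ring] at this) (D := D) (by omega) (by omega) hq
  refine h1.trans (ENNReal.ofReal_le_ofReal ?_)
  have hr : (2 : ℝ) ^ (-a) < 1 := Real.rpow_lt_one_of_one_lt_of_neg (by norm_num) (by linarith)
  have h9 : 0 < (1 - (2 : ℝ) ^ (-a))⁻¹ := inv_pos.2 (by linarith)
  have hD1 : (1 : ℝ) ≤ D := by
    have : 1 ≤ D := by omega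
    exact_mod_cast this
  apply mul_le_mul_of_nonneg_left _ (by positivity)
  apply Real.rpow_le_rpow_of_exponent_le hD1
  rw [had]
  linarith

end TPF

end HexObs
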