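import Pool.Agent.TPF.UpCls
import Pool.Agent.SIM.TopCut
import Pool.Agent.SIM.TopFd
import Pool.Agent.SIM.CutV

/-!
# TPF (two-point function of the plane): a run of bad leaves or a good leaf (helper29)

* `run_or_good`: a word of large vertical extent has a long run of leaves without cuts, or a leaf with cuts;
* `good_cut3`: a leaf with cuts gives three nested bridges.
-/

set_option autoImplicit false

namespace HexObs

namespace TPF

open Finset TS SDN NTW NTA SIM

open scoped ENNReal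

/-- a leaf of the walk that is not in the class S -/
def GoodL (S : Set (List Bool)) (kc J : ℕ) (t : List Bool) : Prop :=
  ∃ (m u : ℕ) (e : ℕ → ℕ), Fd (kc + 5) t m u e ∧ ∃ l, l < m ∧ ∃ g, PosL t u e l g ∧
    g ∈ BrR (2 ^ (kc + 4)) (2 ^ (kc + J + 2)) ∧ g ∉ S

section ext

variable {b m u : ℕ} {t : List Bool} {e : ℕ → ℕ}

/-- the total height of the leaves -/
def totH (t : List Bool) (m : ℕ) (e : ℕ → ℕ) : ℤ := ∑ l ∈ range m, |lev t (e (l + 1)) - lev t (e l)|

lemma totH_nonneg : 0 ≤ totH t m e := Finset.sum_nonneg fun _ _ => abs_nonneg _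

lemma fold_dist {a c : ℕ} (hac : a ≤ c) (hc : c ≤ m) : |lev t (e c) - lev t (e a)| ≤ totH t m e := by
  have h : ∀ c, a ≤ c → c ≤ m → |lev t (e c) - lev t (e a)| ≤ ∑ l ∈ range c, |lev t (e (l + 1)) - lev t (e l)| := by
    intro c hac
    induction c, hac using Nat.le_induction with
    | base =>
      intro _
      rw [sub_self, abs_zero]
      exact Finset.sum_nonneg fun _ _ => abs_nonneg _
    | succ c _ ih =>
      intro hc
      rw [Finset.sum_range_succ]
      have h1 := ih (by omega)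
      have h2 := abs_add_le (lev t (e (c + 1)) - lev t (e c)) (lev t (e c) - lev t (e a))
      rw [sub_add_sub_cancel] at h2
      linarith
  refine (h c hac hc).trans ?_
  exact Finset.sum_le_sum_of_subset_of_nonneg (Finset.range_mono hc) fun _ _ _ => abs_nonneg _

/-- every time is close to the level of a fold, from above and from below -/
lemma near_fold (hF : Fd b t m u e) {i : ℕ} (hi : i ≤ t.length) :
    (∃ l, l ≤ m ∧ lev t i ≤ lev t (e l) + RR b) ∧ ∃ l, l ≤ m ∧ lev t (e l) - RR b ≤ lev t i := by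
  obtain ⟨hm, hG, hbig, hsm, hst, hfin⟩ := hF
  by_cases h0 : i ≤ e 0
  · have a1 := hst i (e 0) h0 le_rfl
    have a2 := hst (e 0) i le_rfl h0
    exact ⟨⟨0, Nat.zero_le _, by omega⟩, ⟨0, Nat.zero_le _, by omega⟩⟩
  by_cases h1 : e m ≤ i
  · have a1 := hfin i (e m) h1 hi le_rfl hG.le
    have a2 := hfin (e m) i le_rfl hG.le h1 hi
    exact ⟨⟨m, le_rfl, by omega⟩, ⟨m, le_rfl, by omega⟩⟩
  push Not at h0 h1
  obtain ⟨q, q1, q2, q3⟩ : ∃ q, q < m ∧ e q ≤ i ∧ i < e (q + 1) := by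
    by_contra hn
    have : ∀ q, q ≤ m → e q ≤ i := by
      intro q
      induction q with
      | zero => intro _; exact h0.le
      | succ q ih =>
        intro hq
        have h3 := ih (by omega)
        by_contra h4
        exact hn ⟨q, by omega, h3, by omega⟩
    have := this m le_rfl
    omega
  have hhi := hG.hi q q1 i q2 q3.le
  have hlo : Tight.sg (u + q) (lev t (e q)) ≤ Tight.sg (u + q) (lev t i) := by
    rcases Nat.eq_zero_or_pos q with hq0 | hq0
    · subst hq0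
      exact hG.lo0 i q2 q3.le
    · rcases Nat.lt_or_ge (e q) i with h3 | h3
      · exact (hG.lo q hq0 q1 i h3 q3.le).le
      · have : i = e q := by omega
        rw [this]
  have hb : 0 ≤ RR b := by
    unfold RR
    have : (1 : ℤ) ≤ 2 ^ b := one_le_pow₀ (by norm_num)
    omega
  unfold Tight.sg at hhi hlo
  split_ifs at hhi hlo
  · exact ⟨⟨q, q1.le, by omega⟩, ⟨q + 1, q1, by omega⟩⟩
  · exact ⟨⟨q + 1, q1, by omega⟩, ⟨q, q1.le, by omega⟩⟩

/-- the extent is at most the total height -/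
lemma ext_le (hF : Fd b t m u e) {i i' : ℕ} (hi : i ≤ t.length) (hi' : i' ≤ t.length) :
    lev t i - lev t i' ≤ 2 * RR b + totH t m e := by
  obtain ⟨l, l1, l2⟩ := (near_fold hF hi).1
  obtain ⟨l', l1', l2'⟩ := (near_fold hF hi').2
  have h : lev t (e l) - lev t (e l') ≤ totH t m e := by
    rcases le_total l l' with h | h
    · have := fold_dist (t := t) (e := e) h l1'
      rw [abs_le] at this
      omega
    · have := fold_dist (t := t) (e := e) h l1
      rw [abs_le] at this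
      omega
  omega

end ext

/-- **a long run of bad leaves, or a good leaf** -/
theorem run_or_good {kc J s V : ℕ} {S : Set (List Bool)} {t : List Bool} (ht : t ∈ WL (kc + J))
    (hY : ∃ i i', i ≤ t.length ∧ i' ≤ t.length ∧ 3 * RR (kc + 5) + 6 * (V * 2 ^ (kc + s)) ≤ lev t i - lev t i') :
    t ∈ ER kc J (RunB kc s S V) ∨ GoodL S kc J t := by
  classical
  obtain ⟨i, i', hi, hi', hY⟩ := hY
  have hRR : 12 ≤ RR (kc + 5) := by
    unfold RR
    have : (32 : ℤ) ≤ 2 ^ (kc + 5) := by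
      calc (32 : ℤ) = 2 ^ 5 := by norm_num
        _ ≤ _ := pow_le_pow_right₀ (by norm_num) (by omega)
    omega
  have hV0 : (0 : ℤ) ≤ 6 * (V * 2 ^ (kc + s)) := by positivity
  obtain ⟨m, u, e, hF⟩ : ∃ m u e, Fd (kc + 5) t m u e := by
    rcases fd_exists (b := kc + 5) (by omega) ht.1 with h | h
    · exfalso
      have := h i i' hi hi'
      omega
    · exact h
  by_cases hgood : ∃ l, l < m ∧ ∃ g, PosL t u e l g ∧ g ∈ BrR (2 ^ (kc + 4)) (2 ^ (kc + J + 2)) ∧ g ∉ S
  · obtain ⟨l, hl, g, hg⟩ := hgood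
    exact Or.inr ⟨m, u, e, hF, l, hl, g, hg⟩
  push Not at hgood
  refine Or.inl ⟨ht, m, u, e, hF, 0, m, hF.1, by omega, fun ms hlen hpos _ _ hbox => ?_⟩
  have hm := hF.1
  refine ⟨fun h => ?_, fun g hg => ?_, ?_⟩
  · rw [h, List.length_nil] at hlen
    omega
  · obtain ⟨i, hi, rfl⟩ := List.getElem_of_mem hg
    have hp := hpos i hi
    rw [zero_add] at hp
    obtain ⟨h', h1, h2, h3⟩ := hbox _ hg
    obtain ⟨c1, c2, c3⟩ := fd_cl hF (by omega : i < m) hp h3
    exact ⟨hgood i (by omega) _ hp (hbox _ hg), c1, ⟨h', h1, h3⟩⟩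
  · -- the sum of the heights
    have hT := ext_le hF hi hi'
    have hk : ∀ (l : ℕ) (hl : l < ms.length), |lev t (e (l + 1)) - lev t (e l)| ≤ 6 * (hgt ms[l] : ℤ) := by
      intro l hl
      have hp := hpos l hl
      rw [zero_add] at hp
      obtain ⟨h', h1, h2, h3⟩ := hbox _ (List.getElem_mem hl)
      obtain ⟨c1, c2, c3⟩ := fd_cl hF (by omega : l < m) hp h3
      rw [hgt_eq h3]
      have hb := hF.2.2.1 l (by omega)
      have hb2 : RR (kc + 5) ≤ |lev t (e (l + 1)) - lev t (e l)| := by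
        refine hb.trans ?_
        unfold Tight.sg
        split_ifs
        · have := neg_abs_le (lev t (e (l + 1)) - lev t (e l))
          omega
        · exact le_abs_self _
      rw [abs_le] at c3
      omega
    have hsum : totH t m e ≤ 6 * (2 ^ (kc + s) * (((ms.map fun g => hgt g / 2 ^ (kc + s) + 1).sum : ℕ) : ℤ)) := by
      rw [← Fin.sum_univ_fun_getElem ms (fun g => hgt g / 2 ^ (kc + s) + 1)]
      unfold totH
      rw [← hlen, Finset.sum_range]
      push_cast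
      rw [Finset.mul_sum, Finset.mul_sum]
      refine Finset.sum_le_sum fun l _ => ?_
      refine (hk l.1 l.2).trans ?_
      have h1 : hgt ms[l.1] < 2 ^ (kc + s) * (hgt ms[l.1] / 2 ^ (kc + s) + 1) := Nat.lt_mul_div_succ _ (by positivity)
      have h2 : (hgt ms[l.1] : ℤ) ≤ 2 ^ (kc + s) * ((hgt ms[l.1] : ℤ) / 2 ^ (kc + s) + 1) := by
        have h3 : ((hgt ms[l.1] : ℕ) : ℤ) ≤ ((2 ^ (kc + s) * (hgt ms[l.1] / 2 ^ (kc + s) + 1) : ℕ) : ℤ) := by
          exact_mod_cast h1.le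
        push_cast at h3
        exact h3
      linarith
    have h5 : (V : ℤ) * 2 ^ (kc + s) ≤ 2 ^ (kc + s) * (((ms.map fun g => hgt g / 2 ^ (kc + s) + 1).sum : ℕ) : ℤ) := by
      omega
    rw [mul_comm] at h5
    have h6 := le_of_mul_le_mul_left h5 (by positivity : (0 : ℤ) < 2 ^ (kc + s))
    exact_mod_cast h6

/-- **the decomposition at a leaf with cuts** -/
theorem good_cut3 {kc J : ℕ} {c r : ℕ → ℕ} (hcr : ∀ k, k < 3 → c k + r k + 1 ≤ c (k + 1)) (hc3 : c 3 + r 3 ≤ kc + 3)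
    (hc0 : 1 ≤ c 0) {S : Set (List Bool)} (hS : ∀ k, k < 4 → NoCut (c k) (r k) ⊆ S)
    {t : List Bool} (ht : t ∈ WL (kc + J)) (hE : GoodL S kc J t) :
    Cut3 (fun _ _ _ => True) {t | t ∈ WL (kc + J) ∧ ∃ m u e, Fd (kc + 3) t m u e ∧ e m = t.length}
      {t | t ∈ WL (kc + J + 1) ∧ ∃ m u e, Fd (c 0) t m u e ∧ e 0 = 0} (2 ^ (c 0 + r 0)) (2 ^ (c 3 + r 3)) t := by
  have hp0 : (0 : ℤ) < 2 ^ (kc + 3) := by positivity
  have w0 := hcr 0 (by norm_num)
  have w1 := hcr 1 (by norm_num)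
  have w2 := hcr 2 (by norm_num)
  simp only [Nat.zero_add, Nat.reduceAdd] at w0 w1 w2
  have hmo : ∀ k, k < 4 → c k + r k ≤ kc + 3 := by
    intro k hk
    rcases (by omega : k = 0 ∨ k = 1 ∨ k = 2 ∨ k = 3) with rfl | rfl | rfl | rfl <;> omega
  obtain ⟨m, u, e, hF, l, hl, g, hpos, hgB, hgS⟩ := hE
  obtain ⟨hh, hD1, hD2, hgh⟩ := hgB
  obtain ⟨v, v1, v2, v3, v4, v5⟩ := hpos
  obtain ⟨D, hD⟩ : ∃ D, D = dD false (u + l) := ⟨_, rfl⟩
  have hDm : D ∈ dirs := by rw [hD]; exact dD_mem _ _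
  have hxD' : ∀ k, xD D t k = Tight.sg (u + l) (lev t k) := by
    intro k
    rw [hD, xD_lev]
  have hlen : e (l + 1) ≤ t.length := by
    have hmono : ∀ c, l + 1 ≤ c → c ≤ m → e (l + 1) ≤ e c := by
      intro c hac
      induction c, hac using Nat.le_induction with
      | base => intro _; exact le_rfl
      | succ c _ ih =>
        intro hc
        have h3 := ih (by omega)
        have h4 := hF.2.1.lt c (by omega)
        omega
    exact (hmono m (by omega) le_rfl).trans hF.2.1.le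
  obtain ⟨z, hz⟩ : ∃ z, z = v + g.length := ⟨_, rfl⟩
  have hzl : z ≤ t.length := by omega
  have hlev : ∀ k, 1 ≤ k → k ≤ g.length → lev g k - lev g 1 = xD D t (v + k) - xD D t (v + 1) := by
    intro k k1 k2
    rw [v5 k k1 k2, hxD', hxD']
    unfold Tight.sg
    split_ifs <;> ring
  have hgn : ∀ k, k < 4 → ∃ A B : List Bool, A ∈ BU ∧ B ∈ BU ∧ g = A ++ B ∧ 2 ^ c k ≤ hgt B ∧
      hgt B ≤ 2 ^ (c k + r k) := by
    intro k hk
    by_contra hn
    push Not at hn
    apply hgS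
    apply hS k hk
    intro A B hA hB hg
    rcases Nat.lt_or_ge (hgt B) (2 ^ c k) with h3 | h3
    · exact Or.inl h3
    · exact Or.inr (hn A B hA hB hg h3)
  have hpk : 2 ^ (kc + 4) = 2 * 2 ^ (kc + 3) := by ring
  -- a cut from a window
  have hcut : ∀ k, k < 4 → ∃ p H : ℕ, CutAt D t (v + 1) z p ∧ xD D t z - xD D t p = 3 * H ∧
      2 ^ c k ≤ H ∧ H ≤ 2 ^ (c k + r k) ∧
      3 * 2 ^ (kc + 3) - 2 ≤ xD D t p - xD D t (v + 1) := by
    intro k hk
    obtain ⟨A, B, hA, hB, hg, w1, w2⟩ := hgn k hk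
    have hw3 : 2 ^ (c k + r k) ≤ 2 ^ (kc + 3) := by
      apply Nat.pow_le_pow_right (by norm_num)
      exact hmo k hk
    have hadd : hgt A + hgt B = hh := by
      obtain ⟨a, ha⟩ := hA
      obtain ⟨b, hb⟩ := hB
      rw [hgt_eq ha, hgt_eq hb]
      rw [hg] at hgh
      exact Brd_height (Brd_append ha hb) hgh
    have hB0 : B ≠ [] := by
      rintro rfl
      have h3 : hgt ([] : List Bool) = 0 := hgt_eq nil_mem_Brd
      have h4 : 0 < 2 ^ c k := by positivity
      omega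
    have hA0 : A ≠ [] := by
      rintro rfl
      have h3 : hgt ([] : List Bool) = 0 := hgt_eq nil_mem_Brd
      have h4 : 0 < 2 ^ (kc + 3) := by positivity
      omega
    rw [hg] at hlev
    obtain ⟨c1, c2, c3⟩ := cut_of_split hDm hA hB hA0 hB0 hlev
    rw [← hg, ← hz] at c1 c2
    refine ⟨v + A.length, hgt B, c1, c2, w1, w2, ?_⟩
    rw [c3]
    have h5 : 2 ^ (kc + 3) ≤ hgt A := by omega
    have h6 : ((2 ^ (kc + 3) : ℕ) : ℤ) ≤ (hgt A : ℤ) := by exact_mod_cast h5
    push_cast at h6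
    omega
  obtain ⟨p1, G1, a1, a2, a3, a4, a5⟩ := hcut 0 (by norm_num)
  obtain ⟨p2, G2, b1, b2, b3, b4, b5⟩ := hcut 1 (by norm_num)
  obtain ⟨p3, G3, c1, c2, c3, c4, c5⟩ := hcut 2 (by norm_num)
  obtain ⟨p4, G4, d1, d2, d3, d4, d5⟩ := hcut 3 (by norm_num)
  -- the heights
  have k1 : 2 * 2 ^ (c 0 + r 0) ≤ 2 ^ c 1 := by
    rw [← pow_succ']
    exact Nat.pow_le_pow_right (by norm_num) w0
  have k2 : 2 * 2 ^ (c 1 + r 1) ≤ 2 ^ c 2 := by
    rw [← pow_succ']
    exact Nat.pow_le_pow_right (by norm_num) w1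
  have k3 : 2 * 2 ^ (c 2 + r 2) ≤ 2 ^ c 3 := by
    rw [← pow_succ']
    exact Nat.pow_le_pow_right (by norm_num) w2
  have k6 : 2 ^ (c 0 + r 0) ≤ 2 ^ (c 1 + r 1) := Nat.pow_le_pow_right (by norm_num) (by omega)
  have k7 : 2 ^ (c 0 + r 0) ≤ 2 ^ (c 2 + r 2) := Nat.pow_le_pow_right (by norm_num) (by omega)
  have k8 : 2 ^ (c 3 + r 3) ≤ 2 ^ (kc + 3) := Nat.pow_le_pow_right (by norm_num) hc3
  have k10 : 0 < 2 ^ (c 0 + r 0) := by positivity
  have q12 : p2 < p1 := cut_lt b1 a1 (by omega)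
  have q23 : p3 < p2 := cut_lt c1 b1 (by omega)
  have q34 : p4 < p3 := cut_lt d1 c1 (by omega)
  have hpz : p1 < z := a1.2.1
  obtain ⟨n1, m1, m1'⟩ := cut_mid ht.1 hzl d1 c1 q34.le
  obtain ⟨n2, m2, m2'⟩ := cut_mid ht.1 hzl c1 b1 q23.le
  obtain ⟨n3, m3, m3'⟩ := cut_mid ht.1 hzl b1 a1 q12.le
  have l0 : (t.take p4).length = p4 := by rw [List.length_take]; omega
  have l1 : ((t.drop p4).take (p3 - p4)).length = p3 - p4 := by
    rw [List.length_take, List.length_drop]; omega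
  have l2 : ((t.drop p3).take (p2 - p3)).length = p2 - p3 := by
    rw [List.length_take, List.length_drop]; omega
  have l3 : ((t.drop p2).take (p1 - p2)).length = p1 - p2 := by
    rw [List.length_take, List.length_drop]; omega
  have hRR3 : RR (kc + 3) = 3 * 2 ^ (kc + 3) - 2 := rfl
  have hn4 : (3 : ℤ) * G4 ≤ 3 * 2 ^ (kc + 3) := by
    have h3 : (G4 : ℤ) ≤ ((2 ^ (kc + 3) : ℕ) : ℤ) := by exact_mod_cast d4.trans k8
    push_cast at h3
    omega
  have hn1 : (G1 : ℤ) ≤ G4 := by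
    have : G1 ≤ G4 := by omega
    exact_mod_cast this
  refine ⟨t.take p4, (t.drop p4).take (p3 - p4), (t.drop p3).take (p2 - p3), (t.drop p2).take (p1 - p2), t.drop p1,
    n1, n2, n3, ?_, m1, m2, m3, by omega, by omega, by omega, by omega, by omega, by omega, ?_, ?_, trivial⟩
  · have e3 : (t.drop p2).take (p1 - p2) ++ t.drop p1 = t.drop p2 := by
      have := List.take_append_drop (p1 - p2) (t.drop p2)
      rwa [List.drop_drop, Nat.add_sub_cancel' q12.le] at this
    have e2 : (t.drop p3).take (p2 - p3) ++ t.drop p2 = t.drop p3 := by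
      have := List.take_append_drop (p2 - p3) (t.drop p3)
      rwa [List.drop_drop, Nat.add_sub_cancel' q23.le] at this
    have e1 : (t.drop p4).take (p3 - p4) ++ t.drop p3 = t.drop p4 := by
      have := List.take_append_drop (p3 - p4) (t.drop p4)
      rwa [List.drop_drop, Nat.add_sub_cancel' q34.le] at this
    rw [e3, e2, e1, List.take_append_drop]
  · intro A B hA hB hH
    obtain ⟨w1, w2, w3, w4, w5⟩ := cut_inner hzl d1 c1 q34.le hA hB hH
    rw [← w4]
    rw [hD] at w1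
    refine topE_sub (by omega) (top_mem ht (by omega) hzl w1 ?_)
    rw [hRR3, ← hD]
    have := d5
    omega
  · intro A B hA hB hH
    obtain ⟨w1, w2, w3, w4, w5⟩ := cut_inner hzl b1 a1 q12.le hA hB hH
    rw [← w5]
    have h3 := a1.2.2.2.1 (p2 + A.length) w1.1 w2
    rw [hD] at w1
    refine botS_sub hc0 (bot_mem ht hzl w1 ?_)
    rw [← hD]
    unfold RR
    have h4 : ((2 ^ c 0 : ℕ) : ℤ) ≤ (G1 : ℤ) := by exact_mod_cast a3
    push_cast at h4
    omega

end TPF

end HexObs
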