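import Pool.Agent.TPF.UpPt

/-!
# TPF (two-point function of the plane): the upper bound at one scale, all words (helper29)

* **`endK_le`**: `gf (EndK K y) ≤ C ^ J (4 ^ (- K) + 2 ^ (- 2 ^ (J - s))) Ub K Xb K ^ 2`, all `y`, all `J ≤ K - k1`.
-/

set_option autoImplicit false

namespace HexObs

namespace TPF

open Finset TS SDN NTW NTA SIM

open scoped ENNReal

/-- words of the box of radius 2 ^ K with the end y and a large vertical extent -/
def TallE (K : ℕ) (y : Pt) : Set (List Bool) :=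
  {t | t ∈ WL K ∧ ev t = y ∧ ∃ i, i ≤ t.length ∧ 3 * 2 ^ (K - 4) - 3 ≤ |lev t i|}

/-- **direction false** -/
theorem tallE_le : ∃ (s : ℕ) (C : ℝ) (k1 : ℕ), 1 ≤ C ∧ ∀ (K J : ℕ) (y : Pt), k1 + J ≤ K → s ≤ J →
    gf (TallE K y) ≤ ENNReal.ofReal (C ^ J * (1 / 4 ^ K + 1 / 2 ^ (2 ^ (J - s))) * Ub K) * Xb K ^ 2 := by
  obtain ⟨s, d, h0, hd, C, k1, hC, hbad⟩ := bad_pt
  obtain ⟨C', k1', hC', hgood⟩ := good_pt h0 hd
  refine ⟨s + 16, max C C', k1 + k1' + 1, hC.trans (le_max_left _ _), fun K J y hK hJ => ?_⟩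
  obtain ⟨kc, hkc⟩ : ∃ kc, kc = K - J := ⟨_, rfl⟩
  have hKe : kc + J = K := by omega
  subst hKe
  have hC0 : 0 < C := by linarith
  have hC0' : 0 < C' := by linarith
  have hM : 1 ≤ max C C' := hC.trans (le_max_left _ _)
  have hU := Ub_pos (kc + J)
  have h1 := hbad kc J (2 ^ (J - (s + 16))) (by omega) (by omega)
  have h2 := hgood kc J y (by omega) (by omega)
  have hsub : TallE (kc + J) y ⊆ {t | t ∈ WL (kc + J) ∧ GoodL (Nc4 d kc) kc J t ∧ ev t = y} ∪
      {t | t ∈ WL (kc + J) ∧ ¬ GoodL (Nc4 d kc) kc J t ∧ ∃ i i', i ≤ t.length ∧ i' ≤ t.length ∧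
      3 * RR (kc + 5) + 6 * ((2 ^ (J - (s + 16)) : ℕ) * 2 ^ (kc + s)) ≤ lev t i - lev t i'} := by
    rintro t ⟨a1, a2, i, a3, a4⟩
    by_cases hg : GoodL (Nc4 d kc) kc J t
    · exact Or.inl ⟨a1, hg, a2⟩
    · refine Or.inr ⟨a1, hg, ?_⟩
      have hnum : 3 * RR (kc + 5) + 6 * (((2 ^ (J - (s + 16)) : ℕ) : ℤ) * 2 ^ (kc + s)) ≤ 3 * 2 ^ (kc + J - 4) - 3 := by
        have e1 : (((2 ^ (J - (s + 16)) : ℕ) : ℤ) * 2 ^ (kc + s)) = 2 ^ (kc + J - 16) := by
          push_cast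
          rw [← pow_add]
          congr 1
          omega
        have e2 : (2 : ℤ) ^ (kc + J - 4) = 4096 * 2 ^ (kc + J - 16) := by
          rw [show kc + J - 4 = 12 + (kc + J - 16) by omega, pow_add]
          norm_num
        have e3 : (2 : ℤ) ^ (kc + 5) ≤ 32 * 2 ^ (kc + J - 16) := by
          rw [pow_add, mul_comm]
          have : (2 : ℤ) ^ kc ≤ 2 ^ (kc + J - 16) := pow_le_pow_right₀ (by norm_num) (by omega)
          norm_num
          linarith
        have e4 : (1 : ℤ) ≤ 2 ^ (kc + J - 16) := one_le_pow₀ (by norm_num)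
        rw [e1, e2]
        unfold RR
        omega
      have h3 : lev t 0 = 0 := lev_zero t
      rcases abs_cases (lev t i) with ⟨b1, b2⟩ | ⟨b1, b2⟩
      · exact ⟨i, 0, a3, Nat.zero_le _, by rw [h3]; omega⟩
      · exact ⟨0, i, Nat.zero_le _, a3, by rw [h3]; omega⟩
  refine (gf_mono hsub).trans ((gf_union_le _ _).trans ((add_le_add h2 h1).trans ?_))
  rw [← add_mul, ← ENNReal.ofReal_add (by positivity) (by positivity)]
  refine mul_le_mul' (ENNReal.ofReal_le_ofReal ?_) le_rfl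
  have e1 : C' ^ J ≤ max C C' ^ J := pow_le_pow_left₀ hC0'.le (le_max_right _ _) J
  have e2 : C ^ J ≤ max C C' ^ J := pow_le_pow_left₀ hC0.le (le_max_left _ _) J
  calc C' ^ J * (Ub (kc + J) / 4 ^ (kc + J)) + C ^ J * (1 / 2 ^ (2 ^ (J - (s + 16)))) * Ub (kc + J)
      ≤ max C C' ^ J * (Ub (kc + J) / 4 ^ (kc + J)) + max C C' ^ J * (1 / 2 ^ (2 ^ (J - (s + 16)))) * Ub (kc + J) := by
        gcongr
    _ = _ := by ring

/-- zigzags in front, the end of the rest depends on the zigzag -/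
lemma gf_zzq {E : ℕ → Set (List Bool)} {B : ℝ≥0∞} (h : ∀ q, gf (E q) ≤ B) :
    gf {t | ∃ q, ∃ s ∈ E q, t = DirA.Qz q ++ s} ≤ ENNReal.ofReal DirA.CD * B := by
  have h1 : {t | ∃ q, ∃ s ∈ E q, t = DirA.Qz q ++ s} = ⋃ q : ℕ, {t | ∃ s ∈ E q, t = DirA.Qz q ++ s} := by
    ext t
    simp only [Set.mem_ofPred_eq, Set.mem_iUnion]
  rw [h1]
  refine (ENNReal.tsum_iUnion_le_tsum wE _).trans ?_
  have h2 : ∀ q : ℕ, gf {t | ∃ s ∈ E q, t = DirA.Qz q ++ s} ≤ ENNReal.ofReal (xc ^ q) * B := by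
    intro q
    have h3 : gf ({DirA.Qz q} : Set (List Bool)) = ENNReal.ofReal (xc ^ q) := by
      have := gf_finset {DirA.Qz q}
      rw [Finset.coe_singleton, Finset.sum_singleton, DirA.Qz_length] at this
      exact this
    rw [← h3]
    refine (gf_le_mul (Q := {DirA.Qz q}) (R := E q) fun t ht => ?_).trans (mul_le_mul' le_rfl (h q))
    obtain ⟨s, hs, h4⟩ := ht
    exact ⟨DirA.Qz q, rfl, s, hs, h4⟩
  refine (ENNReal.tsum_le_tsum h2).trans ?_
  rw [ENNReal.tsum_mul_right]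
  exact mul_le_mul_left (le_of_eq DirA.tsum_xc) _

/-- **all words of the exact scale K with the end y** -/
theorem endK_sub {K : ℕ} (hK : 1 ≤ K) (y : Pt) {B B' : ℝ≥0∞} (h : gf (TallE K y) ≤ B) (h' : ∀ y', gf (TallE (K + 3) y') ≤ B') :
    gf (TPC.EndK K y) ≤ B + ENNReal.ofReal DirA.CD * B' := by
  classical
  obtain ⟨yq, hyq⟩ : ∃ yq : ℕ → Pt, yq = fun q => mulE (conjE (rotTo up (dx up (DirA.Qz q) (DirA.Qz q).length)))
      (y - ev (DirA.Qz q)) := ⟨_, rfl⟩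
  have hsub : TPC.EndK K y ⊆ TallE K y ∪ {t | ∃ q, ∃ s ∈ TallE (K + 3) (yq q), t = DirA.Qz q ++ s} := by
    rintro t ⟨hW, hn, he⟩
    have he' : ev t = y := he
    have hp : (2 : ℤ) ^ K = 2 * 2 ^ (K - 1) := by
      rw [← pow_succ', show K - 1 + 1 = K by omega]
    have hp1 : (1 : ℤ) ≤ 2 ^ (K - 1) := one_le_pow₀ (by norm_num)
    obtain ⟨i, hi, dir, hrow⟩ : ∃ i, i ≤ t.length ∧ ∃ dir, 2 ^ (K - 1) < |row dir (vx oo up t i)| := by
      by_contra hc
      push Not at hc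
      exact hn ⟨hW.1, hc⟩
    have hlv : 3 * 2 ^ (K - 1) ≤ |lvl dir (vx oo up t i)| := by
      unfold row at hrow
      rcases abs_cases (lvl dir (vx oo up t i) / 3) with ⟨b1, b2⟩ | ⟨b1, b2⟩
      · rw [b1] at hrow
        refine le_trans ?_ (le_abs_self _)
        omega
      · rw [b1] at hrow
        refine le_trans ?_ (neg_le_abs _)
        omega
    cases dir
    · left
      refine ⟨hW, he', i, hi, ?_⟩
      have e1 : (2 : ℤ) ^ (K - 4) ≤ 2 ^ (K - 1) := pow_le_pow_right₀ (by norm_num) (by omega)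
      have e2 : lvl false (vx oo up t i) = lev t i := rfl
      rw [e2] at hlv
      omega
    · right
      have hex : ∃ q, q ≤ i ∧ DirA.vert (dx up t q) := by
        by_contra hc
        push Not at hc
        have h1 : ∀ j, j < i → ¬ DirA.vert (dx up t j) := fun j hj => hc j hj.le
        have h2 := DirA.zz_lvl h1 i le_rfl
        rw [h2] at hlv
        split_ifs at hlv
        · rw [abs_zero] at hlv
          omega
        · rw [abs_neg, abs_one] at hlv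
          omega
      obtain ⟨hq, hv⟩ := Nat.find_spec hex
      have hmin : ∀ j, j < Nat.find hex → ¬ DirA.vert (dx up t j) := fun j hj h => Nat.find_min hex hj ⟨by omega, h⟩
      set q := Nat.find hex
      have hql : q ≤ t.length := hq.trans hi
      have hWd := RD.drop_WL hW hql hv
      obtain ⟨σ, hσ, h1, h2, h3⟩ := RD.drop_dir hql hv
      have htk := DirA.take_eq hql hmin hv
      have hsplit : t = DirA.Qz q ++ t.drop q := by rw [← htk, List.take_append_drop]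
      refine ⟨q, t.drop q, ⟨hWd, ?_, i - q, by rw [List.length_drop]; omega, ?_⟩, hsplit⟩
      · have h4 := ev_app (DirA.Qz q) (t.drop q)
        rw [← hsplit, he'] at h4
        rw [hyq]
        simp only
        rw [h4, add_sub_cancel_left, mulE_conj (nrm_rotTo BAR.up_dirs (dx_mem BAR.up_dirs _ _))]
      · have h4 := h1 (i - q)
        rw [show q + (i - q) = i by omega] at h4
        have h5 := DirA.zz_lvl hmin q le_rfl
        have h6 : |lvl true (vx oo up t i)| ≤ 1 + |lev (t.drop q) (i - q)| := by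
          rw [h4, h5]
          refine (abs_add_le _ _).trans (add_le_add ?_ ?_)
          · split_ifs <;> norm_num
          · rw [abs_mul]
            rcases hσ with rfl | rfl <;> simp
        have e1 : (2 : ℤ) ^ (K + 3 - 4) = 2 ^ (K - 1) := by congr 1
        rw [e1]
        omega
  exact (gf_mono hsub).trans ((gf_union_le _ _).trans (add_le_add h (gf_zzq fun q => h' (yq q))))

/-- **the upper bound at one scale** -/
theorem endK_le : ∃ (s : ℕ) (C : ℝ) (k1 : ℕ), 1 ≤ C ∧ ∀ (K J : ℕ) (y : Pt), k1 + J ≤ K → s ≤ J →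
    gf (TPC.EndK K y) ≤ ENNReal.ofReal (C ^ J * (1 / 4 ^ K + 1 / 2 ^ (2 ^ (J - s))) * Ub K) * Xb K ^ 2 := by
  obtain ⟨s, C, k1, hC, h⟩ := tallE_le
  obtain ⟨D, hD, hXD⟩ := Xb_pow
  have hCD := DirA.CD_ge
  obtain ⟨A, hA⟩ : ∃ A : ℝ, A = 1 + DirA.CD * (8 * (D ^ 3) ^ 2) := ⟨_, rfl⟩
  have hD0 : 0 < D := by linarith
  have hA1 : 1 ≤ A := by
    rw [hA]
    have h0 : 0 ≤ DirA.CD := by linarith
    have : 0 ≤ DirA.CD * (8 * (D ^ 3) ^ 2) := by positivity
    linarith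
  have hCD0 : 0 ≤ DirA.CD := by linarith
  refine ⟨s + 1, A * C, k1 + 1, one_le_mul_of_one_le_of_one_le hA1 hC, fun K J y hK hJ => ?_⟩
  have hU := Ub_pos K
  have hU3p := Ub_pos (K + 3)
  have hU3 : Ub (K + 3) ≤ 8 * Ub K := by
    have := Ub_add K 3
    norm_num at this
    exact this
  have hC0 : 0 < C := by linarith
  have h1 := h K J y (by omega) (by omega)
  have h2 : ∀ y', gf (TallE (K + 3) y') ≤
      ENNReal.ofReal (C ^ J * (1 / 4 ^ K + 1 / 2 ^ (2 ^ (J - (s + 1)))) * (8 * (D ^ 3) ^ 2) * Ub K) * Xb K ^ 2 := by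
    intro y'
    refine (h (K + 3) J y' (by omega) (by omega)).trans ?_
    refine (mul_le_mul' le_rfl (pow_le_pow_left' (hXD K 3) 2)).trans ?_
    rw [mul_pow, ← ENNReal.ofReal_pow (by positivity), ← mul_assoc, ← ENNReal.ofReal_mul (by positivity)]
    refine mul_le_mul' (ENNReal.ofReal_le_ofReal ?_) le_rfl
    have e1 : (1 : ℝ) / 4 ^ (K + 3) ≤ 1 / 4 ^ K :=
      one_div_le_one_div_of_le (by positivity) (pow_le_pow_right₀ (by norm_num) (by omega))
    have e2 : (1 : ℝ) / 2 ^ (2 ^ (J - s)) ≤ 1 / 2 ^ (2 ^ (J - (s + 1))) :=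
      one_div_le_one_div_of_le (by positivity) (pow_le_pow_right₀ (by norm_num)
        (Nat.pow_le_pow_right (by norm_num) (by omega)))
    calc C ^ J * (1 / 4 ^ (K + 3) + 1 / 2 ^ (2 ^ (J - s))) * Ub (K + 3) * (D ^ 3) ^ 2
        ≤ C ^ J * (1 / 4 ^ K + 1 / 2 ^ (2 ^ (J - (s + 1)))) * (8 * Ub K) * (D ^ 3) ^ 2 := by gcongr
      _ = _ := by ring
  refine (endK_sub (by omega) y h1 h2).trans ?_
  rw [← mul_assoc, ← ENNReal.ofReal_mul (by positivity), ← add_mul, ← ENNReal.ofReal_add (by positivity) (by positivity)]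
  refine mul_le_mul' (ENNReal.ofReal_le_ofReal ?_) le_rfl
  have e2 : (1 : ℝ) / 2 ^ (2 ^ (J - s)) ≤ 1 / 2 ^ (2 ^ (J - (s + 1))) :=
    one_div_le_one_div_of_le (by positivity) (pow_le_pow_right₀ (by norm_num)
      (Nat.pow_le_pow_right (by norm_num) (by omega)))
  have e3 : A ≤ A ^ J := le_self_pow₀ hA1 (by omega)
  calc C ^ J * (1 / 4 ^ K + 1 / 2 ^ (2 ^ (J - s))) * Ub K +
        DirA.CD * (C ^ J * (1 / 4 ^ K + 1 / 2 ^ (2 ^ (J - (s + 1)))) * (8 * (D ^ 3) ^ 2) * Ub K)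
      ≤ C ^ J * (1 / 4 ^ K + 1 / 2 ^ (2 ^ (J - (s + 1)))) * Ub K +
        DirA.CD * (C ^ J * (1 / 4 ^ K + 1 / 2 ^ (2 ^ (J - (s + 1)))) * (8 * (D ^ 3) ^ 2) * Ub K) := by gcongr
    _ = A * (C ^ J * (1 / 4 ^ K + 1 / 2 ^ (2 ^ (J - (s + 1)))) * Ub K) := by
        rw [hA]
        ring
    _ ≤ A ^ J * (C ^ J * (1 / 4 ^ K + 1 / 2 ^ (2 ^ (J - (s + 1)))) * Ub K) := by gcongr
    _ = _ := by
        rw [mul_pow]
        ring

end TPF

end HexObs
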