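import Pool.Agent.TPF.GdSE

/-!
# TPF (two-point function of the plane): the vertices (helper29)

* `vert_of`: the vertices of the lattice, their classes mod 3;
* `Gd_pos`: every vertex is the end of a self-avoiding walk from 0;
* `sector`: every vertex has a rotation (120 degrees) in the sector of the lower bound.
-/

set_option autoImplicit false

namespace HexObs

namespace TPF

open Finset SDN SawNu XI72 HexObs.PHWDict

open scoped ENNReal

/-- class of the position after the steps of l -/
def mc (b : Bool) (n : ℕ) : ℤ := if n.bodd then (if b then 1 else 2) else 0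

lemma step_cls {b : Bool} {s : SawNu.Pt} (h : s ∈ hexL.S b) :
    ∃ q : HexObs.Pt, s = -HexMu.psi q ∧ (3 : ℤ) ∣ ip q up - (if b then 1 else 2) := by
  revert h
  cases b
  · simp only [hexL, cond_false, Finset.mem_insert, Finset.mem_singleton]
    rintro (rfl | rfl | rfl)
    · exact ⟨(-1, 0), by decide, by decide⟩
    · exact ⟨(1, -1), by decide, by decide⟩
    · exact ⟨(0, 1), by decide, by decide⟩
  · simp only [hexL, cond_true, Finset.mem_insert, Finset.mem_singleton]
    rintro (rfl | rfl | rfl)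
    · exact ⟨(1, 0), by decide, by decide⟩
    · exact ⟨(-1, 1), by decide, by decide⟩
    · exact ⟨(0, -1), by decide, by decide⟩

/-- the positions of the walks -/
lemma vert_of {b : Bool} {l : List SawNu.Pt} (h : TW hexL.S b l) :
    ∃ q : HexObs.Pt, l.sum = -HexMu.psi q ∧ (3 : ℤ) ∣ ip q up - mc b l.length := by
  induction l generalizing b with
  | nil => exact ⟨(0, 0), by simp only [HexMu.psi]; rfl, by simp [ip, mc]⟩
  | cons s l ih =>
    obtain ⟨h1, h2⟩ := h
    obtain ⟨q1, e1, d1⟩ := step_cls h1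
    obtain ⟨q2, e2, d2⟩ := ih h2
    refine ⟨q1 + q2, ?_, ?_⟩
    · rw [List.sum_cons, e1, e2, HexMu.psi_add, neg_add]
    · have h3 : ip (q1 + q2) up = ip q1 up + ip q2 up := by
        simp only [ip, Prod.fst_add, Prod.snd_add]
        ring
      rw [h3, List.length_cons]
      unfold mc at d2 ⊢
      rw [Nat.bodd_succ]
      revert d1 d2
      generalize ip q1 up = u
      generalize ip q2 up = v
      generalize l.length.bodd = c
      intro d1 d2
      cases b <;> cases c <;>
        simp only [Bool.not_true, Bool.not_false, if_true, if_false, Bool.false_eq_true, sub_zero] at d1 d2 ⊢ <;> omega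

/-- the class determines the parity -/
lemma parity_of {b : Bool} {l l' : List SawNu.Pt} (h : TW hexL.S b l) (h' : TW hexL.S b l') (he : l.sum = l'.sum) :
    l.length.bodd = l'.length.bodd := by
  obtain ⟨q, e, d⟩ := vert_of h
  obtain ⟨q', e', d'⟩ := vert_of h'
  rw [e, e'] at he
  have hq : q = q' := HexMu.psi_inj (neg_injective he)
  subst hq
  unfold mc at d d'
  revert d d'
  cases b <;> cases l.length.bodd <;> cases l'.length.bodd <;> simp <;> omega

/-- every position is the end of a self-avoiding walk -/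
lemma exists_sa {l : List SawNu.Pt} (h : TW hexL.S false l) :
    ∃ l', l' ∈ Sw false ∧ ps l' l'.length = l.sum := by
  classical
  have hex : ∃ n : ℕ, ∃ l' : List SawNu.Pt, TW hexL.S false l' ∧ l'.length = n ∧ l'.sum = l.sum :=
    ⟨l.length, l, h, rfl, rfl⟩
  obtain ⟨l', h1, h2, h3⟩ := Nat.find_spec hex
  refine ⟨l', ⟨h1, ?_⟩, by rw [ps_length, h3]⟩
  intro i j hij hj he
  have hi : i ≤ l'.length := by omega
  have t1 : TW hexL.S false (l'.take i) ∧ TW hexL.S (xor false (par (l'.take i))) (l'.drop i) := by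
    rw [← TW_append, List.take_append_drop]
    exact h1
  have t2 : TW hexL.S false (l'.take j) ∧ TW hexL.S (xor false (par (l'.take j))) (l'.drop j) := by
    rw [← TW_append, List.take_append_drop]
    exact h1
  have hp := parity_of t1.1 t2.1 he
  have t3 : TW hexL.S false (l'.take i ++ l'.drop j) := by
    rw [TW_append]
    refine ⟨t1.1, ?_⟩
    have : par (l'.take i) = par (l'.take j) := hp
    rw [this]
    exact t2.2
  have hsum : (l'.take i ++ l'.drop j).sum = l.sum := by
    rw [List.sum_append, ← h3]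
    have e1 : (l'.take j).sum + (l'.drop j).sum = l'.sum := by
      rw [← List.sum_append, List.take_append_drop]
    have e2 : (l'.take i).sum = (l'.take j).sum := he
    rw [e2, e1]
  have hlen : (l'.take i ++ l'.drop j).length < Nat.find hex := by
    rw [List.length_append, List.length_take, List.length_drop, ← h2]
    omega
  exact Nat.find_min hex hlen ⟨_, t3, rfl, hsum⟩

/-- the generating function is positive -/
lemma Gd_pos {z : ℝ≥0∞} (hz : z ≠ 0) {l : List SawNu.Pt} (h : TW hexL.S false l) : Gd z l.sum ≠ 0 := by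
  obtain ⟨l', h1, h2⟩ := exists_sa h
  unfold Gd
  intro h0
  rw [ENNReal.tsum_eq_zero] at h0
  have := h0 ⟨l', h1, h2⟩
  exact pow_ne_zero _ hz this

/-- the sector of the lower bound -/
lemma sector (q : HexObs.Pt) {b : Bool} (hb : (3 : ℤ) ∣ ip q up - (if b then 2 else 0)) :
    ∃ g ∈ Rot3, 0 ≤ ip (mulE g q) up ∧ |(mulE g q).1| ≤ ip (mulE g q) up ∧
      (3 : ℤ) ∣ ip (mulE g q) up - (if b then 2 else 0) := by
  obtain ⟨x, y⟩ := q
  have h1 : (x, y) = ((x, y) : HexObs.Pt) := rfl
  unfold ip up at hb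
  simp only at hb
  rcases le_or_gt 0 y with h | h
  · rcases le_or_gt 0 (x + y) with h2 | h2
    · refine ⟨(1, 0), by decide, ?_⟩
      simp only [mulE, ip, up, abs_le]
      refine ⟨by omega, ⟨by omega, by omega⟩, by cases b <;> simp at hb ⊢ <;> omega⟩
    · refine ⟨(0, -1), by decide, ?_⟩
      simp only [mulE, ip, up, abs_le]
      refine ⟨by omega, ⟨by omega, by omega⟩, by cases b <;> simp at hb ⊢ <;> omega⟩
  · rcases le_or_gt 0 x with h2 | h2
    · refine ⟨(-1, 1), by decide, ?_⟩
      simp only [mulE, ip, up, abs_le]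
      refine ⟨by omega, ⟨by omega, by omega⟩, by cases b <;> simp at hb ⊢ <;> omega⟩
    · refine ⟨(0, -1), by decide, ?_⟩
      simp only [mulE, ip, up, abs_le]
      refine ⟨by omega, ⟨by omega, by omega⟩, by cases b <;> simp at hb ⊢ <;> omega⟩

/-- the rotations form a group -/
lemma sum_rot (F : HexObs.Pt → ℝ≥0∞) {g0 : HexObs.Pt} (h : g0 ∈ Rot3) (q : HexObs.Pt) :
    ∑ g ∈ Rot3, F (mulE g (mulE g0 q)) = ∑ g ∈ Rot3, F (mulE g q) := by
  have h1 : ∀ g, mulE g (mulE g0 q) = mulE (mulE g g0) q := fun g => mulE_assoc g g0 q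
  simp only [h1]
  apply Finset.sum_bij (fun g _ => mulE g g0)
  · intro g hg
    have key : ∀ g0 ∈ Rot3, ∀ g ∈ Rot3, mulE g g0 ∈ Rot3 := by
      unfold Rot3
      decide
    exact key g0 h g hg
  · intro g hg g' hg' he
    have key : ∀ g0 ∈ Rot3, ∀ g ∈ Rot3, ∀ g' ∈ Rot3, mulE g g0 = mulE g' g0 → g = g' := by
      unfold Rot3
      decide
    exact key g0 h g hg g' hg' he
  · intro g hg
    have key : ∀ g0 ∈ Rot3, ∀ g ∈ Rot3, ∃ g' ∈ Rot3, mulE g' g0 = g := by
      unfold Rot3
      decide
    obtain ⟨g', hg', he⟩ := key g0 h g hg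
    exact ⟨g', hg', he⟩
  · intro g _
    rfl

/-- the norm -/
lemma norm_sq (q : HexObs.Pt) : ‖phiTri (-HexMu.psi q)‖ ^ 2 = (nrm q : ℝ) := by
  have h3 : Real.sqrt 3 * Real.sqrt 3 = 3 := Real.mul_self_sqrt (by norm_num)
  rw [map_neg, norm_neg, ← Complex.normSq_eq_norm_sq, Complex.normSq_apply]
  simp only [phiTri, HexMu.psi, AddMonoidHom.coe_mk, ZeroHom.coe_mk, nrm]
  push_cast
  linear_combination (q.2 : ℝ) ^ 2 / 4 * h3

end TPF

end HexObs
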